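import Pool.Agent.helper38.AT.Spec

/-!
# Project IT (MP_bf63dc_nt, rows `it:*`): all `a, b` and almost all `c`: one of the first four iterates

Page with the complete proof: /team-store/H8_MP_bf63dc_nt_helper99.md. For a case `(a, b, c)` of Q1 let `T x = (b x + c)/a`. The iterate `T^m` is the case
`(a^m, b^m, c [m])`, `[m] = br a b m = (a^m - b^m)/(a - b)`. THEOREM (ITR). For all coprime `a, b` and all `c` outside a set of upper Banach density `0` one of
`T, T², T³, T⁴` is true. THEOREM (EVT). There is an absolute `K` such that for EVERY case one of `T, ..., T^K` is true. THEOREM (GEN). For almost all members of a one-parameter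
linear family of quadruples of linear forms two of the four forms are prime simultaneously infinitely often.

IDEA of GEN: a bad set `B` of parameters of positive upper Banach density gives `ε L²` edge-disjoint `K_4`'s in a 4-partite graph with `O(L)` vertices, so by the removal lemma for
`K_4` it contains `δ L⁴` `K_4`'s, which contradicts `AT.QPc`.

RULES. Row `XX`: file `Pool/Agent/<seat>/IT/XX.lean`, `import Pool.Agent.helper99.IT.Spec`, `namespace Pool.Agent.IT`, `theorem XX (hYY : YY_stmt) ... : XX_stmt` (drop hypotheses you do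
not need), auxiliary lemmas prefixed `XX_`. No `convert`, no `congr!`, no `native_decide`, no straight double quotes; `open Classical in` only before definitions and theorems.
-/

set_option autoImplicit false

namespace Pool.Agent.IT

open Finset Pool.Agent.AT

/-! ## Part A: the removal lemma for `K_4` -/

open Classical in
/-- **K4C** (counting lemma for `K_4`; short-medium; pure Mathlib). Call `v ∈ V 0` bad if for some `j > 0` it has fewer than `(4 η - η²) #(V j)` neighbours in `V j`; by uniformity at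
most `3 η² #(V 0)` are bad (`SimpleGraph.IsUniform` for the set of the bad ones and `V j`; compare the private lemmas `badVertices`, `card_badVertices_le` in
`Mathlib/Combinatorics/SimpleGraph/Triangle/Counting.lean`). For a good `v` let `V'_j` be its neighbours in `V j`, `#V'_j ≥ (4 η - η²) #(V j) ≥ 3 η #(V j)`. The pairs `V'_i, V'_j` are `η`-uniform with
density `≥ 4 η - η² ≥ 2 η`: subsets of `V'_j` with at least `η #V'_j ≥ 3 η² #(V j) ≥ η² #(V j)` elements are allowed in the uniformity of `V i, V j`, so their densities differ from the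
one of `V i, V j` by `< η²`, and from the one of `V'_i, V'_j` by `< 2 η² ≤ η`. `SimpleGraph.triangle_counting'` with `η`: at least `(1 - 2 η) η³ #V'_1 #V'_2 #V'_3 ≥ (1 - 2 η) 27 η⁶ #(V 1) #(V 2) #(V 3)`
triangles. Sum over the good `v`: `(1 - 3 η²)(1 - 2 η) 27 η⁶ ≥ η⁶`. -/
def K4C_stmt : Prop := ∀ (β : Type) (G : SimpleGraph β) (η : ℝ) (V : Fin 4 → Finset β), 0 < η → η ≤ 1 / 8 →
  (∀ i j : Fin 4, i < j → G.IsUniform (η ^ 2) (V i) (V j) ∧ 4 * η ≤ (G.edgeDensity (V i) (V j) : ℝ)) →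
  η ^ 6 * ∏ i, (#(V i) : ℝ) ≤ #{x ∈ Fintype.piFinset V | ∀ i j, i < j → G.Adj (x i) (x j)}

open Classical in
/-- **K4R** (REMOVAL LEMMA for a family of edge-disjoint `K_4`'s in a 4-partite relation; medium; from K4C; compare `Mathlib/Combinatorics/SimpleGraph/Triangle/Removal.lean`, whose public lemma
`SimpleGraph.regularityReduced_edges_card_aux` has fixed parameters; here the parameters are `η²` and `4 η`). Without loss `δ ≤ 1` (for `δ > 1`: `#T ≤ #(V 0) #(V 1) ≤ N²`, as `x 0, x 1` determine `x`; so `δ N² ≤ #T` is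
impossible). Let `β = {p : Fin 4 × ℤ // p.2 ∈ V p.1}` (or `Σ i, V i`), `n = card β ≤ 4 N`, and `G` the graph with `(i, x) ~ (j, y)` if `i < j` and `E i j x y`, or `j < i` and `E j i y x`. `#T ≤ #(V i) N` gives `n ≥ δ N`.
Let `η = δ/200`. If `n` is smaller than `l = ⌈1/η⌉₊`: `N ≤ l/δ` and `T` is not empty, so the number in question is at least `1 ≥ δ' N⁴`. Otherwise
`szemeredi_regularity G (ε := η²) (l := l)` gives an equipartition `P` of `univ : Finset β` with `l ≤ #P.parts ≤ bound`, uniform. Let `G'` be `G.regularityReduced P (η²) (4 η)`. `SimpleGraph.unreduced_edges_subset`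
(as in Removal.lean), `Finpartition.IsEquipartition.sum_nonUniforms_lt`, `card_biUnion_offDiag_le`, `card_interedges_sparsePairs_le`: the number of ordered pairs which are edges of `G` and not of `G'` is less than
`4 η² n² + (≤ η n² ·2) + 16 η n² ≤ 24 η n² ≤ 24 (δ/200) 16 N² < 2 δ N²`. If every `x ∈ T` had a pair `i < j` with `(i, x i), (j, x j)` not adjacent in `G'` then, as the elements of `T` are edge-disjoint, at least `2 #T ≥ 2 δ N²` ordered
pairs would be removed: contradiction. So some `x ∈ T` is a `K_4` of `G'`: the parts `U_i` of `(i, x i)` are pairwise different, `η²`-uniform and `4 η`-dense; each has at least `n/(2 bound)` elements (`aux`, `card_bound` in Removal.lean). K4C: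
at least `η⁶ (n/(2 bound))⁴ ≥ η⁶ (δ N/(2 bound))⁴` tuples `y` in `U_0 × ... × U_3` are pairwise adjacent in `G`. Such a `y` has one vertex of each type (adjacent vertices have different types); the map from `y` to the pair
(the types of `y_0, ..., y_3`; the function `z` with `z i` = the vertex of type `i`) is injective, and there are at most `4⁴` possible types. So the number in question is at least `η⁶ (δ/(2 bound))⁴ N⁴/256`. -/
def K4R_stmt : Prop := ∀ δ : ℝ, 0 < δ → ∃ δ' : ℝ, 0 < δ' ∧ ∀ (N : ℕ) (V : Fin 4 → Finset ℤ) (E : Fin 4 → Fin 4 → ℤ → ℤ → Prop)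
  (T : Finset (Fin 4 → ℤ)), 1 ≤ N → (∀ i, #(V i) ≤ N) → (∀ x ∈ T, (∀ i, x i ∈ V i) ∧ ∀ i j : Fin 4, i < j → E i j (x i) (x j)) →
  (∀ x ∈ T, ∀ y ∈ T, ∀ i j : Fin 4, i < j → x i = y i → x j = y j → x = y) → δ * (N : ℝ) ^ 2 ≤ #T →
  δ' * (N : ℝ) ^ 4 ≤ #{x ∈ Fintype.piFinset V | ∀ i j : Fin 4, i < j → E i j (x i) (x j)}

/-! ## Part B: one-parameter families of quadruples of forms -/

open Classical in
/-- **GCT** (short; from K4R). `V i = [-C L, C L]`, `C = ∑ (s i + |α i|)`, `N = 2 C L + 1 ≤ 3 C L`, `E i j x y = B (g i j (s_j x - s_i y))`, `T` = the image of `(t, y) ∈ range L × {y ∈ range L | B (Γ y)}` under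
`x i = s_i t + α_i y`; `s_j x_i - s_i x_j = (s_j α_i - s_i α_j) y`, so `g i j (...) = Γ y`. The pair `x_i, x_j` (`i < j`) determines `t, y` because `s_j α_i - s_i α_j ≠ 0` (`Γ ≠ 0`). So `#T ≥ δ L² ≥ δ/(9 C²) N²`. -/
def GCT_stmt : Prop := ∀ (s : Fin 4 → ℕ) (α : Fin 4 → ℤ) (g : Fin 4 → Fin 4 → ℤ) (Γ : ℤ), (∀ i, 0 < s i) → Γ ≠ 0 →
  (∀ i j : Fin 4, i < j → g i j * ((s j : ℤ) * α i - s i * α j) = Γ) → ∀ δ : ℝ, 0 < δ → ∃ (δ' : ℝ) (C : ℕ), 0 < δ' ∧ 1 ≤ C ∧
  ∀ (L : ℕ) (B : ℤ → Prop), 1 ≤ L → δ * L ≤ (#{y ∈ range L | B (Γ * (y : ℤ))} : ℝ) →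
    δ' * (L : ℝ) ^ 4 ≤ #{x ∈ Fintype.piFinset (fun _ : Fin 4 => Icc (-((C * L : ℕ) : ℤ)) ((C * L : ℕ) : ℤ)) |
      ∀ i j : Fin 4, i < j → B (g i j * ((s j : ℤ) * x i - s i * x j))}

/-- **ADF** (short). The forms `s_i n + h_i` are admissible if for every prime `l ∣ Q` they are congruent modulo `l` to an admissible quadruple, and every prime `l` not dividing `Q` is `≥ 5` and divides no `s_i`: then at most four
classes of `n` modulo `l` are bad (for each `i` at most one). -/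
def ADF_stmt : Prop := ∀ (s : Fin 4 → ℕ) (h h' : Fin 4 → ℤ) (Q : ℕ), (∀ l : ℕ, l.Prime → ¬ l ∣ Q → 5 ≤ l ∧ ∀ i, ¬ l ∣ s i) →
  (∀ i, (Q : ℤ) ∣ h i - h' i) → Adm (fun i => (s i, h' i)) → Adm (fun i => (s i, h i))

/-- the quadruple of forms `s_i n + α_i c + β_i` is admissible and no two of them give a true case -/
def BadC (s : Fin 4 → ℕ) (α β : Fin 4 → ℤ) (c : ℤ) : Prop :=
  Adm (fun i => (s i, α i * c + β i)) ∧ ∀ i j : Fin 4, i ≠ j → ¬ Pair (s i, α i * c + β i) (s j, α j * c + β j)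

open Classical in
/-- **GEN** (medium; from QPc, GCT, ADF). `γ_ij = s_j α_i - s_i α_j`. `Γ = ∏_(i < j) γ_ij` (or any common multiple), `g_ij = Γ/γ_ij`, `P = 6 ∏ s_i`, `Q = P |Γ|`; without loss `Γ > 0` (replace `Γ` by `|Γ|`). `δ = ε/2` in GCT gives `δ', C`. Suppose more than `ε M` elements
of `(u, u + M]` are bad, `M` large. Some class modulo `Q` contains at least `ε M/Q` of them; let `c*` be its smallest element `> u`, `L = M/Q + 1` (natural division), so these elements are `c* + Q y`, `y ∈ range L`, and there are at least `ε M/Q ≥ (ε/2) L`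
of them for `M ≥ Q`. Let `B t = BadC (c* + P t)`, so `B (Γ y) = BadC (c* + Q y)`. GCT: at least `δ' L⁴` tuples `x`, `|x_i| ≤ C L`. For `h_i = α_i c* + β_i + Q x_i` and `c' = c* + P g_ij (s_j x_i - s_i x_j)`:
`s_j h_i - s_i h_j = γ_ij c* + (s_j β_i - s_i β_j) + Q (s_j x_i - s_i x_j) = s_j (α_i c' + β_i) - s_i (α_j c' + β_j)` since `γ_ij P g_ij = Q`. `Pair f f'` depends only on the slopes and on `f'.1 f.2 - f.1 f'.2`, so `¬ Pair (s_i, h_i) (s_j, h_j)` and
(exchanging, same `c'`) `¬ Pair (s_j, h_j) (s_i, h_i)`. Admissible by ADF (`h' i = α_i c₁ + β_i` with a bad `c₁ = c*` modulo `Q`). The forms `(s_i, h_i)` lie in `F_i = {(s_i, α_i c* + β_i + Q x) : |x| ≤ C L}`, `2 C L + 1` elements. QPc: `δ' L⁴ ≤ C' (2 C L + 1)⁴ (2 C L + 1)^(-δ₀)`,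
false for large `L`. -/
def GEN_stmt : Prop := QPc → ∀ (s : Fin 4 → ℕ) (α β : Fin 4 → ℤ), (∀ i, 0 < s i) → (∀ i j : Fin 4, i ≠ j → (s j : ℤ) * α i ≠ s i * α j) → ∀ ε : ℝ, 0 < ε →
  ∃ M₀ : ℕ, ∀ M : ℕ, M₀ ≤ M → ∀ u : ℤ, (#{c ∈ Ioc u (u + M) | BadC s α β c} : ℝ) ≤ ε * M

/-! ## Part C: iterates -/

/-- `[m] = ∑_(i < m) a^i b^(m - 1 - i)`, that is `(a^m - b^m)/(a - b)` for `a ≠ b` -/
def br (a b m : ℕ) : ℕ := ∑ i ∈ range m, a ^ i * b ^ (m - 1 - i)

/-- the `m`-th iterate of `T x = (b x + c)/a` maps infinitely many primes to primes: `a^m p - b^m q = c [m]` -/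
def It (a b : ℕ) (c : ℤ) (m : ℕ) : Prop := Pool.Agent.helper85.FC.TrueCase (a ^ m) (b ^ m) (c * br a b m)

/-- the conditions of Q1 -/
def Ad (a b : ℕ) (c : ℤ) : Prop := 0 < a ∧ 0 < b ∧ c ≠ 0 ∧ Nat.Coprime a b ∧ IsCoprime (a : ℤ) c ∧ IsCoprime (b : ℤ) c ∧ ¬ (Odd a ∧ Odd b ∧ Odd c)

/-- **ORB** (short; orbits). For coprime `a, b ≥ 1`, every `c` and `E` there are integers `h_0, ..., h_E` with `a h_(i+1) = b h_i + c`. Induction on `E` from the right: `h_E` free is not enough; take `h_0` with `a^E ∣ b^E h_0 + c [E]` (`gcd(a^E, b^E) = 1`); then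
`a ∣ b h_0 + c`: `b^E h_0 + c [E] = b^(E-1) (b h_0 + c)` modulo `a` (`[E] = b^(E-1)` mod `a`), so `h_1 = (b h_0 + c)/a` is an integer and `a^(E-1) ∣ b^(E-1) h_1 + c [E-1]` because `b^E h_0 + c [E] = a (b^(E-1) h_1 + c [E-1])` (`[E] = b^(E-1) + a [E-1]`). Induction on `E`. -/
def ORB_stmt : Prop := ∀ (a b E : ℕ) (c : ℤ), 1 ≤ a → 1 ≤ b → Nat.Coprime a b → ∃ h : ℕ → ℤ, ∀ i < E, (a : ℤ) * h (i + 1) = b * h i + c

/-- **ADO** (short-medium; admissibility of orbits). `(a, b, c)` as in Q1, `h` an orbit, `e` increasing, `e i ≤ E`; the forms `a^(E - e_i) b^(e_i) n + h (e_i)` are admissible if `3 ∣ a b c`, or `3 ∤ a - b`, or the `e_i` miss a class modulo 3.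
`a^i h_i = b^i h_0 + c [i]`, so `a^(e) (a^(E-e) b^e n + h_e) = b^e x + c [e]` with `x = a^E n + h_0`. Prime `l ∣ a`: `b` and `c` are units; for `e < E` `b h_e = - c` mod `l`, a unit, and the slope is `0`; for `e = E` the form is `b^E n + h_E`, choose `n` (one bad class, `l ≥ 2`). `l ∣ b`: for `e > 0` the
slope is `0` and `a h_e = c`, a unit; for `e = 0` the form is `a^E n + h_0`. `l ∤ a b`, `l ∣ c`: choose `n` with `x` a unit. `l ∤ a b c`: the form `e` vanishes iff `x = - c [e]/b^e`. `l = 2` does not occur (`a, b` odd give `c` even). `l ≥ 5`: at most four classes. `l = 3`, `a = - b`: `b^(-e) [e] = (r^e - 1)/(b (r - 1))`-type, `r = a/b = -1`,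
takes only two values (`[e] = 0` for even `e`; `[e] b^(-e) = b^(-1)` for odd `e`). `l = 3`, `a = b` mod 3: `[e] b^(-e) = e b^(-1)`, so the bad classes are `x = - c e/b` and a class of `e` is missed. -/
def ADO_stmt : Prop := ∀ (a b E : ℕ) (c : ℤ) (e : Fin 4 → ℕ) (h : ℕ → ℤ), Ad a b c → (∀ i < E, (a : ℤ) * h (i + 1) = b * h i + c) → (∀ i, e i ≤ E) →
  ((3 : ℤ) ∣ a * b * c ∨ ¬ (3 : ℤ) ∣ (a : ℤ) - b ∨ ∃ r : ℤ, ∀ i, ¬ (3 : ℤ) ∣ (e i : ℤ) - r) → Adm (fun i => (a ^ (E - e i) * b ^ (e i), h (e i)))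

/-- **PRI** (short). A true pair of an orbit is a true iterate. For `e < e' ≤ E`, `m = e' - e`, slopes `s = a^(E-e) b^e`, `s' = a^(E-e') b^(e')`, `gcd(s, s') = a^(E-e') b^e`, `s/gcd = a^m`, `s'/gcd = b^m`, and `a^m h_(e') = b^m h_e + c [m]`. So `Pair (s', h_(e')) (s, h_e)` is
`TrueCase (a^m) (b^m) ((s h_(e') - s' h_e)/gcd) = TrueCase (a^m) (b^m) (c [m])`. -/
def PRI_stmt : Prop := ∀ (a b E : ℕ) (c : ℤ) (h : ℕ → ℤ) (e e' : ℕ), 1 ≤ a → 1 ≤ b → Nat.Coprime a b → (∀ i < E, (a : ℤ) * h (i + 1) = b * h i + c) → e < e' → e' ≤ E →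
  Pair (a ^ (E - e') * b ^ e', h e') (a ^ (E - e) * b ^ e, h e) → It a b c (e' - e)

open Classical in
/-- **ITG** (short-medium; from GEN, ORB, ADO, PRI). `E = e 3`. For each class `c₁` modulo `a^E` (`0 ≤ c₁ < a^E`) take an orbit `η` of `c₁` (ORB) and for `c = c₁ + a^E k` the orbit `h_i = η_i + a^(E-i) [i] k` (`a · a^(E-i-1) [i+1] = b a^(E-i) [i] + a^E`). Apply GEN to `s_i = a^(E - e_i) b^(e_i)`,
`α_i = a^(E-e_i) [e_i]`, `β_i = η_(e_i)`, parameter `k`: `s_j α_i - s_i α_j = ± a^(2E - e_i) b^(e_i) [e_j - e_i]` up to a factor (`i < j`: `= - a^(E-e_j) a^(E-e_i) b^(e_i) a^(e_i) [e_j - e_i]`), not `0`. If `c` is not excluded by the condition and no difference gives a true iterate then `k` is `BadC` (ADO,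
PRI; `Pair` is needed in both orders: `Pair f g` and `Pair g f` are equivalent, exchange of `p, q` and `c ↦ -c`; prove it as a lemma). The `c` in `(u, u + M]` in the class `c₁` correspond to `k` in an interval of length at most `M/a^E + 1`. Sum over the `a^E` classes, with `ε/2`. -/
def ITG_stmt : Prop := QPc → ∀ (a b : ℕ) (e : Fin 4 → ℕ), 1 ≤ a → 1 ≤ b → Nat.Coprime a b → StrictMono e → ∀ ε : ℝ, 0 < ε →
  ∃ M₀ : ℕ, ∀ M : ℕ, M₀ ≤ M → ∀ u : ℤ, (#{c ∈ Ioc u (u + M) | Ad a b c ∧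
    ((3 : ℤ) ∣ a * b * c ∨ ¬ (3 : ℤ) ∣ (a : ℤ) - b ∨ ∃ r : ℤ, ∀ i, ¬ (3 : ℤ) ∣ (e i : ℤ) - r) ∧ ∀ i j : Fin 4, i < j → ¬ It a b c (e j - e i)} : ℝ) ≤ ε * M

/-- **EVT** (short-medium; from ORB and `Pool.Agent.helper39.MT.maynard_tao 1`, `Pool.Agent.AT.PRT` and the proof of PRI (hypothesis `PRI_stmt`)). `k` from `maynard_tao 1`, exponents `e_i = i k!` (`i < k`), `E = k k!`, `K = k k!`. The forms `a^(E - e) b^e n + h_e` are admissible: primes `l ∣ a b` and `l ∣ c` as in ADO;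
`l ∤ a b c`, `l > k`: at most `k` bad classes; `l ≤ k`: `(l - 1) l ∣ e_i`, so `a^e = b^e = 1` mod `l` and `[e] = 0` mod `l` (if `a ≠ b` mod `l` from `(a - b) [e] = a^e - b^e`; if `a = b` then `[e] = e a^(e-1) = 0`), so every form vanishes iff `x = 0`, and there is another class. Not proportional (`a^(e'-e) h_(e') - b^(e'-e) h_e = c [e'-e] ≠ 0`).
Two forms are prime simultaneously infinitely often (pigeonhole over the pairs), so `Pair` by PRT (needs `Adm ![f, g]`, a subtuple) and PRI gives the iterate. -/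
def EVT_stmt : Prop := ∃ K : ℕ, ∀ (a b : ℕ) (c : ℤ), Ad a b c → ∃ m : ℕ, 1 ≤ m ∧ m ≤ K ∧ It a b c m

end Pool.Agent.IT
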