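import Mathlib.Algebra.Group.Subgroup.Basic
import Mathlib.Data.Finset.Card
import Mathlib.Data.Real.Basic
import Mathlib.Algebra.Order.BigOperators.Group.Finset
import Mathlib.Tactic

/-! Project EveryCentre (MP_bf63dc_nt): from pairs in finite sets to lower Banach density in a commutative group. -/

set_option autoImplicit false

namespace Pool.Agent.IT

open Finset

open Classical in
/-- the number of the ordered pairs `(x, y)` in `E` with `D (x / y)` -/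
noncomputable def prs {G : Type} [CommGroup G] (D : G → Prop) (E : Finset G) : ℕ := #{p ∈ E ×ˢ E | D (p.1 / p.2)}

open Classical in
/-- deletion of a point of large degree -/
theorem prs_del1 {G : Type} [CommGroup G] (D : G → Prop) (hs : ∀ x, D x → D x⁻¹) (h1 : ¬ D 1) (E : Finset G) (hE : E.Nonempty) :
    ∃ x ∈ E, prs D (E.erase x) * #E + 2 * prs D E ≤ prs D E * #E := by
  obtain ⟨deg, hdeg⟩ : ∃ deg : G → ℕ, ∀ x, deg x = #{y ∈ E | D (x / y)} := ⟨_, fun _ => rfl⟩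
  have hsum : prs D E = ∑ x ∈ E, deg x := by
    unfold prs
    rw [card_filter, sum_product]
    refine sum_congr rfl fun x _ => ?_
    rw [hdeg, card_filter]
  obtain ⟨x, hx, hmax⟩ : ∃ x ∈ E, prs D E ≤ #E * deg x := by
    obtain ⟨x, hx, hmx⟩ := exists_max_image E deg hE
    refine ⟨x, hx, ?_⟩
    rw [hsum]
    calc ∑ y ∈ E, deg y ≤ ∑ _y ∈ E, deg x := sum_le_sum hmx
      _ = #E * deg x := by rw [sum_const, smul_eq_mul]
  refine ⟨x, hx, ?_⟩
  have hdec : prs D (E.erase x) + 2 * deg x ≤ prs D E := by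
    have e1 : #(({y ∈ E | D (x / y)}.image fun y => (x, y))) = deg x := by
      rw [card_image_of_injective _ (fun a b h => (Prod.mk.inj h).2), hdeg]
    have e2 : #(({y ∈ E | D (x / y)}.image fun y => (y, x))) = deg x := by
      rw [card_image_of_injective _ (fun a b h => (Prod.mk.inj h).1), hdeg]
    have hd1 : Disjoint (({y ∈ E | D (x / y)}.image fun y => (x, y))) (({y ∈ E | D (x / y)}.image fun y => (y, x))) := by
      rw [disjoint_left]
      intro p hp hq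
      obtain ⟨y, hy, rfl⟩ := mem_image.1 hp
      obtain ⟨w, hw, hw2⟩ := mem_image.1 hq
      have h3 := Prod.mk.inj hw2
      have h4 := (mem_filter.1 hy).2
      rw [← h3.2, div_self'] at h4
      exact h1 h4
    have hd2 : Disjoint ({p ∈ E.erase x ×ˢ E.erase x | D (p.1 / p.2)})
        ((({y ∈ E | D (x / y)}.image fun y => (x, y))) ∪ (({y ∈ E | D (x / y)}.image fun y => (y, x)))) := by
      rw [disjoint_left]
      intro p hp hq
      have h3 := mem_product.1 (mem_filter.1 hp).1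
      rcases mem_union.1 hq with hq | hq
      · obtain ⟨y, hy, rfl⟩ := mem_image.1 hq
        exact (mem_erase.1 h3.1).1 rfl
      · obtain ⟨y, hy, rfl⟩ := mem_image.1 hq
        exact (mem_erase.1 h3.2).1 rfl
    have hsub : ({p ∈ E.erase x ×ˢ E.erase x | D (p.1 / p.2)}) ∪
        ((({y ∈ E | D (x / y)}.image fun y => (x, y))) ∪ (({y ∈ E | D (x / y)}.image fun y => (y, x)))) ⊆ {p ∈ E ×ˢ E | D (p.1 / p.2)} := by
      intro p hp
      rcases mem_union.1 hp with hp | hp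
      · obtain ⟨h3, h4⟩ := mem_filter.1 hp
        obtain ⟨h5, h6⟩ := mem_product.1 h3
        exact mem_filter.2 ⟨mem_product.2 ⟨(mem_erase.1 h5).2, (mem_erase.1 h6).2⟩, h4⟩
      · rcases mem_union.1 hp with hp | hp
        · obtain ⟨y, hy, rfl⟩ := mem_image.1 hp
          exact mem_filter.2 ⟨mem_product.2 ⟨hx, (mem_filter.1 hy).1⟩, (mem_filter.1 hy).2⟩
        · obtain ⟨y, hy, rfl⟩ := mem_image.1 hp
          refine mem_filter.2 ⟨mem_product.2 ⟨(mem_filter.1 hy).1, hx⟩, ?_⟩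
          have h5 := hs _ (mem_filter.1 hy).2
          rwa [inv_div] at h5
    have h3 := card_le_card hsub
    rw [card_union_of_disjoint hd2, card_union_of_disjoint hd1, e1, e2] at h3
    unfold prs
    omega
  calc prs D (E.erase x) * #E + 2 * prs D E ≤ prs D (E.erase x) * #E + 2 * (#E * deg x) := by omega
    _ = (prs D (E.erase x) + 2 * deg x) * #E := by ring
    _ ≤ prs D E * #E := Nat.mul_le_mul_right _ hdec

/-- some `n`-subset has at most the average number of pairs -/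
theorem prs_del {G : Type} [CommGroup G] (D : G → Prop) (hs : ∀ x, D x → D x⁻¹) (h1 : ¬ D 1) (n : ℕ) (hn : 2 ≤ n) :
    ∀ (j : ℕ) (E : Finset G), #E = n + j → ∃ S ⊆ E, #S = n ∧ prs D S * ((n + j) * (n + j - 1)) ≤ prs D E * (n * (n - 1)) := by
  classical
  intro j
  induction j with
  | zero => exact fun E hE => ⟨E, Subset.refl _, hE, le_refl _⟩
  | succ j ih =>
    intro E hE
    obtain ⟨x, hx, hx1⟩ := prs_del1 D hs h1 E (card_pos.1 (by omega))
    have hE' : #(E.erase x) = n + j := by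
      rw [card_erase_of_mem hx, hE]
      omega
    obtain ⟨S, hS, hSc, hS1⟩ := ih _ hE'
    refine ⟨S, hS.trans (erase_subset _ _), hSc, ?_⟩
    rw [hE] at hx1
    obtain ⟨k, hk⟩ : ∃ k, n + j = k + 1 := ⟨n + j - 1, by omega⟩
    have hk1 : 1 ≤ k := by omega
    have e1 : n + (j + 1) = k + 2 := by omega
    rw [hk] at hS1
    rw [e1] at hx1 ⊢
    simp only [Nat.add_sub_cancel] at hS1
    have e2 : k + 2 - 1 = k + 1 := rfl
    rw [e2]
    obtain ⟨P, hP⟩ : ∃ P, P = prs D E := ⟨_, rfl⟩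
    obtain ⟨Q, hQ⟩ : ∃ Q, Q = prs D (E.erase x) := ⟨_, rfl⟩
    obtain ⟨R, hR⟩ : ∃ R, R = prs D S := ⟨_, rfl⟩
    obtain ⟨A, hA⟩ : ∃ A, A = n * (n - 1) := ⟨_, rfl⟩
    rw [← hP, ← hQ] at hx1
    rw [← hQ, ← hR, ← hA] at hS1
    rw [← hP, ← hR, ← hA]
    -- R (k+1) k ≤ Q A, Q (k+2) + 2 P ≤ P (k+2)
    have h2 : Q * (k + 2) ≤ P * k := by nlinarith
    refine Nat.le_of_mul_le_mul_left ?_ hk1
    calc k * (R * ((k + 2) * (k + 1))) = (R * ((k + 1) * k)) * (k + 2) := by ring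
      _ ≤ (Q * A) * (k + 2) := Nat.mul_le_mul_right _ hS1
      _ = (Q * (k + 2)) * A := by ring
      _ ≤ (P * k) * A := Nat.mul_le_mul_right _ h2
      _ = k * (P * A) := by ring

open Classical in
/-- the union of a set and its translate -/
theorem prs_union {G : Type} [CommGroup G] (D : G → Prop) (hs : ∀ x, D x → D x⁻¹) (E : Finset G) (t : G) :
    prs D (E ∪ E.image (t * ·)) ≤ 2 * prs D E + 2 * #{p ∈ E ×ˢ E | D (t * (p.1 / p.2))} := by
  have hsub : {p ∈ (E ∪ E.image (t * ·)) ×ˢ (E ∪ E.image (t * ·)) | D (p.1 / p.2)} ⊆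
      (({p ∈ E ×ˢ E | D (p.1 / p.2)} ∪ {p ∈ E ×ˢ E | D (p.1 / p.2)}.image (fun p => (t * p.1, t * p.2))) ∪
        {p ∈ E ×ˢ E | D (t * (p.1 / p.2))}.image (fun p => (t * p.1, p.2))) ∪
        {p ∈ E ×ˢ E | D (t * (p.1 / p.2))}.image (fun p => (p.2, t * p.1)) := by
    intro p hp
    obtain ⟨h1, h2⟩ := mem_filter.1 hp
    obtain ⟨h3, h4⟩ := mem_product.1 h1
    obtain ⟨p1, p2⟩ := p
    simp only at h1 h2 h3 h4
    rcases mem_union.1 h3 with h3 | h3 <;> rcases mem_union.1 h4 with h4 | h4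
    · exact mem_union_left _ (mem_union_left _ (mem_union_left _ (mem_filter.2 ⟨mem_product.2 ⟨h3, h4⟩, h2⟩)))
    · obtain ⟨y, hy, rfl⟩ := mem_image.1 h4
      refine mem_union_right _ (mem_image.2 ⟨(y, p1), mem_filter.2 ⟨mem_product.2 ⟨hy, h3⟩, ?_⟩, rfl⟩)
      have h5 := hs _ h2
      rw [inv_div] at h5
      simp only
      rwa [mul_div_assoc] at h5
    · obtain ⟨x, hx, rfl⟩ := mem_image.1 h3
      refine mem_union_left _ (mem_union_right _ (mem_image.2 ⟨(x, p2), mem_filter.2 ⟨mem_product.2 ⟨hx, h4⟩, ?_⟩, rfl⟩))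
      simp only
      rwa [mul_div_assoc] at h2
    · obtain ⟨x, hx, rfl⟩ := mem_image.1 h3
      obtain ⟨y, hy, rfl⟩ := mem_image.1 h4
      refine mem_union_left _ (mem_union_left _ (mem_union_right _ (mem_image.2 ⟨(x, y), mem_filter.2 ⟨mem_product.2 ⟨hx, hy⟩, ?_⟩, rfl⟩)))
      simp only
      rwa [mul_div_mul_left_eq_div] at h2
  have h1 := card_le_card hsub
  unfold prs
  have h2 := card_union_le ((({p ∈ E ×ˢ E | D (p.1 / p.2)} ∪ {p ∈ E ×ˢ E | D (p.1 / p.2)}.image (fun p => (t * p.1, t * p.2))) ∪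
        {p ∈ E ×ˢ E | D (t * (p.1 / p.2))}.image (fun p => (t * p.1, p.2)))) ({p ∈ E ×ˢ E | D (t * (p.1 / p.2))}.image (fun p => (p.2, t * p.1)))
  have h3 := card_union_le (({p ∈ E ×ˢ E | D (p.1 / p.2)} ∪ {p ∈ E ×ˢ E | D (p.1 / p.2)}.image (fun p => (t * p.1, t * p.2))))
        ({p ∈ E ×ˢ E | D (t * (p.1 / p.2))}.image (fun p => (t * p.1, p.2)))
  have h4 := card_union_le ({p ∈ E ×ˢ E | D (p.1 / p.2)}) ({p ∈ E ×ˢ E | D (p.1 / p.2)}.image (fun p => (t * p.1, t * p.2)))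
  have h5 : #({p ∈ E ×ˢ E | D (p.1 / p.2)}.image (fun p => (t * p.1, t * p.2))) ≤ #({p ∈ E ×ˢ E | D (p.1 / p.2)}) := card_image_le
  have h6 : #({p ∈ E ×ˢ E | D (t * (p.1 / p.2))}.image (fun p => (t * p.1, p.2))) ≤ #({p ∈ E ×ˢ E | D (t * (p.1 / p.2))}) := card_image_le
  have h7 : #({p ∈ E ×ˢ E | D (t * (p.1 / p.2))}.image (fun p => (p.2, t * p.1))) ≤ #({p ∈ E ×ˢ E | D (t * (p.1 / p.2))}) := card_image_le
  omega

open Classical in
theorem DENS {G : Type} [CommGroup G] (Γ : Subgroup G) (D : G → Prop) (hs : ∀ x, D x → D x⁻¹) (h1 : ¬ D 1)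
    (htf : ∀ x ∈ Γ, x ≠ 1 → ∀ n : ℕ, 0 < n → x ^ n ≠ 1) (hinf : ∃ x ∈ Γ, x ≠ 1) (β : ℝ) (hβ1 : β ≤ 1) (N : ℕ)
    (hN : ∀ E : Finset G, (∀ x ∈ E, x ∈ Γ) → N ≤ #E → β * (#E : ℝ) ^ 2 ≤ prs D E) :
    ∀ η : ℝ, 0 < η → ∃ K : Finset G, (∀ g ∈ K, g ∈ Γ) ∧ ∃ δ : ℝ, 0 < δ ∧ ∀ F : Finset G, (∀ x ∈ F, x ∈ Γ) →
      (∀ g ∈ K, (#{x ∈ F | x * g ∉ F} : ℝ) ≤ δ * #F) → (β - η) * #F ≤ #{x ∈ F | D x} := by
  intro η hη
  obtain ⟨n, hn⟩ : ∃ n, n = max N 2 := ⟨_, rfl⟩
  have hn2 : 2 ≤ n := by omega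
  obtain ⟨x₀, hx₀, hx₀1⟩ := hinf
  have hpinj : Function.Injective fun i : ℕ => x₀ ^ i := by
    have key : ∀ i j : ℕ, i < j → x₀ ^ i ≠ x₀ ^ j := by
      intro i j hij h
      have h2 : x₀ ^ (j - i) = 1 := by
        have h3 : x₀ ^ i * x₀ ^ (j - i) = x₀ ^ i * 1 := by
          rw [← pow_add, Nat.add_sub_cancel' hij.le, ← h, mul_one]
        exact mul_left_cancel h3
      exact htf x₀ hx₀ hx₀1 _ (by omega) h2
    intro i j h
    rcases lt_trichotomy i j with h2 | h2 | h2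
    · exact absurd h (key i j h2)
    · exact h2
    · exact absurd h.symm (key j i h2)
  have hex : ∃ k : ℕ, ∃ E : Finset G, (∀ x ∈ E, x ∈ Γ) ∧ #E = n ∧ prs D E = k := by
    refine ⟨_, (range n).image fun i => x₀ ^ i, ?_, ?_, rfl⟩
    · intro x hx
      obtain ⟨i, -, rfl⟩ := mem_image.1 hx
      exact Γ.pow_mem hx₀ i
    · rw [card_image_of_injective _ hpinj, card_range]
  obtain ⟨E, hEΓ, hEc, hEP⟩ := Nat.find_spec hex
  have hmin : ∀ S : Finset G, (∀ x ∈ S, x ∈ Γ) → #S = n → prs D E ≤ prs D S := by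
    intro S hS hSc
    rw [hEP]
    exact Nat.find_min' hex ⟨S, hS, hSc, rfl⟩
  obtain ⟨K, hK⟩ : ∃ K : Finset G, K = (E ×ˢ E).image fun p => p.1 / p.2 := ⟨_, rfl⟩
  have hKc : #K ≤ n ^ 2 := by
    rw [hK]
    refine card_image_le.trans ?_
    rw [card_product, hEc, sq]
  have hmain : ∀ t ∈ Γ, t ∉ K → prs D E ≤ #{p ∈ E ×ˢ E | D (t * (p.1 / p.2))} := by
    intro t ht htK
    have hdis : Disjoint E (E.image (t * ·)) := by
      rw [disjoint_left]
      intro y hy hy2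
      obtain ⟨x, hx, hxy⟩ := mem_image.1 hy2
      apply htK
      rw [hK, mem_image]
      refine ⟨(y, x), mem_product.2 ⟨hy, hx⟩, ?_⟩
      simp only at hxy ⊢
      rw [← hxy, mul_div_cancel_right]
    have hc : #(E ∪ E.image (t * ·)) = n + n := by
      rw [card_union_of_disjoint hdis, card_image_of_injective _ (mul_right_injective t), hEc]
    obtain ⟨S, hS, hSc, hSP⟩ := prs_del D hs h1 n hn2 n _ hc
    have h2 := hmin S (by
      intro x hx
      rcases mem_union.1 (hS hx) with h | h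
      · exact hEΓ x h
      · obtain ⟨y, hy, rfl⟩ := mem_image.1 h
        exact Γ.mul_mem ht (hEΓ y hy)) hSc
    have h3 := prs_union D hs E t
    obtain ⟨X, hX⟩ : ∃ X, X = #{p ∈ E ×ˢ E | D (t * (p.1 / p.2))} := ⟨_, rfl⟩
    rw [← hX] at h3 ⊢
    obtain ⟨P, hP⟩ : ∃ P, P = prs D E := ⟨_, rfl⟩
    rw [← hP] at h2 h3 ⊢
    obtain ⟨k, rfl⟩ : ∃ k, n = k + 1 := ⟨n - 1, by omega⟩
    have hk : 1 ≤ k := by omega
    have h4 : P * ((k + 1 + (k + 1)) * (k + 1 + (k + 1) - 1)) ≤ (2 * P + 2 * X) * ((k + 1) * (k + 1 - 1)) :=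
      (Nat.mul_le_mul_right _ h2).trans (hSP.trans (Nat.mul_le_mul_right _ h3))
    have e1 : k + 1 + (k + 1) - 1 = 2 * k + 1 := by omega
    have e2 : k + 1 - 1 = k := rfl
    rw [e1, e2] at h4
    have h5 : (k + 1) * (P * (2 * (2 * k + 1))) ≤ (k + 1) * ((2 * P + 2 * X) * k) := by
      calc (k + 1) * (P * (2 * (2 * k + 1))) = P * ((k + 1 + (k + 1)) * (2 * k + 1)) := by ring
        _ ≤ _ := h4
        _ = _ := by ring
    have h6 := Nat.le_of_mul_le_mul_left h5 (by omega)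
    by_contra hlt
    push Not at hlt
    have h7 : X * k + k ≤ P * k := by nlinarith
    nlinarith
  refine ⟨K, ?_, η / (n ^ 2 + 1), by positivity, ?_⟩
  · intro g hg
    rw [hK] at hg
    obtain ⟨p, hp, rfl⟩ := mem_image.1 hg
    obtain ⟨h2, h3⟩ := mem_product.1 hp
    exact Γ.div_mem (hEΓ _ h2) (hEΓ _ h3)
  intro F hF hFK
  rcases F.eq_empty_or_nonempty with hF0 | hF0
  · rw [hF0]
    simp
  obtain ⟨δ, hδ⟩ : ∃ δ : ℝ, δ = η / (n ^ 2 + 1) := ⟨_, rfl⟩
  rw [← hδ] at hFK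
  have hδ0 : 0 < δ := by rw [hδ]; positivity
  have hbig : 1 ≤ δ * #F := by
    by_contra hlt
    push Not at hlt
    obtain ⟨g, hg, hg1⟩ : ∃ g ∈ K, g ≠ 1 := by
      have h2 : 1 < #E := by omega
      obtain ⟨a, ha, b, hb, hab⟩ := one_lt_card.1 h2
      refine ⟨a / b, ?_, ?_⟩
      · rw [hK, mem_image]
        exact ⟨(a, b), mem_product.2 ⟨ha, hb⟩, rfl⟩
      · rwa [Ne, div_eq_one]
    have hgΓ : g ∈ Γ := by
      rw [hK] at hg
      obtain ⟨p, hp, rfl⟩ := mem_image.1 hg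
      obtain ⟨h2, h3⟩ := mem_product.1 hp
      exact Γ.div_mem (hEΓ _ h2) (hEΓ _ h3)
    have h2 : #{x ∈ F | x * g ∉ F} = 0 := by
      have h3 := (hFK g hg).trans_lt hlt
      have h4 : #{x ∈ F | x * g ∉ F} < 1 := by exact_mod_cast h3
      omega
    have h3 : ∀ x ∈ F, x * g ∈ F := by
      intro x hx
      by_contra h4
      have h5 : x ∈ {x ∈ F | x * g ∉ F} := mem_filter.2 ⟨hx, h4⟩
      rw [card_eq_zero] at h2
      rw [h2] at h5
      exact notMem_empty _ h5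
    obtain ⟨x, hx⟩ := hF0
    have h4 : ∀ i : ℕ, x * g ^ i ∈ F := by
      intro i
      induction i with
      | zero => simpa using hx
      | succ i ih =>
        rw [pow_succ, ← mul_assoc]
        exact h3 _ ih
    have h5 : Function.Injective fun i : ℕ => x * g ^ i := by
      have key : ∀ i j : ℕ, i < j → x * g ^ i ≠ x * g ^ j := by
        intro i j hij h
        have h5 := mul_left_cancel h
        have h2 : g ^ (j - i) = 1 := by
          have h3 : g ^ i * g ^ (j - i) = g ^ i * 1 := by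
            rw [← pow_add, Nat.add_sub_cancel' hij.le, ← h5, mul_one]
          exact mul_left_cancel h3
        exact htf g hgΓ hg1 _ (by omega) h2
      intro i j h
      rcases lt_trichotomy i j with h2 | h2 | h2
      · exact absurd h (key i j h2)
      · exact h2
      · exact absurd h.symm (key j i h2)
    have h6 := card_le_card (s := (range (#F + 1)).image fun i : ℕ => x * g ^ i) (t := F) (by
      intro y hy
      obtain ⟨i, -, rfl⟩ := mem_image.1 hy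
      exact h4 i)
    rw [card_image_of_injective _ h5, card_range] at h6
    omega
  -- the sum over `t ∈ F`
  obtain ⟨X, hX⟩ : ∃ X : G → ℕ, ∀ t, X t = #{p ∈ E ×ˢ E | D (t * (p.1 / p.2))} := ⟨_, fun _ => rfl⟩
  obtain ⟨a, ha⟩ : ∃ a : ℕ, a = #{x ∈ F | D x} := ⟨_, rfl⟩
  have hlow : (prs D E : ℝ) * (#F - n ^ 2) ≤ ∑ t ∈ F, (X t : ℝ) := by
    have h2 : (prs D E : ℝ) * #(F \ K) ≤ ∑ t ∈ F \ K, (X t : ℝ) := by
      rw [mul_comm, ← nsmul_eq_mul]
      refine card_nsmul_le_sum _ _ _ fun t ht => ?_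
      obtain ⟨h3, h4⟩ := mem_sdiff.1 ht
      have h5 := hmain t (hF t h3) h4
      rw [← hX] at h5
      exact_mod_cast h5
    have h3 : (#F : ℝ) - n ^ 2 ≤ #(F \ K) := by
      have h4 := le_card_sdiff K F
      have h5 : #F ≤ #(F \ K) + n ^ 2 := by omega
      have h6 : (#F : ℝ) ≤ #(F \ K) + n ^ 2 := by exact_mod_cast h5
      linarith
    calc (prs D E : ℝ) * (#F - n ^ 2) ≤ (prs D E : ℝ) * #(F \ K) := mul_le_mul_of_nonneg_left h3 (Nat.cast_nonneg _)
      _ ≤ ∑ t ∈ F \ K, (X t : ℝ) := h2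
      _ ≤ ∑ t ∈ F, (X t : ℝ) := sum_le_sum_of_subset_of_nonneg sdiff_subset fun _ _ _ => Nat.cast_nonneg _
  have hup : ∑ t ∈ F, (X t : ℝ) ≤ n ^ 2 * (a + δ * #F) := by
    have e1 : ∑ t ∈ F, X t = ∑ p ∈ E ×ˢ E, #{t ∈ F | D (t * (p.1 / p.2))} := by
      have e2 : ∀ t ∈ F, X t = ∑ p ∈ E ×ˢ E, if D (t * (p.1 / p.2)) then 1 else 0 := by
        intro t _
        rw [hX, card_filter]
      rw [sum_congr rfl e2, sum_comm]
      refine sum_congr rfl fun p _ => ?_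
      rw [card_filter]
    have e3 : ∑ t ∈ F, (X t : ℝ) = ∑ p ∈ E ×ˢ E, (#{t ∈ F | D (t * (p.1 / p.2))} : ℝ) := by exact_mod_cast e1
    rw [e3]
    have e4 : ∀ p ∈ E ×ˢ E, (#{t ∈ F | D (t * (p.1 / p.2))} : ℝ) ≤ a + δ * #F := by
      intro p hp
      have hg : p.1 / p.2 ∈ K := by
        rw [hK, mem_image]
        exact ⟨p, hp, rfl⟩
      have h2 : #{t ∈ F | D (t * (p.1 / p.2))} ≤ a + #{x ∈ F | x * (p.1 / p.2) ∉ F} := by
        have h3 : {t ∈ F | D (t * (p.1 / p.2))} ⊆ {t ∈ F | D (t * (p.1 / p.2)) ∧ t * (p.1 / p.2) ∈ F} ∪ {x ∈ F | x * (p.1 / p.2) ∉ F} := by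
          intro t ht
          obtain ⟨h4, h5⟩ := mem_filter.1 ht
          by_cases h6 : t * (p.1 / p.2) ∈ F
          · exact mem_union_left _ (mem_filter.2 ⟨h4, h5, h6⟩)
          · exact mem_union_right _ (mem_filter.2 ⟨h4, h6⟩)
        refine (card_le_card h3).trans ((card_union_le _ _).trans (Nat.add_le_add_right ?_ _))
        rw [ha]
        refine card_le_card_of_injOn (fun t => t * (p.1 / p.2)) ?_ (fun _ _ _ _ h => mul_right_cancel h)
        intro t ht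
        obtain ⟨h4, h5, h6⟩ := mem_filter.1 (mem_coe.1 ht)
        exact mem_coe.2 (mem_filter.2 ⟨h6, h5⟩)
      have h3 : (#{t ∈ F | D (t * (p.1 / p.2))} : ℝ) ≤ a + #{x ∈ F | x * (p.1 / p.2) ∉ F} := by exact_mod_cast h2
      exact h3.trans (by linarith [hFK _ hg])
    refine (sum_le_card_nsmul _ _ _ e4).trans ?_
    rw [nsmul_eq_mul, card_product, hEc]
    push_cast
    rw [sq]
  have hP : β * (n : ℝ) ^ 2 ≤ prs D E := by
    have h2 := hN E hEΓ (by omega)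
    rwa [hEc] at h2
  have hn0 : (0 : ℝ) < (n : ℝ) ^ 2 := by
    have : (0 : ℝ) < n := by exact_mod_cast (by omega : 0 < n)
    positivity
  have hδn : δ * (n ^ 2 + 1) = η := by
    rw [hδ]
    field_simp
  rw [← ha]
  by_cases hle : (#F : ℝ) ≤ n ^ 2
  · -- impossible or trivial
    have h2 : (n : ℝ) ^ 2 ≤ n ^ 2 * (δ * #F) := by nlinarith
    have h3 : (β - η) * #F ≤ 0 ∨ 0 < β - η := by
      rcases le_or_gt (β - η) 0 with h | h
      · exact Or.inl (mul_nonpos_of_nonpos_of_nonneg h (Nat.cast_nonneg _))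
      · exact Or.inr h
    rcases h3 with h3 | h3
    · exact h3.trans (Nat.cast_nonneg _)
    · exfalso
      -- `n² δ ≤ η < β ≤ 1` and `1 ≤ δ #F ≤ δ n²`
      have h4 : δ * #F ≤ δ * n ^ 2 := mul_le_mul_of_nonneg_left hle hδ0.le
      nlinarith
  · push Not at hle
    have h2 : β * (n : ℝ) ^ 2 * (#F - n ^ 2) ≤ n ^ 2 * (a + δ * #F) :=
      (mul_le_mul_of_nonneg_right hP (by linarith)).trans (hlow.trans hup)
    have h3 : β * (#F - n ^ 2) ≤ a + δ * #F := by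
      have h4 : (n : ℝ) ^ 2 * (β * (#F - n ^ 2)) ≤ n ^ 2 * (a + δ * #F) := by linarith
      exact le_of_mul_le_mul_left h4 hn0
    have h4 : β * (n : ℝ) ^ 2 ≤ (n : ℝ) ^ 2 * (δ * #F) := by
      have h5 : β * (n : ℝ) ^ 2 ≤ 1 * (n : ℝ) ^ 2 := mul_le_mul_of_nonneg_right hβ1 hn0.le
      nlinarith
    have h5 : η * #F = δ * #F * (n ^ 2) + δ * #F := by
      rw [← hδn]
      ring
    nlinarith

end Pool.Agent.IT
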