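import Pool.Agent.helper99.IT.FAM
import Pool.Agent.helper99.IT.DEN
import Pool.Agent.helper38.AT.All

/-! Project EveryCentre (MP_bf63dc_nt): a third of all cases with centre `z`. -/

set_option autoImplicit false

namespace Pool.Agent.IT

open Finset Pool.Agent.AT

/-- the true ratios `r ≠ 1` -/
def Tz (z : ℚ) (r : ℚˣ) : Prop := r ≠ 1 ∧ QuotZ z (r : ℚ)

theorem Tz_inv {z : ℚ} (r : ℚˣ) (h : Tz z r) : Tz z r⁻¹ := by
  obtain ⟨h1, h2⟩ := h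
  refine ⟨inv_ne_one.2 h1, ?_⟩
  have hr : (r : ℚ) ≠ 0 := r.ne_zero
  refine Set.Infinite.mono ?_ (h2.image (f := Prod.swap) (Prod.swap_injective.injOn))
  rintro _ ⟨pq, ⟨h3, h4, h5⟩, rfl⟩
  refine ⟨h4, h3, ?_⟩
  simp only [Prod.fst_swap, Prod.snd_swap]
  rw [h5, Units.val_inv_eq_inv_val]
  field_simp

theorem Pair_QuotZ {z : ℚ} {v : ℤ} {s t : ℕ} {h k : ℤ} (hs : 0 < s) (ht : 0 < t) (eh : (z.den : ℤ) * h = z.num + s * v)
    (ek : (z.den : ℤ) * k = z.num + t * v) (hP : Pair (s, h) (t, k)) : QuotZ z ((s : ℚ) / t) := by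
  obtain ⟨d, hd⟩ : ∃ d : ℕ, d = Nat.gcd s t := ⟨_, rfl⟩
  have hinf : {pq : ℕ × ℕ | pq.1.Prime ∧ pq.2.Prime ∧ ((t / d : ℕ) : ℤ) * pq.1 - (s / d : ℕ) * pq.2 = ((t : ℤ) * h - s * k) / d}.Infinite := by
    unfold Pair Pool.Agent.helper85.FC.TrueCase at hP
    rw [hd]
    exact hP.2.2.2.2.2.2.2
  have hd0 : 0 < d := by rw [hd]; exact Nat.gcd_pos_of_pos_left _ hs
  obtain ⟨s', hs'⟩ : d ∣ s := by rw [hd]; exact Nat.gcd_dvd_left _ _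
  obtain ⟨t', ht'⟩ : d ∣ t := by rw [hd]; exact Nat.gcd_dvd_right _ _
  have e1 : s / d = s' := by rw [hs']; exact Nat.mul_div_cancel_left _ hd0
  have e2 : t / d = t' := by rw [ht']; exact Nat.mul_div_cancel_left _ hd0
  have e3 : ((t : ℤ) * h - s * k) / d = t' * h - s' * k := by
    rw [hs', ht']
    push_cast
    have e : (d : ℤ) * t' * h - d * s' * k = d * (t' * h - s' * k) := by ring
    rw [e]
    exact Int.mul_ediv_cancel_left _ (by exact_mod_cast hd0.ne')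
  rw [e1, e2, e3] at hinf
  refine hinf.mono ?_
  rintro ⟨p, q⟩ ⟨hp, hq, h1⟩
  refine ⟨hp, hq, ?_⟩
  simp only at h1 ⊢
  have hz : z * z.den = z.num := Rat.mul_den_eq_num z
  have hm : (z.den : ℚ) ≠ 0 := by exact_mod_cast z.den_pos.ne'
  have eh' : (z.den : ℚ) * h = z.num + s * v := by exact_mod_cast congrArg (Int.cast : ℤ → ℚ) eh
  have ek' : (z.den : ℚ) * k = z.num + t * v := by exact_mod_cast congrArg (Int.cast : ℤ → ℚ) ek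
  have h2 : (t' : ℚ) * p - s' * q = t' * h - s' * k := by exact_mod_cast congrArg (Int.cast : ℤ → ℚ) h1
  have hs2 : (s : ℚ) = d * s' := by exact_mod_cast hs'
  have ht2 : (t : ℚ) = d * t' := by exact_mod_cast ht'
  have h3 : (t : ℚ) * p - s * q = t * h - s * k := by
    rw [hs2, ht2]
    calc (d : ℚ) * t' * p - d * s' * q = d * (t' * p - s' * q) := by ring
      _ = _ := by rw [h2]; ring
  have ht0 : (t : ℚ) ≠ 0 := by exact_mod_cast ht.ne'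
  have h4 : (z.den : ℚ) * ((t : ℚ) * ((p : ℚ) - z)) = z.den * ((s : ℚ) * ((q : ℚ) - z)) := by
    have e4 : (z.den : ℚ) * ((t : ℚ) * ((p : ℚ) - z)) - z.den * ((s : ℚ) * ((q : ℚ) - z)) =
        z.den * (t * p - s * q) - (z * z.den) * (t - s) := by ring
    have e5 : (z.den : ℚ) * (t * p - s * q) = t * (z.den * h) - s * (z.den * k) := by rw [h3]; ring
    have e6 : (z.den : ℚ) * ((t : ℚ) * ((p : ℚ) - z)) - z.den * ((s : ℚ) * ((q : ℚ) - z)) = 0 := by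
      rw [e4, e5, eh', ek', hz]
      ring
    linarith
  have h5 := mul_left_cancel₀ hm h4
  rw [div_mul_eq_mul_div, eq_div_iff ht0]
  linarith

theorem Pair_ne {f g : ℕ × ℤ} (h : Pair f g) : f ≠ g := by
  rintro rfl
  unfold Pair Pool.Agent.helper85.FC.TrueCase at h
  apply h.2.2.1
  rw [sub_self, Int.zero_ediv]

open Classical in
theorem FAM3 (hTHP : ∃ C δ : ℝ, 0 < C ∧ 0 < δ ∧ ∀ V : Finset (ℕ × ℤ),
      (∀ f ∈ V, 0 < f.1 ∧ IsCoprime (f.1 : ℤ) f.2 ∧ IsCoprime (6 : ℤ) f.2) →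
      1 / 3 * (#V : ℝ) ^ 2 - C * (#V : ℝ) ^ (2 - δ) ≤ #{p ∈ V ×ˢ V | Pair p.1 p.2}) :
    ∃ C δ : ℝ, 0 < C ∧ 0 < δ ∧ ∀ z : ℚ, ∀ E : Finset ℚˣ, (∀ x ∈ E, Fam z (x : ℚ)) →
      1 / 3 * (#E : ℝ) ^ 2 - C * (#E : ℝ) ^ (2 - δ) ≤ prs (Tz z) E := by
  obtain ⟨C, δ, hC, hδ, H⟩ := hTHP
  refine ⟨C, δ, hC, hδ, fun z E hE => ?_⟩
  obtain ⟨U, s, hU0, cU, hs⟩ := Fam_clear z E (fun x => (x : ℚ)) hE
  obtain ⟨v, hv⟩ := Fam_v z U cU
  have hex : ∀ x : ℚˣ, ∃ k : ℤ, x ∈ E → (z.den : ℤ) * k = z.num + s x * v ∧ IsCoprime (s x : ℤ) k ∧ IsCoprime (6 : ℤ) k := by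
    intro x
    by_cases hx : x ∈ E
    · obtain ⟨k, hk⟩ := hv (s x) (hs x hx).2.2.1 (hs x hx).2.2.2
      exact ⟨k, fun _ => hk⟩
    · exact ⟨0, fun h => absurd h hx⟩
  choose κ hκ using hex
  obtain ⟨φ, hφ⟩ : ∃ φ : ℚˣ → ℕ × ℤ, ∀ x, φ x = (s x, κ x) := ⟨_, fun _ => rfl⟩
  have hinj : Set.InjOn φ (E : Set ℚˣ) := by
    intro x hx y hy hxy
    rw [hφ, hφ, Prod.mk.injEq] at hxy
    have h1 : (U : ℚ) * x = U * y := by
      rw [← (hs x hx).1, ← (hs y hy).1, hxy.1]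
    exact Units.ext (mul_left_cancel₀ (by exact_mod_cast hU0.ne' : (U : ℚ) ≠ 0) h1)
  have hc : #(E.image φ) = #E := card_image_of_injOn hinj
  have h1 := H (E.image φ) (by
    intro f hf
    obtain ⟨x, hx, rfl⟩ := mem_image.1 hf
    rw [hφ]
    exact ⟨(hs x hx).2.1, (hκ x hx).2.1, (hκ x hx).2.2⟩)
  rw [hc] at h1
  refine h1.trans ?_
  unfold prs
  refine Nat.cast_le.2 ?_
  have hsub : {p ∈ (E.image φ) ×ˢ (E.image φ) | Pair p.1 p.2} ⊆ ({p ∈ E ×ˢ E | Tz z (p.1 / p.2)}).image (fun p => (φ p.1, φ p.2)) := by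
    rintro ⟨f, g⟩ hp
    obtain ⟨h2, h3⟩ := mem_filter.1 hp
    obtain ⟨h4, h5⟩ := mem_product.1 h2
    obtain ⟨x, hx, h6⟩ := mem_image.1 h4
    obtain ⟨y, hy, h7⟩ := mem_image.1 h5
    simp only at h3 h6 h7
    subst h6
    subst h7
    refine mem_image.2 ⟨(x, y), mem_filter.2 ⟨mem_product.2 ⟨hx, hy⟩, ?_, ?_⟩, rfl⟩
    · simp only
      intro h8
      rw [div_eq_one] at h8
      rw [h8] at h3
      exact Pair_ne h3 rfl
    · simp only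
      rw [hφ, hφ] at h3
      have h8 := Pair_QuotZ (hs x hx).2.1 (hs y hy).2.1 (hκ x hx).1 (hκ y hy).1 h3
      have h9 : ((s x : ℕ) : ℚ) / (s y : ℕ) = ((x / y : ℚˣ) : ℚ) := by
        rw [(hs x hx).1, (hs y hy).1, Units.val_div_eq_div_val]
        exact mul_div_mul_left _ _ (by exact_mod_cast hU0.ne')
      rw [h9] at h8
      exact h8
  exact (card_le_card hsub).trans card_image_le

theorem FAM3_all : ∃ C δ : ℝ, 0 < C ∧ 0 < δ ∧ ∀ z : ℚ, ∀ E : Finset ℚˣ, (∀ x ∈ E, Fam z (x : ℚ)) →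
      1 / 3 * (#E : ℝ) ^ 2 - C * (#E : ℝ) ^ (2 - δ) ≤ prs (Tz z) E := by
  classical
  refine FAM3 ?_
  obtain ⟨C, δ, hC, hδ, H⟩ := THP_all QPc_all
  refine ⟨C, δ, hC, hδ, fun V hV => ?_⟩
  refine (H V hV).trans (le_of_eq ?_)
  congr 2

/-- the power `n^(2-δ)` is small -/
theorem pow_small (C δ η : ℝ) (hδ : 0 < δ) (hη : 0 < η) : ∃ N : ℕ, ∀ n : ℕ, N ≤ n → C * (n : ℝ) ^ (2 - δ) ≤ η * (n : ℝ) ^ 2 := by
  have ht : Filter.Tendsto (fun L : ℕ => ((L : ℝ)) ^ δ) Filter.atTop Filter.atTop :=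
    (tendsto_rpow_atTop hδ).comp tendsto_natCast_atTop_atTop
  obtain ⟨L₀, hL₀⟩ := Filter.eventually_atTop.1 (ht.eventually_gt_atTop (C / η))
  refine ⟨max L₀ 1, fun n hn => ?_⟩
  have h1 := hL₀ n ((le_max_left _ _).trans hn)
  have hn0 : (0 : ℝ) < n := by exact_mod_cast (lt_of_lt_of_le one_pos ((le_max_right _ _).trans hn))
  rw [div_lt_iff₀ hη] at h1
  have h2 : (n : ℝ) ^ (2 - δ) * (n : ℝ) ^ δ = (n : ℝ) ^ 2 := by
    rw [← Real.rpow_add hn0, sub_add_cancel, Real.rpow_two]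
  have h3 : 0 < (n : ℝ) ^ (2 - δ) := Real.rpow_pos_of_pos hn0 _
  calc C * (n : ℝ) ^ (2 - δ) ≤ ((n : ℝ) ^ δ * η) * (n : ℝ) ^ (2 - δ) := mul_le_mul_of_nonneg_right h1.le h3.le
    _ = η * ((n : ℝ) ^ (2 - δ) * (n : ℝ) ^ δ) := by ring
    _ = _ := by rw [h2]

open Classical in
theorem CEN : ∀ z : ℚ, ∀ Γ : Subgroup ℚˣ, (∀ r ∈ Γ, Fam z (r : ℚ)) → (∃ r ∈ Γ, r ≠ 1) → ∀ ε : ℝ, 0 < ε →
    ∃ K : Finset ℚˣ, (∀ g ∈ K, g ∈ Γ) ∧ ∃ δ : ℝ, 0 < δ ∧ ∀ F : Finset ℚˣ, (∀ x ∈ F, x ∈ Γ) →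
      (∀ g ∈ K, (#{x ∈ F | x * g ∉ F} : ℝ) ≤ δ * #F) → (1 / 3 - ε) * #F ≤ #{x ∈ F | Tz z x} := by
  intro z Γ hΓ hne ε hε
  obtain ⟨C, δ, hC, hδ, H⟩ := FAM3_all
  obtain ⟨N, hN⟩ := pow_small C δ (ε / 2) hδ (by linarith)
  obtain ⟨K, hK, δ', hδ', hF⟩ := DENS Γ (Tz z) (fun x => Tz_inv x) (fun h => h.1 rfl) (by
    intro x hx hx1 n hn h
    have h1 : (0 : ℚ) < x := (hΓ x hx).pos
    have h2 : ((x : ℚ)) ^ n = 1 := by rw [← Units.val_pow_eq_pow_val, h, Units.val_one]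
    have h3 : (x : ℚ) = 1 := (pow_eq_one_iff_of_nonneg h1.le hn.ne').1 h2
    exact hx1 (Units.ext h3)) hne (1 / 3 - ε / 2) (by linarith) N (by
    intro E hE hEN
    have h1 := H z E fun x hx => hΓ x (hE x hx)
    have h2 := hN (#E) hEN
    nlinarith) (ε / 2) (by linarith)
  refine ⟨K, hK, δ', hδ', fun F hF1 hF2 => ?_⟩
  have h1 := hF F hF1 (fun g hg => by
    refine le_trans (le_of_eq ?_) (hF2 g hg)
    congr 2
    ext x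
    simp only [mem_filter])
  have e : (1 / 3 - ε / 2 - ε / 2 : ℝ) = 1 / 3 - ε := by ring
  rwa [e] at h1

end Pool.Agent.IT
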