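import Mathlib.Algebra.Group.Subgroup.Basic
import Mathlib.Data.Finset.Card
import Mathlib.Data.Real.Basic
import Mathlib.Algebra.Order.BigOperators.Group.Finset
import Mathlib.Data.ZMod.Basic
import Mathlib.Tactic

/-! Project EveryCentre (MP_bf63dc_nt): quadruples of elements in two of three classes: a third in the sense of lower Banach density in a commutative group.

Take the largest `r ≤ 3` such that some large set has a positive proportion of complete `r`-tuples (joined: the quotient is not in `D`). Then the points `t^v y`, `v = ± 1`, cannot be joined to all the points of such an `r`-tuple,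
except for a small proportion of the `t`. (The argument of helper72 in `Pool/Agent/helper72/MM/O2.lean`, for groups.) -/

set_option autoImplicit false

namespace Pool.Agent.IT

open Finset

open Classical in
/-- the `r`-tuples of elements of `E` no quotient of which is in `D` -/
noncomputable def KP {G : Type} [CommGroup G] (D : G → Prop) (r : ℕ) (E : Finset G) : Finset (Fin r → G) :=
  {t ∈ Fintype.piFinset (fun _ : Fin r => E) | ∀ i j, i ≠ j → ¬ D (t i / t j)}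

open Classical in
/-- the elements of `F` of class `j` in `D` -/
noncomputable def Dg {G : Type} (D : G → Prop) (c : G → ZMod 3) (F : Finset G) (j : ZMod 3) : ℕ := #{x ∈ F | c x = j ∧ D x}

open Classical in
theorem Dg_sum {G : Type} (D : G → Prop) (c : G → ZMod 3) (F : Finset G) : Dg D c F 0 + Dg D c F 1 + Dg D c F (-1) ≤ #{x ∈ F | D x} := by
  unfold Dg
  rw [← card_union_of_disjoint, ← card_union_of_disjoint]
  · refine card_le_card fun m hm => ?_
    rw [mem_union, mem_union, mem_filter, mem_filter, mem_filter] at hm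
    rw [mem_filter]
    rcases hm with (h | h) | h
    · exact ⟨h.1, h.2.2⟩
    · exact ⟨h.1, h.2.2⟩
    · exact ⟨h.1, h.2.2⟩
  · rw [disjoint_left]
    intro m h1 h2
    rw [mem_union, mem_filter, mem_filter] at h1
    rw [mem_filter] at h2
    rcases h1 with h | h
    · have e1 := h.2.1
      have e2 := h2.2.1
      rw [e1] at e2
      exact absurd e2 (by decide)
    · have e1 := h.2.1
      have e2 := h2.2.1
      rw [e1] at e2
      exact absurd e2 (by decide)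
  · rw [disjoint_left]
    intro m h1 h2
    rw [mem_filter] at h1 h2
    have e1 := h1.2.1
    have e2 := h2.2.1
    rw [e1] at e2
    exact absurd e2 (by decide)

theorem pow_inj_of {G : Type} [CommGroup G] (Γ : Subgroup G) (htf : ∀ x ∈ Γ, x ≠ 1 → ∀ n : ℕ, 0 < n → x ^ n ≠ 1) (g : G) (hg : g ∈ Γ) (hg1 : g ≠ 1) :
    Function.Injective fun i : ℕ => g ^ i := by
  have key : ∀ i j : ℕ, i < j → g ^ i ≠ g ^ j := by
    intro i j hij h
    have h2 : g ^ (j - i) = 1 := by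
      have h3 : g ^ i * g ^ (j - i) = g ^ i * 1 := by
        rw [← pow_add, Nat.add_sub_cancel' hij.le, ← h, mul_one]
      exact mul_left_cancel h3
    exact htf g hg hg1 _ (by omega) h2
  intro i j h
  rcases lt_trichotomy i j with h2 | h2 | h2
  · exact absurd h (key i j h2)
  · exact h2
  · exact absurd h.symm (key j i h2)

open Classical in
/-- sets with small boundary are large -/
theorem fol_big {G : Type} [CommGroup G] (Γ : Subgroup G) (htf : ∀ x ∈ Γ, x ≠ 1 → ∀ n : ℕ, 0 < n → x ^ n ≠ 1) (g : G) (hg : g ∈ Γ) (hg1 : g ≠ 1)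
    (F : Finset G) (hF : F.Nonempty) (δ : ℝ) (h : (#{x ∈ F | x * g ∉ F} : ℝ) ≤ δ * #F) : 1 ≤ δ * #F := by
  by_contra hlt
  push Not at hlt
  have h2 : #{x ∈ F | x * g ∉ F} = 0 := by
    have h3 := h.trans_lt hlt
    have h4 : #{x ∈ F | x * g ∉ F} < 1 := by exact_mod_cast h3
    omega
  have h3 : ∀ x ∈ F, x * g ∈ F := by
    intro x hx
    by_contra h4
    have h5 : x ∈ {x ∈ F | x * g ∉ F} := mem_filter.2 ⟨hx, h4⟩
    rw [card_eq_zero] at h2
    rw [h2] at h5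
    exact notMem_empty _ h5
  obtain ⟨x, hx⟩ := hF
  have h4 : ∀ i : ℕ, x * g ^ i ∈ F := by
    intro i
    induction i with
    | zero => simpa using hx
    | succ i ih =>
      rw [pow_succ, ← mul_assoc]
      exact h3 _ ih
  have h5 : Function.Injective fun i : ℕ => x * g ^ i := by
    intro i j h
    exact pow_inj_of Γ htf g hg hg1 (mul_left_cancel h)
  have h6 := card_le_card (s := (range (#F + 1)).image fun i : ℕ => x * g ^ i) (t := F) (by
    intro y hy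
    obtain ⟨i, -, rfl⟩ := mem_image.1 hy
    exact h4 i)
  rw [card_image_of_injective _ h5, card_range] at h6
  omega

open Classical in
theorem stepG {G : Type} [CommGroup G] (Γ : Subgroup G) (D : G → Prop) (hs : ∀ x, D x → D x⁻¹) (c : G → ZMod 3)
    (hc : ∀ x ∈ Γ, ∀ y ∈ Γ, c (x * y) = c x + c y)
    (htf : ∀ x ∈ Γ, x ≠ 1 → ∀ n : ℕ, 0 < n → x ^ n ≠ 1) (g₀ : G) (hg₀ : g₀ ∈ Γ) (hg₀c : c g₀ = 1)
    (r N : ℕ) (κ ρ ε : ℝ) (hρ : 0 < ρ) (hε : 0 < ε) (hκρ : 4 * 2 ^ (r + 1) * κ ≤ ε / 3 * ρ)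
    (hP : ∀ E : Finset G, (∀ x ∈ E, x ∈ Γ ∧ (c x = 0 ∨ c x = 1)) → N ≤ #E → (#(KP D (r + 1) E) : ℝ) ≤ κ * (#E : ℝ) ^ (r + 1))
    (E : Finset G) (hE : ∀ x ∈ E, x ∈ Γ ∧ (c x = 0 ∨ c x = 1)) (hEN : N ≤ #E) (hE0 : E.Nonempty) (hK : ρ * (#E : ℝ) ^ r ≤ #(KP D r E)) :
    ∃ K : Finset G, (∀ g ∈ K, g ∈ Γ) ∧ ∃ δ : ℝ, 0 < δ ∧ ∀ F : Finset G, (∀ x ∈ F, x ∈ Γ) → F.Nonempty →
      (∀ g ∈ K, (#{x ∈ F | x * g ∉ F} : ℝ) ≤ δ * #F) → ∃ τ : Fin r → ZMod 3, (∀ i, τ i = 0 ∨ τ i = 1) ∧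
      ∀ (v : ℤ) (s : ZMod 3), (v = 1 ∨ v = -1) → (s = 0 ∨ s = 1) → (1 / 3 - ε) * #F ≤ ∑ i, (Dg D c F (v * (s - τ i)) : ℝ) := by
  obtain ⟨n, hn⟩ : ∃ n, n = #E := ⟨_, rfl⟩
  rw [← hn] at hEN hK
  have hn1 : 0 < n := by rw [hn]; exact card_pos.2 hE0
  have hn0 : (0 : ℝ) < n := by exact_mod_cast hn1
  -- the class of inverses
  have hc1 : c 1 = 0 := by
    have h := hc 1 Γ.one_mem 1 Γ.one_mem
    rw [mul_one] at h
    have h2 : c 1 + 0 = c 1 + c 1 := by rw [add_zero]; exact h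
    exact (add_left_cancel h2).symm
  have hci : ∀ x ∈ Γ, c x⁻¹ = - c x := by
    intro x hx
    have h := hc x hx x⁻¹ (Γ.inv_mem hx)
    rw [mul_inv_cancel, hc1] at h
    exact (neg_eq_of_add_eq_zero_right h.symm).symm
  have hcv : ∀ x ∈ Γ, ∀ v : ℤ, (v = 1 ∨ v = -1) → c (x ^ v) = v * c x := by
    intro x hx v hv
    rcases hv with rfl | rfl
    · rw [zpow_one, Int.cast_one, one_mul]
    · rw [zpow_neg, zpow_one, hci x hx, Int.cast_neg, Int.cast_one, neg_mul, one_mul]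
  have hcp : ∀ x ∈ Γ, ∀ k : ℕ, c (x ^ k) = k * c x := by
    intro x hx k
    induction k with
    | zero => rw [pow_zero, hc1, Nat.cast_zero, zero_mul]
    | succ k ih =>
      rw [pow_succ, hc _ (Γ.pow_mem hx k) _ hx, ih, Nat.cast_succ, add_mul, one_mul]
  have hg₀1 : g₀ ≠ 1 := by
    intro h
    rw [h, hc1] at hg₀c
    exact absurd hg₀c (by decide)
  have hvv : ∀ v : ℤ, (v = 1 ∨ v = -1) → ∀ a : ZMod 3, (v : ZMod 3) * ((v : ZMod 3) * a) = a := by
    intro v hv a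
    rcases hv with rfl | rfl
    · rw [Int.cast_one, one_mul, one_mul]
    · rw [Int.cast_neg, Int.cast_one, neg_mul, neg_mul, one_mul, one_mul, neg_neg]
  -- the points `y`
  obtain ⟨Y, hY⟩ : ∃ Y : Finset G, Y = (range n).image fun l : ℕ => g₀ ^ (3 * l) := ⟨_, rfl⟩
  have hYc : #Y = n := by
    rw [hY, card_image_of_injective, card_range]
    intro i j hij
    have h := pow_inj_of Γ htf g₀ hg₀ hg₀1 hij
    omega
  have hYΓ : ∀ y ∈ Y, y ∈ Γ ∧ c y = 0 := by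
    intro y hy
    rw [hY] at hy
    obtain ⟨l, -, rfl⟩ := mem_image.1 hy
    refine ⟨Γ.pow_mem hg₀ _, ?_⟩
    rw [hcp g₀ hg₀, hg₀c, mul_one]
    have h3 : ((3 : ℕ) : ZMod 3) = 0 := by decide
    rw [Nat.cast_mul, h3, zero_mul]
  obtain ⟨K₀, hK₀⟩ : ∃ K₀ : Finset G, K₀ = (E ×ˢ Y).image fun p => p.1 / p.2 := ⟨_, rfl⟩
  have hK₀c : #K₀ ≤ n ^ 2 := by
    rw [hK₀]
    refine card_image_le.trans ?_
    rw [card_product, hYc, ← hn, sq]
  obtain ⟨K₁, hK₁⟩ : ∃ K₁ : Finset G, K₁ = K₀ ∪ K₀.image (fun x => x⁻¹) := ⟨_, rfl⟩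
  have hK₁c : #K₁ ≤ 2 * n ^ 2 := by
    rw [hK₁]
    refine (card_union_le _ _).trans ?_
    have h := card_image_le (s := K₀) (f := fun x => x⁻¹)
    omega
  obtain ⟨K, hKd⟩ : ∃ K : Finset G, K = K₁ ∪ {g₀} := ⟨_, rfl⟩
  have hK₀Γ : ∀ g ∈ K₀, g ∈ Γ := by
    intro g hg
    rw [hK₀] at hg
    obtain ⟨p, hp, rfl⟩ := mem_image.1 hg
    obtain ⟨h1, h2⟩ := mem_product.1 hp
    exact Γ.div_mem (hE _ h1).1 (hYΓ _ h2).1
  have hKΓ : ∀ g ∈ K, g ∈ Γ := by
    intro g hg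
    rw [hKd, mem_union, hK₁, mem_union, mem_singleton] at hg
    rcases hg with (h | h) | h
    · exact hK₀Γ g h
    · obtain ⟨x, hx, rfl⟩ := mem_image.1 h
      exact Γ.inv_mem (hK₀Γ x hx)
    · rw [h]
      exact hg₀
  obtain ⟨δ, hδ⟩ : ∃ δ : ℝ, δ = (2 * ε / 3) / (r + 1 + 8 * n ^ 2) := ⟨_, rfl⟩
  have hδ0 : 0 < δ := by
    rw [hδ]
    positivity
  have hδe : δ * (r + 1 + 8 * n ^ 2) = 2 * ε / 3 := by
    rw [hδ]
    field_simp
  refine ⟨K, hKΓ, δ, hδ0, fun F hF hF0 hFK => ?_⟩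
  have hbig : 1 ≤ δ * #F := fol_big Γ htf g₀ hg₀ hg₀1 F hF0 δ (hFK g₀ (by rw [hKd]; exact mem_union_right _ (mem_singleton_self _)))
  obtain ⟨VS, hVS⟩ : ∃ VS : Finset (ℤ × ZMod 3), VS = ({1, -1} : Finset ℤ) ×ˢ ({0, 1} : Finset (ZMod 3)) := ⟨_, rfl⟩
  have hVSc : #VS = 4 := by
    rw [hVS]
    rfl
  have hVSm : ∀ (v : ℤ) (s : ZMod 3), (v, s) ∈ VS ↔ (v = 1 ∨ v = -1) ∧ (s = 0 ∨ s = 1) := by
    intro v s
    rw [hVS, mem_product, mem_insert, mem_singleton, mem_insert, mem_singleton]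
  obtain ⟨Q, hQ⟩ : ∃ Q : Finset ((Fin r → G) × G), Q = KP D r E ×ˢ Y := ⟨_, rfl⟩
  have hQc : ρ * (n : ℝ) ^ (r + 1) ≤ #Q := by
    rw [hQ, card_product, hYc]
    push_cast
    calc ρ * (n : ℝ) ^ (r + 1) = (ρ * (n : ℝ) ^ r) * n := by ring
      _ ≤ _ := mul_le_mul_of_nonneg_right hK hn0.le
  have hQne : Q.Nonempty := by
    rw [← card_pos]
    have h1 : (0 : ℝ) < #Q := lt_of_lt_of_le (by positivity) hQc
    exact_mod_cast h1
  -- the count for one `t`
  have hone : ∀ (v : ℤ) (s : ZMod 3), (v = 1 ∨ v = -1) → (s = 0 ∨ s = 1) → ∀ t ∈ Γ, t ∉ K₁ → c (t ^ v) = s →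
      (#{q ∈ Q | ∀ i, ¬ D (q.1 i / (t ^ v * q.2))} : ℝ) ≤ κ * ((n + n : ℕ) : ℝ) ^ (r + 1) := by
    intro v s hv hs' t ht htK hct
    have htv : t ^ v ∈ Γ := Γ.zpow_mem ht v
    have hdis : Disjoint E (Y.image (t ^ v * ·)) := by
      rw [disjoint_left]
      intro x hx hx2
      obtain ⟨y, hy, hxy⟩ := mem_image.1 hx2
      apply htK
      have h1 : t ^ v ∈ K₀ := by
        rw [hK₀, mem_image]
        refine ⟨(x, y), mem_product.2 ⟨hx, hy⟩, ?_⟩
        simp only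
        rw [← hxy, mul_div_cancel_right]
      rw [hK₁, mem_union]
      rcases hv with rfl | rfl
      · left
        rwa [zpow_one] at h1
      · right
        rw [zpow_neg, zpow_one] at h1
        exact mem_image.2 ⟨t⁻¹, h1, inv_inv t⟩
    have hcard : #(E ∪ Y.image (t ^ v * ·)) = n + n := by
      rw [card_union_of_disjoint hdis, card_image_of_injective _ (mul_right_injective (t ^ v)), hYc, ← hn]
    have h1 := hP (E ∪ Y.image (t ^ v * ·)) (by
      intro x hx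
      rcases mem_union.1 hx with h | h
      · exact hE x h
      · obtain ⟨y, hy, rfl⟩ := mem_image.1 h
        obtain ⟨hy1, hy2⟩ := hYΓ y hy
        refine ⟨Γ.mul_mem htv hy1, ?_⟩
        rw [hc _ htv _ hy1, hy2, add_zero, hct]
        exact hs') (by omega)
    rw [hcard] at h1
    refine le_trans (Nat.cast_le.2 ?_) h1
    refine card_le_card_of_injOn (fun q => Fin.cons (t ^ v * q.2) q.1) ?_ ?_
    · rintro ⟨x, y⟩ hq
      rw [mem_coe, mem_filter, hQ, mem_product] at hq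
      obtain ⟨⟨h2, h3⟩, h4⟩ := hq
      dsimp only at h2 h3 h4
      unfold KP at h2
      rw [mem_filter, Fintype.mem_piFinset] at h2
      obtain ⟨h5, h6⟩ := h2
      rw [mem_coe]
      unfold KP
      rw [mem_filter, Fintype.mem_piFinset]
      dsimp only
      refine ⟨fun i => ?_, fun i j hij => ?_⟩
      · refine Fin.cases ?_ (fun i => ?_) i
        · rw [Fin.cons_zero]
          exact mem_union_right _ (mem_image_of_mem _ h3)
        · rw [Fin.cons_succ]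
          exact mem_union_left _ (h5 i)
      · revert hij
        refine Fin.cases ?_ (fun i => ?_) i
        · refine Fin.cases ?_ (fun j => ?_) j
          · exact fun h => absurd rfl h
          · intro _
            rw [Fin.cons_zero, Fin.cons_succ]
            intro h7
            have h8 := hs _ h7
            rw [inv_div] at h8
            exact h4 j h8
        · refine Fin.cases ?_ (fun j => ?_) j
          · intro _
            rw [Fin.cons_zero, Fin.cons_succ]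
            exact h4 i
          · intro h
            rw [Fin.cons_succ, Fin.cons_succ]
            exact h6 i j fun h7 => h (by rw [h7])
    · rintro ⟨t1, l1⟩ _ ⟨t2, l2⟩ _ h
      dsimp only at h
      have h1 := congrFun h 0
      rw [Fin.cons_zero, Fin.cons_zero] at h1
      have h2 : t1 = t2 := by
        funext i
        have h3 := congrFun h i.succ
        rw [Fin.cons_succ, Fin.cons_succ] at h3
        exact h3
      rw [h2, mul_left_cancel h1]
  -- averaging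
  obtain ⟨Φ, hΦ⟩ : ∃ Φ : (Fin r → G) × G → ℝ, Φ = fun q => ∑ vs ∈ VS, ∑ t ∈ F,
      (if c (t ^ vs.1) = vs.2 ∧ ∀ i, ¬ D (q.1 i / (t ^ vs.1 * q.2)) then (1 : ℝ) else 0) := ⟨_, rfl⟩
  have hκ0 : 0 ≤ κ * ((n + n : ℕ) : ℝ) ^ (r + 1) := by
    -- the bound for the set `E ∪ g Y`
    have h1 : ∃ t : G, t ∈ Γ ∧ t ∉ K₁ ∧ c t = 0 := by
      by_contra hcon
      push Not at hcon
      have h2 : ∀ i : ℕ, g₀ ^ (3 * i) ∈ K₁ := by
        intro i
        by_contra h3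
        refine hcon _ (Γ.pow_mem hg₀ _) h3 ?_
        rw [hcp g₀ hg₀, hg₀c, mul_one]
        have h3 : ((3 : ℕ) : ZMod 3) = 0 := by decide
        rw [Nat.cast_mul, h3, zero_mul]
      have h6 := card_le_card (s := (range (#K₁ + 1)).image fun i : ℕ => g₀ ^ (3 * i)) (t := K₁) (by
        intro y hy
        obtain ⟨i, -, rfl⟩ := mem_image.1 hy
        exact h2 i)
      rw [card_image_of_injective, card_range] at h6
      · omega
      · intro i j hij
        have h := pow_inj_of Γ htf g₀ hg₀ hg₀1 hij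
        omega
    obtain ⟨t, ht, htK, htc⟩ := h1
    exact le_trans (Nat.cast_nonneg _) (hone 1 0 (Or.inl rfl) (Or.inl rfl) t ht htK (by rw [zpow_one]; exact htc))
  have hFK₁ : (#(F ∩ K₁) : ℝ) ≤ 2 * n ^ 2 := by
    have h := (card_le_card (inter_subset_right : F ∩ K₁ ⊆ K₁)).trans hK₁c
    exact_mod_cast h
  have hsum : ∑ q ∈ Q, Φ q ≤ ∑ _q ∈ Q, (ε / 3 * #F + 8 * n ^ 2) := by
    calc ∑ q ∈ Q, Φ q = ∑ vs ∈ VS, ∑ t ∈ F, ∑ q ∈ Q,
        (if c (t ^ vs.1) = vs.2 ∧ ∀ i, ¬ D (q.1 i / (t ^ vs.1 * q.2)) then (1 : ℝ) else 0) := by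
          rw [hΦ]
          rw [sum_comm]
          exact sum_congr rfl fun vs _ => sum_comm
      _ ≤ ∑ _vs ∈ VS, ∑ t ∈ F, (κ * ((n + n : ℕ) : ℝ) ^ (r + 1) + if t ∈ K₁ then (#Q : ℝ) else 0) := by
          refine sum_le_sum fun vs hvs => sum_le_sum fun t ht => ?_
          obtain ⟨v, s⟩ := vs
          have h1 := (hVSm v s).1 hvs
          dsimp only
          by_cases h0 : t ∈ K₁
          · rw [if_pos h0]
            have h2 : ∑ q ∈ Q, (if c (t ^ v) = s ∧ ∀ i, ¬ D (q.1 i / (t ^ v * q.2)) then (1 : ℝ) else 0) ≤ ∑ _q ∈ Q, (1 : ℝ) :=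
              sum_le_sum fun q _ => by split_ifs <;> norm_num
            rw [sum_const, nsmul_eq_mul, mul_one] at h2
            linarith
          · rw [if_neg h0, add_zero]
            by_cases h2 : c (t ^ v) = s
            · refine le_trans (le_of_eq ?_) (hone v s h1.1 h1.2 t (hF t ht) h0 h2)
              rw [card_filter]
              push_cast
              refine sum_congr rfl fun q _ => ?_
              by_cases h3 : ∀ i, ¬ D (q.1 i / (t ^ v * q.2))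
              · rw [if_pos ⟨h2, h3⟩, if_pos h3]
              · rw [if_neg fun h => h3 h.2, if_neg h3]
            · refine le_trans (le_of_eq ?_) hκ0
              exact sum_eq_zero fun q _ => if_neg fun h => h2 h.1
      _ = 4 * (#F * (κ * ((n + n : ℕ) : ℝ) ^ (r + 1)) + #(F ∩ K₁) * #Q) := by
          rw [sum_const, nsmul_eq_mul, hVSc, sum_add_distrib, sum_const, nsmul_eq_mul, ← sum_filter, sum_const, nsmul_eq_mul, filter_mem_eq_inter]
          norm_num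
      _ ≤ 4 * (#F * (κ * ((n + n : ℕ) : ℝ) ^ (r + 1)) + 2 * n ^ 2 * #Q) := by
          have h := mul_le_mul_of_nonneg_right hFK₁ (Nat.cast_nonneg #Q : (0 : ℝ) ≤ #Q)
          linarith
      _ = (4 * 2 ^ (r + 1) * κ) * ((n : ℝ) ^ (r + 1) * #F) + 8 * n ^ 2 * #Q := by
          push_cast
          rw [← two_mul, mul_pow]
          ring
      _ ≤ (ε / 3 * ρ) * ((n : ℝ) ^ (r + 1) * #F) + 8 * n ^ 2 * #Q := by
          have h := mul_le_mul_of_nonneg_right hκρ (by positivity : (0 : ℝ) ≤ (n : ℝ) ^ (r + 1) * #F)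
          linarith
      _ = (ρ * (n : ℝ) ^ (r + 1)) * (ε / 3 * #F) + 8 * n ^ 2 * #Q := by ring
      _ ≤ #Q * (ε / 3 * #F) + 8 * n ^ 2 * #Q := by
          have h := mul_le_mul_of_nonneg_right hQc (by positivity : (0 : ℝ) ≤ ε / 3 * #F)
          linarith
      _ = _ := by
          rw [sum_const, nsmul_eq_mul]
          ring
  obtain ⟨⟨x, y⟩, hq, hΦq⟩ := exists_le_of_sum_le hQne hsum
  rw [hQ, mem_product] at hq
  obtain ⟨hx, hy⟩ := hq
  dsimp only at hx hy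
  unfold KP at hx
  rw [mem_filter, Fintype.mem_piFinset] at hx
  obtain ⟨hxE, -⟩ := hx
  obtain ⟨hyΓ, hyc⟩ := hYΓ y hy
  refine ⟨fun i => c (x i), fun i => (hE _ (hxE i)).2, ?_⟩
  intro v s hv hs'
  -- the number of the elements of a class
  have hcls : ∀ j : ZMod 3, (1 / 3 - δ) * #F ≤ #{t ∈ F | c t = j} := by
    have hstep : ∀ j : ZMod 3, (#{t ∈ F | c t = j} : ℝ) ≤ #{t ∈ F | c t = j + 1} + δ * #F := by
      intro j
      have h1 : {t ∈ F | c t = j} ⊆ {t ∈ F | c t = j ∧ t * g₀ ∈ F} ∪ {t ∈ F | t * g₀ ∉ F} := by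
        intro t ht
        obtain ⟨h2, h3⟩ := mem_filter.1 ht
        by_cases h4 : t * g₀ ∈ F
        · exact mem_union_left _ (mem_filter.2 ⟨h2, h3, h4⟩)
        · exact mem_union_right _ (mem_filter.2 ⟨h2, h4⟩)
      have h2 : #{t ∈ F | c t = j ∧ t * g₀ ∈ F} ≤ #{t ∈ F | c t = j + 1} := by
        refine card_le_card_of_injOn (fun t => t * g₀) ?_ (fun _ _ _ _ h => mul_right_cancel h)
        intro t ht
        obtain ⟨h3, h4, h5⟩ := mem_filter.1 (mem_coe.1 ht)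
        refine mem_coe.2 (mem_filter.2 ⟨h5, ?_⟩)
        rw [hc _ (hF t h3) _ hg₀, h4, hg₀c]
      have h3 := (card_le_card h1).trans ((card_union_le _ _).trans (Nat.add_le_add_right h2 _))
      have h4 : (#{t ∈ F | c t = j} : ℝ) ≤ #{t ∈ F | c t = j + 1} + #{t ∈ F | t * g₀ ∉ F} := by exact_mod_cast h3
      have h5 := hFK g₀ (by rw [hKd]; exact mem_union_right _ (mem_singleton_self _))
      linarith
    have htot : ∀ j : ZMod 3, (#F : ℝ) ≤ #{t ∈ F | c t = j} + #{t ∈ F | c t = j + 1} + #{t ∈ F | c t = j + 1 + 1} := by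
      intro j
      have h1 : F ⊆ {t ∈ F | c t = j} ∪ {t ∈ F | c t = j + 1} ∪ {t ∈ F | c t = j + 1 + 1} := by
        intro t ht
        rw [mem_union, mem_union, mem_filter, mem_filter, mem_filter]
        have h2 : ∀ a b : ZMod 3, a = b ∨ a = b + 1 ∨ a = b + 1 + 1 := by decide
        rcases h2 (c t) j with h | h | h
        · exact Or.inl (Or.inl ⟨ht, h⟩)
        · exact Or.inl (Or.inr ⟨ht, h⟩)
        · exact Or.inr ⟨ht, h⟩
      have h2 := (card_le_card h1).trans ((card_union_le _ _).trans (Nat.add_le_add_right (card_union_le _ _) _))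
      exact_mod_cast h2
    intro j
    have e1 : j + 1 + 1 + 1 = j := by
      have h2 : ∀ a : ZMod 3, a + 1 + 1 + 1 = a := by decide
      exact h2 j
    have h1 := hstep (j + 1)
    have h2 := hstep (j + 1 + 1)
    rw [e1] at h2
    have h3 := htot j
    linarith
  have hcl := hcls (v * s)
  have hFvs : (#{t ∈ F | c (t ^ v) = s ∧ ∀ i, ¬ D (x i / (t ^ v * y))} : ℝ) ≤ ε / 3 * #F + 8 * n ^ 2 := by
    refine le_trans ?_ hΦq
    rw [hΦ]
    dsimp only
    rw [card_filter]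
    push_cast
    have h1 := single_le_sum (f := fun vs : ℤ × ZMod 3 => ∑ t ∈ F,
      (if c (t ^ vs.1) = vs.2 ∧ ∀ i, ¬ D (x i / (t ^ vs.1 * y)) then (1 : ℝ) else 0))
      (fun vs _ => sum_nonneg fun t _ => by split_ifs <;> norm_num) ((hVSm v s).2 ⟨hv, hs'⟩)
    exact h1
  have hcov : {t ∈ F | c t = v * s} ⊆ {t ∈ F | c (t ^ v) = s ∧ ∀ i, ¬ D (x i / (t ^ v * y))} ∪
      univ.biUnion fun i : Fin r => {t ∈ F | c t = v * s ∧ D (x i / (t ^ v * y))} := by
    intro t ht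
    obtain ⟨h1, h2⟩ := mem_filter.1 ht
    rw [mem_union, mem_filter, mem_biUnion]
    by_cases h3 : ∀ i, ¬ D (x i / (t ^ v * y))
    · refine Or.inl ⟨h1, ?_, h3⟩
      rw [hcv t (hF t h1) v hv, h2, hvv v hv]
    · push Not at h3
      obtain ⟨i, hi⟩ := h3
      exact Or.inr ⟨i, mem_univ _, mem_filter.2 ⟨h1, h2, hi⟩⟩
  have hD : ∀ i : Fin r, (#{t ∈ F | c t = v * s ∧ D (x i / (t ^ v * y))} : ℝ) ≤ Dg D c F (v * (s - c (x i))) + δ * #F := by
    intro i
    obtain ⟨hxi, -⟩ := hE _ (hxE i)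
    have hxy : x i / y ∈ K₀ := by
      rw [hK₀, mem_image]
      exact ⟨(x i, y), mem_product.2 ⟨hxE i, hy⟩, rfl⟩
    obtain ⟨w, hw, hwK, hwΓ, hwc⟩ : ∃ w : G, (∀ t : G, D (x i / (t ^ v * y)) → D (t * w)) ∧ w ∈ K ∧ w ∈ Γ ∧ c w = - (v * c (x i)) := by
      rcases hv with rfl | rfl
      · refine ⟨(x i / y)⁻¹, fun t h => ?_, ?_, Γ.inv_mem (Γ.div_mem hxi hyΓ), ?_⟩
        · have h2 := hs _ h
          rw [zpow_one, inv_div] at h2
          rwa [inv_div, ← mul_div_assoc]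
        · rw [hKd, hK₁]
          exact mem_union_left _ (mem_union_right _ (mem_image_of_mem _ hxy))
        · rw [hci _ (Γ.div_mem hxi hyΓ), div_eq_mul_inv, hc _ hxi _ (Γ.inv_mem hyΓ), hci _ hyΓ, hyc, neg_zero, add_zero, Int.cast_one, one_mul]
      · refine ⟨x i / y, fun t h => ?_, ?_, Γ.div_mem hxi hyΓ, ?_⟩
        · rw [zpow_neg, zpow_one] at h
          have e : x i / (t⁻¹ * y) = t * (x i / y) := by
            rw [div_eq_mul_inv, mul_inv, inv_inv, div_eq_mul_inv]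
            exact mul_left_comm _ _ _
          rwa [e] at h
        · rw [hKd, hK₁]
          exact mem_union_left _ (mem_union_left _ hxy)
        · rw [div_eq_mul_inv, hc _ hxi _ (Γ.inv_mem hyΓ), hci _ hyΓ, hyc, neg_zero, add_zero, Int.cast_neg, Int.cast_one, neg_mul, one_mul, neg_neg]
    have h1 : {t ∈ F | c t = v * s ∧ D (x i / (t ^ v * y))} ⊆ {t ∈ F | c t = v * s ∧ D (t * w) ∧ t * w ∈ F} ∪ {t ∈ F | t * w ∉ F} := by
      intro t ht
      obtain ⟨h2, h3, h4⟩ := mem_filter.1 ht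
      by_cases h5 : t * w ∈ F
      · exact mem_union_left _ (mem_filter.2 ⟨h2, h3, hw t h4, h5⟩)
      · exact mem_union_right _ (mem_filter.2 ⟨h2, h5⟩)
    have h2 : #{t ∈ F | c t = v * s ∧ D (t * w) ∧ t * w ∈ F} ≤ Dg D c F (v * (s - c (x i))) := by
      unfold Dg
      refine card_le_card_of_injOn (fun t => t * w) ?_ (fun _ _ _ _ h => mul_right_cancel h)
      intro t ht
      obtain ⟨h3, h4, h5, h6⟩ := mem_filter.1 (mem_coe.1 ht)
      refine mem_coe.2 (mem_filter.2 ⟨h6, ?_, h5⟩)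
      rw [hc _ (hF t h3) _ hwΓ, h4, hwc]
      ring
    have h3 := (card_le_card h1).trans ((card_union_le _ _).trans (Nat.add_le_add_right h2 _))
    have h4 : (#{t ∈ F | c t = v * s ∧ D (x i / (t ^ v * y))} : ℝ) ≤ Dg D c F (v * (s - c (x i))) + #{t ∈ F | t * w ∉ F} := by exact_mod_cast h3
    linarith [hFK w hwK]
  have hcount := (card_le_card hcov).trans ((card_union_le _ _).trans (Nat.add_le_add_left card_biUnion_le _))
  have h1 : (#{t ∈ F | c t = v * s} : ℝ) ≤ #{t ∈ F | c (t ^ v) = s ∧ ∀ i, ¬ D (x i / (t ^ v * y))} +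
      ∑ i, (#{t ∈ F | c t = v * s ∧ D (x i / (t ^ v * y))} : ℝ) := by exact_mod_cast hcount
  have h2 : ∑ i, (#{t ∈ F | c t = v * s ∧ D (x i / (t ^ v * y))} : ℝ) ≤ ∑ i, (Dg D c F (v * (s - c (x i))) : ℝ) + r * (δ * #F) := by
    refine (sum_le_sum fun i _ => hD i).trans (le_of_eq ?_)
    rw [sum_add_distrib, sum_const, card_univ, Fintype.card_fin, nsmul_eq_mul]
  have h3 : 8 * (n : ℝ) ^ 2 ≤ 8 * n ^ 2 * (δ * #F) := by
    have h4 : (0 : ℝ) ≤ 8 * (n : ℝ) ^ 2 := by positivity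
    nlinarith
  have h4 : δ * (r + 1 + 8 * n ^ 2) * #F = 2 * ε / 3 * #F := by rw [hδe]
  have h5 : δ * (r + 1 + 8 * (n : ℝ) ^ 2) * #F = r * (δ * #F) + δ * #F + 8 * n ^ 2 * (δ * #F) := by ring
  linarith

open Classical in
/-- **lower Banach density at least a third** -/
theorem DENS3 {G : Type} [CommGroup G] (Γ : Subgroup G) (D : G → Prop) (hs : ∀ x, D x → D x⁻¹) (c : G → ZMod 3)
    (hc : ∀ x ∈ Γ, ∀ y ∈ Γ, c (x * y) = c x + c y)
    (htf : ∀ x ∈ Γ, x ≠ 1 → ∀ n : ℕ, 0 < n → x ^ n ≠ 1) (g₀ : G) (hg₀ : g₀ ∈ Γ) (hg₀c : c g₀ = 1)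
    (hP : ∀ κ : ℝ, 0 < κ → ∃ N : ℕ, ∀ E : Finset G, (∀ x ∈ E, x ∈ Γ ∧ (c x = 0 ∨ c x = 1)) → N ≤ #E → (#(KP D 4 E) : ℝ) ≤ κ * (#E : ℝ) ^ 4)
    (ε : ℝ) (hε : 0 < ε) :
    ∃ K : Finset G, (∀ g ∈ K, g ∈ Γ) ∧ ∃ δ : ℝ, 0 < δ ∧ ∀ F : Finset G, (∀ x ∈ F, x ∈ Γ) →
      (∀ g ∈ K, (#{x ∈ F | x * g ∉ F} : ℝ) ≤ δ * #F) → (1 / 3 - ε) * #F ≤ #{x ∈ F | D x} := by
  obtain ⟨ρ₂, hρ₂⟩ : ∃ ρ₂ : ℝ, ρ₂ = ε / 48 := ⟨_, rfl⟩
  obtain ⟨ρ₃, hρ₃⟩ : ∃ ρ₃ : ℝ, ρ₃ = ε * ρ₂ / 96 := ⟨_, rfl⟩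
  have hρ₂0 : 0 < ρ₂ := by rw [hρ₂]; positivity
  have hρ₃0 : 0 < ρ₃ := by rw [hρ₃]; positivity
  obtain ⟨N', hP'⟩ := hP (ε * ρ₃ / 192) (by positivity)
  obtain ⟨N, hN⟩ : ∃ N, N = max N' 1 := ⟨_, rfl⟩
  have hN1 : 1 ≤ N := by rw [hN]; exact le_max_right _ _
  have hP : ∀ E : Finset G, (∀ x ∈ E, x ∈ Γ ∧ (c x = 0 ∨ c x = 1)) → N ≤ #E → (#(KP D 4 E) : ℝ) ≤ (ε * ρ₃ / 192) * (#E : ℝ) ^ 4 :=
    fun E hE hEN => hP' E hE ((by rw [hN]; exact le_max_left _ _ : N' ≤ N).trans hEN)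
  have hne : ∀ E : Finset G, N ≤ #E → E.Nonempty := fun E h => card_pos.1 (by omega)
  have hD0 : ∀ (F : Finset G) (j : ZMod 3), (0 : ℝ) ≤ (Dg D c F j : ℕ) := fun F j => Nat.cast_nonneg _
  have hS : ∀ F : Finset G, ((Dg D c F 0 : ℕ) : ℝ) + (Dg D c F 1 : ℕ) + (Dg D c F (-1) : ℕ) ≤ #{x ∈ F | D x} := fun F => by
    exact_mod_cast Dg_sum D c F
  have hempty : ∀ F : Finset G, ¬ F.Nonempty → (1 / 3 - ε) * #F ≤ (#{x ∈ F | D x} : ℝ) := by
    intro F hF
    rw [not_nonempty_iff_eq_empty.1 hF]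
    simp
  have z0 : (0 : ZMod 3) - 0 = 0 := by decide
  have z1 : (0 : ZMod 3) - 1 = -1 := by decide
  have z2 : (1 : ZMod 3) - 0 = 1 := by decide
  have z3 : (1 : ZMod 3) - 1 = 0 := by decide
  by_cases h3 : ∃ E : Finset G, (∀ x ∈ E, x ∈ Γ ∧ (c x = 0 ∨ c x = 1)) ∧ N ≤ #E ∧ ρ₃ * (#E : ℝ) ^ 3 ≤ #(KP D 3 E)
  · obtain ⟨E, hE, hEN, hK⟩ := h3
    obtain ⟨K, hKΓ, δ, hδ, H⟩ := stepG Γ D hs c hc htf g₀ hg₀ hg₀c 3 N (ε * ρ₃ / 192) ρ₃ ε hρ₃0 hε (by linarith) hP E hE hEN (hne E hEN) hK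
    refine ⟨K, hKΓ, δ, hδ, fun F hF hFK => ?_⟩
    by_cases hF0 : F.Nonempty
    swap
    · exact hempty F hF0
    obtain ⟨τ, hτ, h⟩ := H F hF hF0 hFK
    have h1 := h 1 0 (Or.inl rfl) (Or.inl rfl)
    have h2 := h (-1) 0 (Or.inr rfl) (Or.inl rfl)
    have h3 := h 1 1 (Or.inl rfl) (Or.inr rfl)
    have h4 := h (-1) 1 (Or.inr rfl) (Or.inr rfl)
    have hS' := hS F
    rw [Fin.sum_univ_three] at h1 h2 h3 h4
    simp only [Int.cast_one, Int.cast_neg, one_mul, neg_mul] at h1 h2 h3 h4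
    rcases hτ 0 with e0 | e0 <;> rcases hτ 1 with e1 | e1 <;> rcases hτ 2 with e2 | e2 <;>
      rw [e0, e1, e2] at h1 h2 h3 h4 <;> simp only [z0, z1, z2, z3, neg_neg, neg_zero] at h1 h2 h3 h4 <;> linarith
  · by_cases h2 : ∃ E : Finset G, (∀ x ∈ E, x ∈ Γ ∧ (c x = 0 ∨ c x = 1)) ∧ N ≤ #E ∧ ρ₂ * (#E : ℝ) ^ 2 ≤ #(KP D 2 E)
    · obtain ⟨E, hE, hEN, hK⟩ := h2
      obtain ⟨K, hKΓ, δ, hδ, H⟩ := stepG Γ D hs c hc htf g₀ hg₀ hg₀c 2 N ρ₃ ρ₂ ε hρ₂0 hε (by linarith) (by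
        intro E hE hEN
        by_contra h4
        exact h3 ⟨E, hE, hEN, (not_le.1 h4).le⟩) E hE hEN (hne E hEN) hK
      refine ⟨K, hKΓ, δ, hδ, fun F hF hFK => ?_⟩
      by_cases hF0 : F.Nonempty
      swap
      · exact hempty F hF0
      obtain ⟨τ, hτ, h⟩ := H F hF hF0 hFK
      have h1 := h 1 0 (Or.inl rfl) (Or.inl rfl)
      have h2 := h (-1) 0 (Or.inr rfl) (Or.inl rfl)
      have h3 := h 1 1 (Or.inl rfl) (Or.inr rfl)
      have h4 := h (-1) 1 (Or.inr rfl) (Or.inr rfl)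
      have hS' := hS F
      have hD0 := hD0 F 0
      have hD1 := hD0
      have hD2 : (0 : ℝ) ≤ (Dg D c F 1 : ℕ) := Nat.cast_nonneg _
      have hD3 : (0 : ℝ) ≤ (Dg D c F (-1) : ℕ) := Nat.cast_nonneg _
      rw [Fin.sum_univ_two] at h1 h2 h3 h4
      simp only [Int.cast_one, Int.cast_neg, one_mul, neg_mul] at h1 h2 h3 h4
      rcases hτ 0 with e0 | e0 <;> rcases hτ 1 with e1 | e1 <;>
        rw [e0, e1] at h1 h2 h3 h4 <;> simp only [z0, z1, z2, z3, neg_neg, neg_zero] at h1 h2 h3 h4 <;> linarith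
    · obtain ⟨E, hE⟩ : ∃ E : Finset G, E = (range N).image fun l : ℕ => g₀ ^ (3 * l) := ⟨_, rfl⟩
      have hc1 : c 1 = 0 := by
        have h := hc 1 Γ.one_mem 1 Γ.one_mem
        rw [mul_one] at h
        have h2 : c 1 + 0 = c 1 + c 1 := by rw [add_zero]; exact h
        exact (add_left_cancel h2).symm
      have hcp : ∀ x ∈ Γ, ∀ k : ℕ, c (x ^ k) = k * c x := by
        intro x hx k
        induction k with
        | zero => rw [pow_zero, hc1, Nat.cast_zero, zero_mul]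
        | succ k ih =>
          rw [pow_succ, hc _ (Γ.pow_mem hx k) _ hx, ih, Nat.cast_succ, add_mul, one_mul]
      have hg₀1 : g₀ ≠ 1 := by
        intro h
        rw [h, hc1] at hg₀c
        exact absurd hg₀c (by decide)
      have hEc : #E = N := by
        rw [hE, card_image_of_injective, card_range]
        intro i j hij
        have h := pow_inj_of Γ htf g₀ hg₀ hg₀1 hij
        omega
      have hEΓ : ∀ x ∈ E, x ∈ Γ ∧ (c x = 0 ∨ c x = 1) := by
        intro y hy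
        rw [hE] at hy
        obtain ⟨l, -, rfl⟩ := mem_image.1 hy
        refine ⟨Γ.pow_mem hg₀ _, Or.inl ?_⟩
        rw [hcp g₀ hg₀, hg₀c, mul_one]
        have h3 : ((3 : ℕ) : ZMod 3) = 0 := by decide
        rw [Nat.cast_mul, h3, zero_mul]
      obtain ⟨K, hKΓ, δ, hδ, H⟩ := stepG Γ D hs c hc htf g₀ hg₀ hg₀c 1 N ρ₂ 1 ε one_pos hε (by rw [hρ₂]; linarith) (by
        intro E hE hEN
        by_contra h4
        exact h2 ⟨E, hE, hEN, (not_le.1 h4).le⟩) E hEΓ hEc.ge (hne E hEc.ge) (by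
          have h5 : KP D 1 E = Fintype.piFinset (fun _ : Fin 1 => E) := by
            unfold KP
            refine filter_true_of_mem fun t _ i j hij => ?_
            exact absurd (Subsingleton.elim i j) hij
          rw [h5, Fintype.card_piFinset]
          simp)
      refine ⟨K, hKΓ, δ, hδ, fun F hF hFK => ?_⟩
      by_cases hF0 : F.Nonempty
      swap
      · exact hempty F hF0
      obtain ⟨τ, hτ, h⟩ := H F hF hF0 hFK
      have h1 := h 1 0 (Or.inl rfl) (Or.inl rfl)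
      have h3 := h 1 1 (Or.inl rfl) (Or.inr rfl)
      have hS' := hS F
      have hD1 : (0 : ℝ) ≤ (Dg D c F 0 : ℕ) := Nat.cast_nonneg _
      have hD2 : (0 : ℝ) ≤ (Dg D c F 1 : ℕ) := Nat.cast_nonneg _
      have hD3 : (0 : ℝ) ≤ (Dg D c F (-1) : ℕ) := Nat.cast_nonneg _
      rw [Fin.sum_univ_one] at h1 h3
      simp only [Int.cast_one, one_mul] at h1 h3
      rcases hτ 0 with e0 | e0 <;> rw [e0] at h1 h3 <;> simp only [z0, z1, z2, z3] at h1 h3 <;> linarith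

end Pool.Agent.IT
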