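import Pool.Agent.helper99.IT.FAH
import Pool.Agent.helper99.IT.DN3
import Pool.Agent.helper99.IT.CEN

/-! Project EveryCentre (MP_bf63dc_nt): a third of ALL cases with centre `z`. -/

set_option autoImplicit false

namespace Pool.Agent.IT

open Finset Pool.Agent.AT

theorem QuotZ_inv {z : ℚ} (r : ℚˣ) (h2 : QuotZ z (r : ℚ)) : QuotZ z ((r⁻¹ : ℚˣ) : ℚ) := by
  have hr : (r : ℚ) ≠ 0 := r.ne_zero
  refine Set.Infinite.mono ?_ (h2.image (f := Prod.swap) (Prod.swap_injective.injOn))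
  rintro _ ⟨pq, ⟨h3, h4, h5⟩, rfl⟩
  refine ⟨h4, h3, ?_⟩
  simp only [Prod.fst_swap, Prod.snd_swap]
  rw [h5, Units.val_inv_eq_inv_val]
  field_simp

/-- the power `n^(-δ)` is small -/
theorem npow_small (C δ η : ℝ) (hδ : 0 < δ) (hη : 0 < η) : ∃ N : ℕ, 1 ≤ N ∧ ∀ n : ℕ, N ≤ n → C * (n : ℝ) ^ 4 * (n : ℝ) ^ (-δ) ≤ η * (n : ℝ) ^ 4 := by
  have ht : Filter.Tendsto (fun L : ℕ => ((L : ℝ)) ^ δ) Filter.atTop Filter.atTop :=
    (tendsto_rpow_atTop hδ).comp tendsto_natCast_atTop_atTop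
  obtain ⟨L₀, hL₀⟩ := Filter.eventually_atTop.1 (ht.eventually_gt_atTop (C / η))
  refine ⟨max L₀ 1, le_max_right _ _, fun n hn => ?_⟩
  have h1 := hL₀ n ((le_max_left _ _).trans hn)
  have hn0 : (0 : ℝ) < n := by exact_mod_cast (lt_of_lt_of_le one_pos ((le_max_right _ _).trans hn))
  rw [div_lt_iff₀ hη] at h1
  have h2 : (n : ℝ) ^ (-δ) * (n : ℝ) ^ δ = 1 := by
    rw [← Real.rpow_add hn0]
    simp
  have h3 : 0 < (n : ℝ) ^ (-δ) := Real.rpow_pos_of_pos hn0 _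
  calc C * (n : ℝ) ^ 4 * (n : ℝ) ^ (-δ) ≤ ((n : ℝ) ^ δ * η) * (n : ℝ) ^ 4 * (n : ℝ) ^ (-δ) := by
        refine mul_le_mul_of_nonneg_right (mul_le_mul_of_nonneg_right h1.le (by positivity)) h3.le
    _ = ((n : ℝ) ^ (-δ) * (n : ℝ) ^ δ) * (η * (n : ℝ) ^ 4) := by ring
    _ = _ := by rw [h2, one_mul]

open Classical in
theorem FAM4 (hQ : QSc) : ∀ κ : ℝ, 0 < κ → ∃ N : ℕ, 1 ≤ N ∧ ∀ (z : ℚ) (j : ℤ) (E : Finset ℚˣ), (∀ x ∈ E, Cl z 0 (x : ℚ) ∨ Cl z j (x : ℚ)) → N ≤ #E →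
      (#(KP (fun x : ℚˣ => QuotZ z (x : ℚ)) 4 E) : ℝ) ≤ κ * (#E : ℝ) ^ 4 := by
  intro κ₀ hκ₀
  obtain ⟨C, δ, hC, hδ, hδ1, H⟩ := hQ
  obtain ⟨N, hN1, hN⟩ := npow_small C δ κ₀ hδ hκ₀
  refine ⟨N, hN1, fun z j E hE hEN => ?_⟩
  obtain ⟨cl, hcl⟩ : ∃ cl : ℚˣ → ℤ, ∀ x, cl x = if Cl z 0 (x : ℚ) then 0 else j := ⟨_, fun _ => rfl⟩
  have hcl' : ∀ x ∈ E, Cl z (cl x) (x : ℚ) := by
    intro x hx
    rw [hcl]
    split_ifs with h
    · exact h
    · exact (hE x hx).resolve_left h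
  obtain ⟨U, s, hU0, cU, hs⟩ := Cl_clear z E (fun x => (x : ℚ)) cl hcl'
  obtain ⟨v, hv⟩ := Cl_v z U j cU
  have hex : ∀ x : ℚˣ, ∃ k : ℤ, x ∈ E → (z.den : ℤ) * k = z.num + s x * v ∧ IsCoprime (s x : ℤ) k ∧ IsCoprime (6 : ℤ) k := by
    intro x
    by_cases hx : x ∈ E
    · obtain ⟨-, -, h3, h4⟩ := hs x hx
      obtain ⟨k, hk⟩ := hv (s x) h3 (by
        rw [hcl] at h4
        split_ifs at h4 with h
        · left
          rwa [zero_mul, zero_mul, sub_zero] at h4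
        · right
          exact h4)
      exact ⟨k, fun _ => hk⟩
    · exact ⟨0, fun h => absurd h hx⟩
  choose κ hκ using hex
  obtain ⟨φ, hφ⟩ : ∃ φ : ℚˣ → ℕ × ℤ, ∀ x, φ x = (s x, κ x) := ⟨_, fun _ => rfl⟩
  have hinj : Set.InjOn φ (E : Set ℚˣ) := by
    intro x hx y hy hxy
    rw [hφ, hφ, Prod.mk.injEq] at hxy
    have h1 : (U : ℚ) * x = U * y := by
      rw [← (hs x hx).1, ← (hs y hy).1, hxy.1]
    exact Units.ext (mul_left_cancel₀ (by exact_mod_cast hU0.ne' : (U : ℚ) ≠ 0) h1)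
  have hc : #(E.image φ) = #E := card_image_of_injOn hinj
  have h1 := H (fun _ => E.image φ) (#E) (hN1.trans hEN) (fun _ => hc.ge) (by
    intro i f hf
    obtain ⟨x, hx, rfl⟩ := mem_image.1 hf
    rw [hφ]
    exact (hs x hx).2.1)
  have hprod : (∏ _i : Fin 4, (#(E.image φ) : ℝ)) = (#E : ℝ) ^ 4 := by
    rw [hc, prod_const, card_univ, Fintype.card_fin]
  rw [hprod] at h1
  refine le_trans ?_ (h1.trans (hN _ hEN))
  refine Nat.cast_le.2 ?_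
  refine card_le_card_of_injOn (fun t i => φ (t i)) ?_ ?_
  · intro t ht
    rw [mem_coe] at ht
    unfold KP at ht
    rw [mem_filter, Fintype.mem_piFinset] at ht
    obtain ⟨htE, ht2⟩ := ht
    rw [mem_coe, mem_filter, Fintype.mem_piFinset]
    refine ⟨fun i => mem_image_of_mem _ (htE i), ?_, ?_⟩
    · refine ADV _ fun i => ?_
      dsimp only
      rw [hφ]
      exact ⟨(hs _ (htE i)).2.1, (hκ _ (htE i)).2.1, (hκ _ (htE i)).2.2⟩
    · intro i k hik hsim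
      refine ht2 i k hik ?_
      dsimp only at hsim ⊢
      rw [hφ, hφ] at hsim
      have h8 := QuotZ_Sim (hs _ (htE i)).2.1 (hs _ (htE k)).2.1 (hκ _ (htE i)).1 (hκ _ (htE k)).1 hsim
      have h9 : ((s (t i) : ℕ) : ℚ) / (s (t k) : ℕ) = ((t i / t k : ℚˣ) : ℚ) := by
        rw [(hs _ (htE i)).1, (hs _ (htE k)).1, Units.val_div_eq_div_val]
        exact mul_div_mul_left _ _ (by exact_mod_cast hU0.ne')
      rw [h9] at h8
      exact h8
  · intro t ht t' ht' h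
    rw [mem_coe] at ht ht'
    unfold KP at ht ht'
    rw [mem_filter, Fintype.mem_piFinset] at ht ht'
    funext i
    exact hinj (ht.1 i) (ht'.1 i) (congrFun h i)

theorem Cl_Fam {z r : ℚ} (h3 : ¬ 3 ∣ z.den) {j : ℤ} (h : Cl z j r) : Fam z r := by
  obtain ⟨u, v, hu, hv, cu, cv, d, e⟩ := h
  refine ⟨u, v, hu, hv, cu, cv, ?_, e⟩
  have h1 := Cl_dvd d
  have e2 : Mo z.den = M2 z.den := by
    rw [Mo_eq, if_neg h3, mul_one]
  rw [e2]
  exact h1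

open Classical in
theorem CENH (hQ : QSc) : ∀ z : ℚ, ∀ Γ : Subgroup ℚˣ, (∀ r ∈ Γ, FamH z (r : ℚ)) → (∃ r ∈ Γ, r ≠ 1) → ∀ ε : ℝ, 0 < ε →
    ∃ K : Finset ℚˣ, (∀ g ∈ K, g ∈ Γ) ∧ ∃ δ : ℝ, 0 < δ ∧ ∀ F : Finset ℚˣ, (∀ x ∈ F, x ∈ Γ) →
      (∀ g ∈ K, (#{x ∈ F | x * g ∉ F} : ℝ) ≤ δ * #F) → (1 / 3 - ε) * #F ≤ #{x ∈ F | Tz z x} := by
  intro z Γ hΓ hne ε hε
  by_cases hall : ∀ r ∈ Γ, Fam z (r : ℚ)
  · exact CEN z Γ hall hne ε hε
  push Not at hall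
  obtain ⟨g, hg, hgF⟩ := hall
  have h3 : 3 ∣ z.den := by
    by_contra h3
    obtain ⟨j, hj⟩ := hΓ g hg
    exact hgF (Cl_Fam h3 hj)
  have hex : ∀ x : ℚˣ, ∃ k : ℤ, x ∈ Γ → Cl z k (x : ℚ) := by
    intro x
    by_cases hx : x ∈ Γ
    · obtain ⟨j, hj⟩ := hΓ x hx
      exact ⟨j, fun _ => hj⟩
    · exact ⟨0, fun h => absurd h hx⟩
  choose k hk using hex
  have hd : ∀ a b : ℤ, ((a : ZMod 3) = (b : ZMod 3)) ↔ (3 : ℤ) ∣ a - b := by
    intro a b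
    rw [ZMod.intCast_eq_intCast_iff_dvd_sub]
    constructor
    · intro h
      have e : a - b = -(b - a) := by ring
      rw [e]
      exact Dvd.dvd.neg_right (by exact_mod_cast h)
    · intro h
      have e : b - a = -(a - b) := by ring
      rw [e]
      exact Dvd.dvd.neg_right (by exact_mod_cast h)
  have hk0 : ∀ x ∈ Γ, ∀ a : ℤ, (k x : ZMod 3) = a → Cl z a (x : ℚ) := by
    intro x hx a ha
    exact (hk x hx).congr ((hd _ _).1 ha)
  have hkm : ∀ x ∈ Γ, ∀ y ∈ Γ, (k (x * y) : ZMod 3) = k x + k y := by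
    intro x hx y hy
    have h1 := (hk x hx).mul (hk y hy)
    have h2 := hk (x * y) (Γ.mul_mem hx hy)
    rw [Units.val_mul] at h2
    have h4 := Cl.unique h3 h2 h1
    have h5 := (hd (k (x * y)) (k x + k y)).2 h4
    rw [h5]
    push_cast
    rfl
  have hg0 : (k g : ZMod 3) ≠ 0 := by
    intro h
    exact hgF (Cl_zero.1 (hk0 g hg 0 (by rw [h]; simp)))
  have hsq : ∀ a : ZMod 3, a ≠ 0 → a * a = 1 := by decide
  have hz : ∀ a b : ZMod 3, b ≠ 0 → a * b = 0 → a = 0 := by decide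
  have ho : ∀ a b : ZMod 3, b ≠ 0 → a * b = 1 → a = b := by decide
  obtain ⟨c, hc⟩ : ∃ c : ℚˣ → ZMod 3, ∀ x, c x = k x * k g := ⟨_, fun _ => rfl⟩
  have htf : ∀ x ∈ Γ, x ≠ 1 → ∀ n : ℕ, 0 < n → x ^ n ≠ 1 := by
    intro x hx hx1 n hn h
    have h1 : (0 : ℚ) < x := (hΓ x hx).pos
    have h2 : ((x : ℚ)) ^ n = 1 := by rw [← Units.val_pow_eq_pow_val, h, Units.val_one]
    have h3 : (x : ℚ) = 1 := (pow_eq_one_iff_of_nonneg h1.le hn.ne').1 h2
    exact hx1 (Units.ext h3)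
  have hgc : c g = 1 := by rw [hc]; exact hsq _ hg0
  have hcm : ∀ x ∈ Γ, ∀ y ∈ Γ, c (x * y) = c x + c y := by
    intro x hx y hy
    rw [hc, hc, hc, hkm x hx y hy, add_mul]
  obtain ⟨K, hK, δ, hδ, hF⟩ := DENS3 Γ (fun x : ℚˣ => QuotZ z (x : ℚ)) (fun x => QuotZ_inv x) c hcm htf g hg hgc (by
    intro κ hκ
    obtain ⟨N, -, hN⟩ := FAM4 hQ κ hκ
    refine ⟨N, fun E hE hEN => hN z (k g) E ?_ hEN⟩
    intro x hx
    obtain ⟨hxΓ, h | h⟩ := hE x hx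
    · left
      rw [hc] at h
      refine hk0 x hxΓ 0 ?_
      rw [hz _ _ hg0 h]
      simp
    · right
      rw [hc] at h
      exact hk0 x hxΓ (k g) (ho _ _ hg0 h)) (ε / 2) (by linarith)
  have hg1 : g ≠ 1 := by
    intro h
    apply hgF
    rw [h, Units.val_one]
    exact Fam.one
  refine ⟨K ∪ {g}, ?_, min δ (ε / 2), lt_min hδ (by linarith), fun F hF1 hF2 => ?_⟩
  · intro x hx
    rcases mem_union.1 hx with h | h
    · exact hK x h
    · rw [mem_singleton.1 h]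
      exact hg
  · rcases F.eq_empty_or_nonempty with hF0 | hF0
    · rw [hF0]
      simp
    have hm1 : ∀ x ∈ K ∪ {g}, (#{y ∈ F | y * x ∉ F} : ℝ) ≤ δ * #F := fun x hx =>
      (hF2 x hx).trans (mul_le_mul_of_nonneg_right (min_le_left _ _) (Nat.cast_nonneg _))
    have h1 := hF F hF1 (fun x hx => by
      refine le_trans (le_of_eq ?_) (hm1 x (mem_union_left _ hx))
      congr 2
      ext y
      simp only [mem_filter])
    have h2 := fol_big Γ htf g hg hg1 F hF0 (ε / 2) (by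
      refine le_trans (le_of_eq ?_) ((hF2 g (mem_union_right _ (mem_singleton_self _))).trans
        (mul_le_mul_of_nonneg_right (min_le_right _ _) (Nat.cast_nonneg _)))
      congr 2
      ext y
      simp only [mem_filter])
    have h4 : F.filter (fun x : ℚˣ => QuotZ z (x : ℚ)) ⊆ F.filter (fun x : ℚˣ => Tz z x) ∪ {1} := by
      intro x hx
      obtain ⟨h5, h6⟩ := mem_filter.1 hx
      by_cases h7 : x = 1
      · rw [h7]
        exact mem_union_right _ (mem_singleton_self _)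
      · exact mem_union_left _ (mem_filter.2 ⟨h5, h7, h6⟩)
    have h5 := (card_le_card h4).trans (card_union_le _ _)
    rw [card_singleton] at h5
    have h6 : (#(F.filter (fun x : ℚˣ => QuotZ z (x : ℚ))) : ℝ) ≤ #(F.filter (fun x : ℚˣ => Tz z x)) + 1 := by exact_mod_cast h5
    have h7 : (1 / 3 - ε / 2) * (#F : ℝ) ≤ #(F.filter (fun x : ℚˣ => QuotZ z (x : ℚ))) := h1
    linarith

end Pool.Agent.IT
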