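import Pool.Agent.helper99.IT.FAM

/-! Project EveryCentre (MP_bf63dc_nt): the family of ALL cases with centre `z`, its classes modulo `3`, and the forms. -/

set_option autoImplicit false

namespace Pool.Agent.IT

open Finset Pool.Agent.AT

/-- the modulus `m`, times `2` if `2 ∣ m` -/
def M2 (m : ℕ) : ℕ := m * (if 2 ∣ m then 2 else 1)

theorem Mo_eq (m : ℕ) : Mo m = M2 m * (if 3 ∣ m then 3 else 1) := by
  unfold Mo M2
  rw [mul_assoc]

theorem M2_dvd_Mo (m : ℕ) : ((M2 m : ℕ) : ℤ) ∣ ((Mo m : ℕ) : ℤ) := by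
  rw [Mo_eq, Nat.cast_mul]
  exact Dvd.intro _ rfl

theorem Mo_dvd_sq (m : ℕ) : ((Mo m : ℕ) : ℤ) ∣ ((M2 m : ℕ) : ℤ) * ((M2 m : ℕ) : ℤ) := by
  rw [Mo_eq, Nat.cast_mul]
  refine mul_dvd_mul_left _ ?_
  split_ifs with h
  · have h1 : (3 : ℕ) ∣ M2 m := h.mul_right _
    exact_mod_cast h1
  · simp

theorem dvd_M2 (m : ℕ) : (m : ℤ) ∣ ((M2 m : ℕ) : ℤ) := by
  unfold M2
  rw [Nat.cast_mul]
  exact Dvd.intro _ rfl

/-- the ratios of the cases with centre `z`, of class `j` modulo `3` -/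
def Cl (z : ℚ) (j : ℤ) (r : ℚ) : Prop := ∃ u v : ℕ, 0 < u ∧ 0 < v ∧ IsCoprime (u : ℤ) (z.num * z.den) ∧ IsCoprime (v : ℤ) (z.num * z.den) ∧
  ((Mo z.den : ℕ) : ℤ) ∣ (u : ℤ) - v - j * (M2 z.den : ℕ) * v ∧ r = (u : ℚ) / v

theorem Cl.pos {z r : ℚ} {j : ℤ} (h : Cl z j r) : 0 < r := by
  obtain ⟨u, v, hu, hv, -, -, -, rfl⟩ := h
  positivity

theorem Cl_zero {z r : ℚ} : Cl z 0 r ↔ Fam z r := by
  unfold Cl Fam
  simp only [zero_mul, sub_zero]

theorem Cl_dvd {m : ℕ} {u v : ℕ} {j : ℤ} (h : ((Mo m : ℕ) : ℤ) ∣ (u : ℤ) - v - j * (M2 m : ℕ) * v) : ((M2 m : ℕ) : ℤ) ∣ (u : ℤ) - v := by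
  have h1 := (M2_dvd_Mo m).trans h
  have e : (u : ℤ) - v = ((u : ℤ) - v - j * (M2 m : ℕ) * v) + (M2 m : ℕ) * (j * v) := by ring
  rw [e]
  exact dvd_add h1 (Dvd.intro _ rfl)

theorem Cl.mul {z r s : ℚ} {j k : ℤ} (hr : Cl z j r) (hs : Cl z k s) : Cl z (j + k) (r * s) := by
  obtain ⟨u, v, hu, hv, cu, cv, d, rfl⟩ := hr
  obtain ⟨u', v', hu', hv', cu', cv', d', rfl⟩ := hs
  have d2 := Cl_dvd d'
  refine ⟨u * u', v * v', by positivity, by positivity, ?_, ?_, ?_, ?_⟩
  · push_cast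
    exact cu.mul_left cu'
  · push_cast
    exact cv.mul_left cv'
  · push_cast
    have e : (u : ℤ) * u' - v * v' - (j + k) * (M2 z.den : ℕ) * (v * v') = (u - v - j * (M2 z.den : ℕ) * v) * u' + v * (u' - v' - k * (M2 z.den : ℕ) * v') +
        (M2 z.den : ℕ) * (u' - v') * (j * v) := by ring
    rw [e]
    refine dvd_add (dvd_add (d.mul_right _) (d'.mul_left _)) (Dvd.dvd.mul_right ?_ _)
    exact (Mo_dvd_sq _).trans (mul_dvd_mul_left _ d2)
  · push_cast
    rw [div_mul_div_comm]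

theorem Cl.inv {z r : ℚ} {j : ℤ} (hr : Cl z j r) : Cl z (-j) r⁻¹ := by
  obtain ⟨u, v, hu, hv, cu, cv, d, rfl⟩ := hr
  refine ⟨v, u, hv, hu, cv, cu, ?_, by rw [inv_div]⟩
  have d2 := Cl_dvd d
  have e : (v : ℤ) - u - -j * (M2 z.den : ℕ) * u = -(u - v - j * (M2 z.den : ℕ) * v) + (M2 z.den : ℕ) * (u - v) * j := by ring
  rw [e]
  exact dvd_add d.neg_right (Dvd.dvd.mul_right ((Mo_dvd_sq _).trans (mul_dvd_mul_left _ d2)) _)

/-- the class modulo `3` only -/
theorem Cl.congr {z r : ℚ} {j k : ℤ} (h : (3 : ℤ) ∣ j - k) (hr : Cl z j r) : Cl z k r := by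
  obtain ⟨u, v, hu, hv, cu, cv, d, rfl⟩ := hr
  refine ⟨u, v, hu, hv, cu, cv, ?_, rfl⟩
  have e : (u : ℤ) - v - k * (M2 z.den : ℕ) * v = (u - v - j * (M2 z.den : ℕ) * v) + (j - k) * ((M2 z.den : ℕ) * v) := by ring
  rw [e]
  refine dvd_add d ?_
  rw [Mo_eq, Nat.cast_mul]
  have e2 : (j - k) * ((M2 z.den : ℕ) * (v : ℤ)) = ((M2 z.den : ℕ) : ℤ) * (j - k) * v := by ring
  rw [e2]
  refine Dvd.dvd.mul_right (mul_dvd_mul_left _ ?_) _
  split_ifs
  · exact_mod_cast h
  · simp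

/-- uniqueness of the class -/
theorem Cl.unique {z r : ℚ} (h3 : 3 ∣ z.den) {j k : ℤ} (hj : Cl z j r) (hk : Cl z k r) : (3 : ℤ) ∣ j - k := by
  obtain ⟨u, v, hu, hv, cu, cv, d, rfl⟩ := hj
  obtain ⟨u', v', hu', hv', cu', cv', d', e⟩ := hk
  have hv0 : (v : ℚ) ≠ 0 := by exact_mod_cast hv.ne'
  have hv0' : (v' : ℚ) ≠ 0 := by exact_mod_cast hv'.ne'
  have e1 : (u : ℤ) * v' = u' * v := by
    rw [div_eq_div_iff hv0 hv0'] at e
    exact_mod_cast e
  have h1 : ((Mo z.den : ℕ) : ℤ) ∣ ((M2 z.den : ℕ) : ℤ) * ((j - k) * (v * v')) := by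
    have e2 : ((M2 z.den : ℕ) : ℤ) * ((j - k) * (v * v')) = (u' - v' - k * (M2 z.den : ℕ) * v') * v - (u - v - j * (M2 z.den : ℕ) * v) * v' := by
      have e3 : (u' : ℤ) * v = u * v' := e1.symm
      have e4 : ((u' : ℤ) - v' - k * (M2 z.den : ℕ) * v') * v - (u - v - j * (M2 z.den : ℕ) * v) * v' =
          (u' : ℤ) * v - u * v' + ((M2 z.den : ℕ) : ℤ) * ((j - k) * (v * v')) := by ring
      rw [e4, e3, sub_self, zero_add]
    rw [e2]
    exact dvd_sub (d'.mul_right _) (d.mul_right _)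
  rw [Mo_eq, if_pos h3, Nat.cast_mul] at h1
  have hM : ((M2 z.den : ℕ) : ℤ) ≠ 0 := by
    unfold M2
    have h4 : 0 < z.den := z.den_pos
    have h5 : 0 < z.den * (if 2 ∣ z.den then 2 else 1) := by
      refine Nat.mul_pos h4 ?_
      split_ifs <;> norm_num
    exact_mod_cast h5.ne'
  have h2 := Int.dvd_of_mul_dvd_mul_left hM h1
  have h3' : (3 : ℤ) ∣ (z.den : ℤ) := by exact_mod_cast h3
  have nv : ¬ (3 : ℤ) ∣ (v : ℤ) := fun h => Int.prime_three.not_isUnit (cv.of_mul_right_right.isUnit_of_dvd' h h3')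
  have nv' : ¬ (3 : ℤ) ∣ (v' : ℤ) := fun h => Int.prime_three.not_isUnit (cv'.of_mul_right_right.isUnit_of_dvd' h h3')
  rcases Int.prime_three.dvd_or_dvd (by exact_mod_cast h2 : (3 : ℤ) ∣ (j - k) * (v * v')) with h | h
  · exact h
  · rcases Int.prime_three.dvd_or_dvd h with h | h
    · exact absurd h nv
    · exact absurd h nv'

theorem Cl.pow {z r : ℚ} {j : ℤ} (hr : Cl z j r) (n : ℕ) : Cl z (n * j) (r ^ n) := by
  induction n with
  | zero =>
    rw [pow_zero, Nat.cast_zero, zero_mul]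
    exact Cl_zero.2 Fam.one
  | succ n ih =>
    rw [pow_succ]
    have h := ih.mul hr
    have e : (((n + 1 : ℕ) : ℤ) * j) = n * j + j := by push_cast; ring
    rw [e]
    exact h

/-- the ratios of the cases with centre `z` -/
def FamH (z r : ℚ) : Prop := ∃ j : ℤ, Cl z j r

theorem Fam.toH {z r : ℚ} (h : Fam z r) : FamH z r := ⟨0, Cl_zero.2 h⟩

theorem FamH.pos {z r : ℚ} (h : FamH z r) : 0 < r := by
  obtain ⟨j, hj⟩ := h
  exact hj.pos

theorem FamH.mul {z r s : ℚ} (hr : FamH z r) (hs : FamH z s) : FamH z (r * s) := by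
  obtain ⟨j, hj⟩ := hr
  obtain ⟨k, hk⟩ := hs
  exact ⟨_, hj.mul hk⟩

theorem FamH.inv {z r : ℚ} (hr : FamH z r) : FamH z r⁻¹ := by
  obtain ⟨j, hj⟩ := hr
  exact ⟨_, hj.inv⟩

theorem FamH.pow {z r : ℚ} (hr : FamH z r) (n : ℕ) : FamH z (r ^ n) := by
  obtain ⟨j, hj⟩ := hr
  exact ⟨_, hj.pow n⟩

/-- the third power has class `0` -/
theorem FamH.cube {z r : ℚ} (hr : FamH z r) : Fam z (r ^ 3) := by
  obtain ⟨j, hj⟩ := hr
  have h := hj.pow 3
  refine Cl_zero.1 (h.congr ?_)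
  push_cast
  rw [sub_zero]
  exact Dvd.intro _ rfl

/-- the constant terms, for two classes -/
theorem Cl_v (z : ℚ) (U : ℕ) (j : ℤ) (cU : IsCoprime (U : ℤ) (z.num * z.den)) :
    ∃ v : ℤ, ∀ s : ℕ, IsCoprime (s : ℤ) (z.num * z.den) →
      (((Mo z.den : ℕ) : ℤ) ∣ (s : ℤ) - U ∨ ((Mo z.den : ℕ) : ℤ) ∣ (s : ℤ) - U - j * (M2 z.den : ℕ) * U) →
      ∃ h : ℤ, (z.den : ℤ) * h = z.num + s * v ∧ IsCoprime (s : ℤ) h ∧ IsCoprime (6 : ℤ) h := by
  obtain ⟨m, hm⟩ : ∃ m : ℕ, m = z.den := ⟨_, rfl⟩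
  obtain ⟨c, hc⟩ : ∃ c : ℤ, c = z.num := ⟨_, rfl⟩
  have hcm : IsCoprime c (m : ℤ) := by
    rw [hc, hm]
    exact Rat.isCoprime_num_den z
  rw [← hm, ← hc] at cU ⊢
  obtain ⟨M, hM⟩ : ∃ M : ℕ, M = Mo m := ⟨_, rfl⟩
  obtain ⟨e₂, he₂⟩ : ∃ e₂ : ℤ, e₂ = if 2 ∣ m then 2 else 1 := ⟨_, rfl⟩
  have hM2 : ((M2 m : ℕ) : ℤ) = m * e₂ := by
    unfold M2
    rw [he₂]
    push_cast
    rfl
  rw [← hM, hM2]
  have hMd : (M : ℤ) ∣ (m : ℤ) ^ 3 := by
    rw [hM]
    exact_mod_cast Mo_dvd m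
  have hmM : (m : ℤ) ∣ (M : ℤ) := by
    rw [hM]
    exact_mod_cast dvd_Mo m
  have cUM : IsCoprime (U : ℤ) (M : ℤ) := (cU.of_mul_right_right.pow_right (n := 3)).of_isCoprime_of_dvd_right hMd
  obtain ⟨a, b, hab⟩ := cUM
  obtain ⟨N, hN⟩ : ∃ N : ℤ, N = (if 2 ∣ m then 1 else 2) * (if 3 ∣ m then 1 else 3) := ⟨_, rfl⟩
  have cmN : IsCoprime (m : ℤ) N := by
    rw [hN]
    refine IsCoprime.mul_right ?_ ?_
    · split_ifs with h
      · exact isCoprime_one_right
      · exact ((Int.prime_two.coprime_iff_not_dvd).2 fun h2 => h (by exact_mod_cast h2)).symm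
    · split_ifs with h
      · exact isCoprime_one_right
      · exact ((Int.prime_three.coprime_iff_not_dvd).2 fun h2 => h (by exact_mod_cast h2)).symm
  have cMN : IsCoprime (M : ℤ) N := (cmN.pow_left (m := 3)).of_isCoprime_of_dvd_left hMd
  obtain ⟨a', b', hab'⟩ := cMN
  obtain ⟨w, hw⟩ : ∃ w : ℤ, w = 3 * (if (2 : ℤ) ∣ c then 1 else 0) + 4 * (if (3 : ℤ) ∣ c then 1 else 0) := ⟨_, rfl⟩
  obtain ⟨w₀, hw₀⟩ : ∃ w₀ : ℤ, w₀ = if (3 : ℤ) ∣ j then 1 else 3 - 4 * (j * e₂ * c) := ⟨_, rfl⟩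
  have hodd : ¬ (2 : ℤ) ∣ w₀ := by
    rw [hw₀]
    obtain ⟨y, hy⟩ : ∃ y : ℤ, y = j * e₂ * c := ⟨_, rfl⟩
    rw [← hy]
    split_ifs <;> omega
  obtain ⟨x, hx⟩ : ∃ x : ℤ, x = a * (m * w₀ - c) := ⟨_, rfl⟩
  obtain ⟨v, hv⟩ : ∃ v : ℤ, v = x + M * ((w - x) * a') := ⟨_, rfl⟩
  have hvN : N ∣ v - w := by
    refine ⟨(x - w) * b', ?_⟩
    have e : v - w = (x - w) * (1 - a' * M) := by rw [hv]; ring
    rw [e, ← hab']
    ring
  have hUv : (M : ℤ) ∣ c + U * v - m * w₀ := by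
    refine ⟨-b * (m * w₀ - c) + U * ((w - x) * a'), ?_⟩
    have e : c + (U : ℤ) * v - m * w₀ = (a * U - 1) * (m * w₀ - c) + M * (U * ((w - x) * a')) := by rw [hv, hx]; ring
    have e2 : a * (U : ℤ) - 1 = -b * M := by linarith
    rw [e, e2]
    ring
  have hm0 : (m : ℤ) ≠ 0 := by
    rw [hm]
    exact_mod_cast z.den_pos.ne'
  -- `t`: the value of `h`, up to multiples of `M / m`
  refine ⟨v, fun s cs hs => ?_⟩
  obtain ⟨t, ht, hsv⟩ : ∃ t : ℤ, (t = w₀ ∨ t = w₀ + j * e₂ * (U * v)) ∧ (M : ℤ) ∣ c + s * v - m * t := by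
    rcases hs with hs | hs
    · refine ⟨w₀, Or.inl rfl, ?_⟩
      have e : c + (s : ℤ) * v - m * w₀ = (c + U * v - m * w₀) + (s - U) * v := by ring
      rw [e]
      exact dvd_add hUv (hs.mul_right _)
    · refine ⟨w₀ + j * e₂ * (U * v), Or.inr rfl, ?_⟩
      have e : c + (s : ℤ) * v - m * (w₀ + j * e₂ * (U * v)) = (c + U * v - m * w₀) + (s - U - j * (m * e₂) * U) * v := by ring
      rw [e]
      exact dvd_add hUv (hs.mul_right _)
  obtain ⟨h, hh⟩ : (m : ℤ) ∣ c + s * v := by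
    have h1 := hmM.trans hsv
    have h2 := dvd_add h1 (Dvd.intro t rfl : (m : ℤ) ∣ m * t)
    rwa [sub_add_cancel] at h2
  refine ⟨h, hh.symm, ?_, ?_⟩
  · have h1 : IsCoprime (s : ℤ) (c + s * v) := (IsCoprime.add_mul_left_right_iff).2 cs.of_mul_right_left
    rw [hh] at h1
    exact h1.of_mul_right_right
  · have e6 : (6 : ℤ) = 2 * 3 := by norm_num
    rw [e6]
    refine IsCoprime.mul_left ?_ ?_
    · refine (Int.prime_two.coprime_iff_not_dvd).2 fun h2 => ?_
      by_cases h2m : 2 ∣ m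
      · have h3 : (m : ℤ) * 2 ∣ M := by
          rw [hM]
          exact_mod_cast two_dvd_Mo h2m
        have h4 := h3.trans hsv
        rw [hh] at h4
        have e : (m : ℤ) * h - m * t = m * (h - t) := by ring
        rw [e] at h4
        have h5 := Int.dvd_of_mul_dvd_mul_left hm0 h4
        have h6 : (2 : ℤ) ∣ t := by omega
        rcases ht with rfl | rfl
        · exact hodd h6
        · rw [he₂, if_pos h2m] at h6
          have h7 : (2 : ℤ) ∣ j * 2 * (U * v) := ⟨j * (U * v), by ring⟩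
          exact hodd ((Int.dvd_add_left h7).1 h6)
      · have h3 : (2 : ℤ) ∣ c + s * v := by rw [hh]; exact h2.mul_left _
        have h4 : (2 : ℤ) ∣ v - w := by
          refine dvd_trans ?_ hvN
          rw [hN, if_neg h2m]
          exact Dvd.intro _ rfl
        by_cases h5 : (2 : ℤ) ∣ c
        · rw [if_pos h5] at hw
          have h6 : (2 : ℤ) ∣ v - 1 := by
            split_ifs at hw <;> omega
          have h7 : (2 : ℤ) ∣ s := by
            have e : (s : ℤ) = (c + s * v) - c - s * (v - 1) := by ring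
            rw [e]
            exact dvd_sub (dvd_sub h3 h5) (h6.mul_left _)
          have h8 := cs.of_mul_right_left.isUnit_of_dvd' h7 h5
          exact Int.prime_two.not_isUnit h8
        · rw [if_neg h5] at hw
          have h6 : (2 : ℤ) ∣ v := by
            split_ifs at hw <;> omega
          exact h5 ((Int.dvd_add_left (h6.mul_left _)).1 h3)
    · refine (Int.prime_three.coprime_iff_not_dvd).2 fun h2 => ?_
      by_cases h2m : 3 ∣ m
      · have h2m' : (3 : ℤ) ∣ (m : ℤ) := by exact_mod_cast h2m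
        have h3c : ¬ (3 : ℤ) ∣ c := fun h => Int.prime_three.not_isUnit (hcm.isUnit_of_dvd' h h2m')
        have h3 : (m : ℤ) * 3 ∣ M := by
          rw [hM]
          exact_mod_cast three_dvd_Mo h2m
        have h4 := h3.trans hsv
        rw [hh] at h4
        have e : (m : ℤ) * h - m * t = m * (h - t) := by ring
        rw [e] at h4
        have h5 := Int.dvd_of_mul_dvd_mul_left hm0 h4
        have h6 : (3 : ℤ) ∣ t := by omega
        -- `U v = - c` modulo `3`
        have h7 : (3 : ℤ) ∣ U * v + c := by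
          have h8 := (h2m'.trans hmM).trans hUv
          have e2 : (U : ℤ) * v + c = (c + U * v - m * w₀) + m * w₀ := by ring
          rw [e2]
          exact dvd_add h8 (h2m'.mul_right _)
        have he3 : ¬ (3 : ℤ) ∣ e₂ := by
          rw [he₂]
          split_ifs <;> omega
        by_cases h3j : (3 : ℤ) ∣ j
        · rw [if_pos h3j] at hw₀
          rcases ht with rfl | rfl
          · rw [hw₀] at h6
            omega
          · have h8 : (3 : ℤ) ∣ j * e₂ * (U * v) := (h3j.mul_right _).mul_right _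
            have h9 := (Int.dvd_add_left h8).1 h6
            rw [hw₀] at h9
            omega
        · rw [if_neg h3j] at hw₀
          have hβ : ¬ (3 : ℤ) ∣ j * e₂ * c := by
            intro h8
            rcases Int.prime_three.dvd_or_dvd h8 with h8 | h8
            · rcases Int.prime_three.dvd_or_dvd h8 with h8 | h8
              · exact h3j h8
              · exact he3 h8
            · exact h3c h8
          rcases ht with rfl | rfl
          · rw [hw₀] at h6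
            omega
          · have h8 : (3 : ℤ) ∣ w₀ - j * e₂ * c := by
              have e2 : w₀ - j * e₂ * c = (w₀ + j * e₂ * (U * v)) - j * e₂ * (U * v + c) := by ring
              rw [e2]
              exact dvd_sub h6 (h7.mul_left _)
            rw [hw₀] at h8
            omega
      · have h3 : (3 : ℤ) ∣ c + s * v := by rw [hh]; exact h2.mul_left _
        have h4 : (3 : ℤ) ∣ v - w := by
          refine dvd_trans ?_ hvN
          rw [hN, if_neg h2m]
          exact Dvd.intro_left _ rfl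
        by_cases h5 : (3 : ℤ) ∣ c
        · rw [if_pos h5] at hw
          have h6 : (3 : ℤ) ∣ v - 1 := by
            split_ifs at hw <;> omega
          have h7 : (3 : ℤ) ∣ s := by
            have e : (s : ℤ) = (c + s * v) - c - s * (v - 1) := by ring
            rw [e]
            exact dvd_sub (dvd_sub h3 h5) (h6.mul_left _)
          have h8 := cs.of_mul_right_left.isUnit_of_dvd' h7 h5
          exact Int.prime_three.not_isUnit h8
        · rw [if_neg h5] at hw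
          have h6 : (3 : ℤ) ∣ v := by
            split_ifs at hw <;> omega
          exact h5 ((Int.dvd_add_left (h6.mul_left _)).1 h3)

/-- common denominator, for several classes -/
theorem Cl_clear (z : ℚ) {ι : Type} (T : Finset ι) (ρ : ι → ℚ) (κ : ι → ℤ) (h : ∀ i ∈ T, Cl z (κ i) (ρ i)) :
    ∃ (U : ℕ) (s : ι → ℕ), 0 < U ∧ IsCoprime (U : ℤ) (z.num * z.den) ∧ ∀ i ∈ T, (s i : ℚ) = U * ρ i ∧ 0 < s i ∧
      IsCoprime (s i : ℤ) (z.num * z.den) ∧ ((Mo z.den : ℕ) : ℤ) ∣ (s i : ℤ) - U - κ i * (M2 z.den : ℕ) * U := by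
  classical
  induction T using Finset.induction_on with
  | empty => exact ⟨1, fun _ => 1, one_pos, by simpa using isCoprime_one_left, fun i hi => absurd hi (notMem_empty i)⟩
  | insert a T ha ih =>
    obtain ⟨U, s, hU, cU, hs⟩ := ih fun i hi => h i (mem_insert_of_mem hi)
    obtain ⟨u, v, hu, hv, cu, cv, d, e⟩ := h a (mem_insert_self a T)
    have hv0 : (v : ℚ) ≠ 0 := by exact_mod_cast hv.ne'
    refine ⟨U * v, fun i => if i = a then u * U else s i * v, by positivity, ?_, ?_⟩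
    · push_cast
      exact cU.mul_left cv
    · intro i hi
      by_cases hia : i = a
      · subst hia
        simp only [if_true]
        refine ⟨?_, by positivity, ?_, ?_⟩
        · push_cast
          rw [e]
          field_simp
        · push_cast
          exact cu.mul_left cU
        · push_cast
          have e2 : (u : ℤ) * U - U * v - κ i * (M2 z.den : ℕ) * (U * v) = (u - v - κ i * (M2 z.den : ℕ) * v) * U := by ring
          rw [e2]
          exact d.mul_right _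
      · simp only [if_neg hia]
        have hiT : i ∈ T := (mem_insert.1 hi).resolve_left hia
        obtain ⟨h1, h2, h3, h4⟩ := hs i hiT
        refine ⟨?_, by positivity, ?_, ?_⟩
        · push_cast
          rw [h1]
          ring
        · push_cast
          exact h3.mul_left cv
        · push_cast
          have e2 : (s i : ℤ) * v - U * v - κ i * (M2 z.den : ℕ) * (U * v) = (s i - U - κ i * (M2 z.den : ℕ) * U) * v := by ring
          rw [e2]
          exact h4.mul_right _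

end Pool.Agent.IT
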