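import Pool.Agent.helper99.IT.SpecS
import Pool.Agent.helper52.AT.ADV

/-! Project EveryCentre (MP_bf63dc_nt): the family of all cases with centre `z`, and the forms. -/

set_option autoImplicit false

namespace Pool.Agent.IT

open Finset Pool.Agent.AT

/-- the modulus `m`, times `2` if `2 ∣ m`, times `3` if `3 ∣ m` -/
def Mo (m : ℕ) : ℕ := m * ((if 2 ∣ m then 2 else 1) * (if 3 ∣ m then 3 else 1))

/-- `r = (p - z) / (q - z)` for infinitely many pairs of primes -/
def QuotZ (z r : ℚ) : Prop :=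
  {pq : ℕ × ℕ | pq.1.Prime ∧ pq.2.Prime ∧ (pq.1 : ℚ) - z = r * ((pq.2 : ℚ) - z)}.Infinite

/-- the group of the ratios of the cases with centre `z` -/
def Fam (z r : ℚ) : Prop := ∃ u v : ℕ, 0 < u ∧ 0 < v ∧ IsCoprime (u : ℤ) (z.num * z.den) ∧ IsCoprime (v : ℤ) (z.num * z.den) ∧
  ((Mo z.den : ℕ) : ℤ) ∣ (u : ℤ) - v ∧ r = (u : ℚ) / v

theorem Fam.pos {z r : ℚ} (h : Fam z r) : 0 < r := by
  obtain ⟨u, v, hu, hv, -, -, -, rfl⟩ := h
  positivity

theorem Fam.one {z : ℚ} : Fam z 1 := ⟨1, 1, one_pos, one_pos, by simpa using isCoprime_one_left, by simpa using isCoprime_one_left, by simp, by simp⟩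

theorem Fam.mul {z r s : ℚ} (hr : Fam z r) (hs : Fam z s) : Fam z (r * s) := by
  obtain ⟨u, v, hu, hv, cu, cv, d, rfl⟩ := hr
  obtain ⟨u', v', hu', hv', cu', cv', d', rfl⟩ := hs
  refine ⟨u * u', v * v', by positivity, by positivity, ?_, ?_, ?_, ?_⟩
  · push_cast
    exact cu.mul_left cu'
  · push_cast
    exact cv.mul_left cv'
  · push_cast
    have e : (u : ℤ) * u' - v * v' = (u - v) * u' + v * (u' - v') := by ring
    rw [e]
    exact dvd_add (d.mul_right _) (d'.mul_left _)
  · push_cast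
    rw [div_mul_div_comm]

theorem Fam.inv {z r : ℚ} (hr : Fam z r) : Fam z r⁻¹ := by
  obtain ⟨u, v, hu, hv, cu, cv, d, rfl⟩ := hr
  refine ⟨v, u, hv, hu, cv, cu, ?_, by rw [inv_div]⟩
  rw [← neg_sub]
  exact d.neg_right

theorem Fam.pow {z r : ℚ} (hr : Fam z r) (n : ℕ) : Fam z (r ^ n) := by
  induction n with
  | zero => rw [pow_zero]; exact Fam.one
  | succ n ih => rw [pow_succ]; exact ih.mul hr

theorem Fam.zpow {z r : ℚ} (hr : Fam z r) (n : ℤ) : Fam z (r ^ n) := by
  obtain ⟨k, rfl | rfl⟩ := n.eq_nat_or_neg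
  · rw [zpow_natCast]; exact hr.pow k
  · rw [zpow_neg, zpow_natCast]; exact (hr.pow k).inv

theorem Fam.prod {z : ℚ} {ι : Type} (s : Finset ι) (f : ι → ℚ) (h : ∀ i ∈ s, Fam z (f i)) : Fam z (∏ i ∈ s, f i) := by
  classical
  induction s using Finset.induction_on with
  | empty => rw [prod_empty]; exact Fam.one
  | insert a s ha ih =>
    rw [prod_insert ha]
    exact (h a (mem_insert_self a s)).mul (ih fun i hi => h i (mem_insert_of_mem hi))

/-- common denominator -/
theorem Fam_clear (z : ℚ) {ι : Type} (T : Finset ι) (ρ : ι → ℚ) (h : ∀ i ∈ T, Fam z (ρ i)) :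
    ∃ (U : ℕ) (s : ι → ℕ), 0 < U ∧ IsCoprime (U : ℤ) (z.num * z.den) ∧ ∀ i ∈ T, (s i : ℚ) = U * ρ i ∧ 0 < s i ∧
      IsCoprime (s i : ℤ) (z.num * z.den) ∧ ((Mo z.den : ℕ) : ℤ) ∣ (s i : ℤ) - U := by
  classical
  induction T using Finset.induction_on with
  | empty => exact ⟨1, fun _ => 1, one_pos, by simpa using isCoprime_one_left, fun i hi => absurd hi (notMem_empty i)⟩
  | insert a T ha ih =>
    obtain ⟨U, s, hU, cU, hs⟩ := ih fun i hi => h i (mem_insert_of_mem hi)
    obtain ⟨u, v, hu, hv, cu, cv, d, e⟩ := h a (mem_insert_self a T)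
    have hv0 : (v : ℚ) ≠ 0 := by exact_mod_cast hv.ne'
    refine ⟨U * v, fun i => if i = a then u * U else s i * v, by positivity, ?_, ?_⟩
    · push_cast
      exact cU.mul_left cv
    · intro i hi
      by_cases hia : i = a
      · subst hia
        simp only [if_true]
        refine ⟨?_, by positivity, ?_, ?_⟩
        · push_cast
          rw [e]
          field_simp
        · push_cast
          exact cu.mul_left cU
        · push_cast
          have e2 : (u : ℤ) * U - U * v = (u - v) * U := by ring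
          rw [e2]
          exact d.mul_right _
      · simp only [if_neg hia]
        have hiT : i ∈ T := (mem_insert.1 hi).resolve_left hia
        obtain ⟨h1, h2, h3, h4⟩ := hs i hiT
        refine ⟨?_, by positivity, ?_, ?_⟩
        · push_cast
          rw [h1]
          ring
        · push_cast
          exact h3.mul_left cv
        · push_cast
          have e2 : (s i : ℤ) * v - U * v = (s i - U) * v := by ring
          rw [e2]
          exact h4.mul_right _

theorem Mo_dvd (m : ℕ) : Mo m ∣ m ^ 3 := by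
  unfold Mo
  have e : m ^ 3 = m * (m * m) := by ring
  rw [e]
  refine mul_dvd_mul_left m (mul_dvd_mul ?_ ?_)
  · split_ifs with h
    · exact h
    · exact one_dvd _
  · split_ifs with h
    · exact h
    · exact one_dvd _

theorem dvd_Mo (m : ℕ) : m ∣ Mo m := Dvd.intro _ rfl

theorem two_dvd_Mo {m : ℕ} (h : 2 ∣ m) : m * 2 ∣ Mo m := by
  unfold Mo
  rw [if_pos h]
  exact mul_dvd_mul_left m (Dvd.intro _ rfl)

theorem three_dvd_Mo {m : ℕ} (h : 3 ∣ m) : m * 3 ∣ Mo m := by
  unfold Mo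
  rw [if_pos h]
  exact mul_dvd_mul_left m (Dvd.intro_left _ rfl)

/-- the constant terms: there is a `v` such that for all `s` prime to `c₀ m`, congruent to `U` modulo `Mo m`, the number `h = (c₀ + s v) / m` is an integer prime to `6 s` -/
theorem Fam_v (z : ℚ) (U : ℕ) (cU : IsCoprime (U : ℤ) (z.num * z.den)) :
    ∃ v : ℤ, ∀ s : ℕ, IsCoprime (s : ℤ) (z.num * z.den) → ((Mo z.den : ℕ) : ℤ) ∣ (s : ℤ) - U →
      ∃ h : ℤ, (z.den : ℤ) * h = z.num + s * v ∧ IsCoprime (s : ℤ) h ∧ IsCoprime (6 : ℤ) h := by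
  obtain ⟨m, hm⟩ : ∃ m : ℕ, m = z.den := ⟨_, rfl⟩
  obtain ⟨c, hc⟩ : ∃ c : ℤ, c = z.num := ⟨_, rfl⟩
  rw [← hm, ← hc] at cU ⊢
  obtain ⟨M, hM⟩ : ∃ M : ℕ, M = Mo m := ⟨_, rfl⟩
  rw [← hM]
  have hMd : (M : ℤ) ∣ (m : ℤ) ^ 3 := by
    rw [hM]
    exact_mod_cast Mo_dvd m
  have hmM : (m : ℤ) ∣ (M : ℤ) := by
    rw [hM]
    exact_mod_cast dvd_Mo m
  have cUM : IsCoprime (U : ℤ) (M : ℤ) := (cU.of_mul_right_right.pow_right (n := 3)).of_isCoprime_of_dvd_right hMd
  obtain ⟨a, b, hab⟩ := cUM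
  obtain ⟨N, hN⟩ : ∃ N : ℤ, N = (if 2 ∣ m then 1 else 2) * (if 3 ∣ m then 1 else 3) := ⟨_, rfl⟩
  have cmN : IsCoprime (m : ℤ) N := by
    rw [hN]
    refine IsCoprime.mul_right ?_ ?_
    · split_ifs with h
      · exact isCoprime_one_right
      · exact ((Int.prime_two.coprime_iff_not_dvd).2 fun h2 => h (by exact_mod_cast h2)).symm
    · split_ifs with h
      · exact isCoprime_one_right
      · exact ((Int.prime_three.coprime_iff_not_dvd).2 fun h2 => h (by exact_mod_cast h2)).symm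
  have cMN : IsCoprime (M : ℤ) N := (cmN.pow_left (m := 3)).of_isCoprime_of_dvd_left hMd
  obtain ⟨a', b', hab'⟩ := cMN
  obtain ⟨w, hw⟩ : ∃ w : ℤ, w = 3 * (if (2 : ℤ) ∣ c then 1 else 0) + 4 * (if (3 : ℤ) ∣ c then 1 else 0) := ⟨_, rfl⟩
  obtain ⟨x, hx⟩ : ∃ x : ℤ, x = a * (m - c) := ⟨_, rfl⟩
  obtain ⟨v, hv⟩ : ∃ v : ℤ, v = x + M * ((w - x) * a') := ⟨_, rfl⟩
  have hvN : N ∣ v - w := by
    refine ⟨(x - w) * b', ?_⟩
    have e : v - w = (x - w) * (1 - a' * M) := by rw [hv]; ring
    rw [e, ← hab']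
    ring
  have hUv : (M : ℤ) ∣ c + U * v - m := by
    refine ⟨-b * (m - c) + U * ((w - x) * a'), ?_⟩
    have e : c + (U : ℤ) * v - m = (a * U - 1) * (m - c) + M * (U * ((w - x) * a')) := by rw [hv, hx]; ring
    have e2 : a * (U : ℤ) - 1 = -b * M := by linarith
    rw [e, e2]
    ring
  refine ⟨v, fun s cs hs => ?_⟩
  have hsv : (M : ℤ) ∣ c + s * v - m := by
    have e : c + (s : ℤ) * v - m = (c + U * v - m) + (s - U) * v := by ring
    rw [e]
    exact dvd_add hUv (hs.mul_right _)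
  obtain ⟨h, hh⟩ : (m : ℤ) ∣ c + s * v := by
    have h1 := hmM.trans hsv
    have h2 := dvd_add h1 (dvd_refl (m : ℤ))
    rwa [sub_add_cancel] at h2
  have hm0 : (m : ℤ) ≠ 0 := by
    rw [hm]
    exact_mod_cast z.den_pos.ne'
  refine ⟨h, hh.symm, ?_, ?_⟩
  · have h1 : IsCoprime (s : ℤ) (c + s * v) := (IsCoprime.add_mul_left_right_iff).2 cs.of_mul_right_left
    rw [hh] at h1
    exact h1.of_mul_right_right
  · have e6 : (6 : ℤ) = 2 * 3 := by norm_num
    rw [e6]
    refine IsCoprime.mul_left ?_ ?_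
    · refine (Int.prime_two.coprime_iff_not_dvd).2 fun h2 => ?_
      by_cases h2m : 2 ∣ m
      · have h3 : (m : ℤ) * 2 ∣ M := by
          rw [hM]
          exact_mod_cast two_dvd_Mo h2m
        have h4 := h3.trans hsv
        rw [hh] at h4
        have e : (m : ℤ) * h - m = m * (h - 1) := by ring
        rw [e] at h4
        have h5 := Int.dvd_of_mul_dvd_mul_left hm0 h4
        omega
      · have h3 : (2 : ℤ) ∣ c + s * v := by rw [hh]; exact h2.mul_left _
        have h4 : (2 : ℤ) ∣ v - w := by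
          refine dvd_trans ?_ hvN
          rw [hN, if_neg h2m]
          exact Dvd.intro _ rfl
        by_cases h5 : (2 : ℤ) ∣ c
        · rw [if_pos h5] at hw
          have h6 : (2 : ℤ) ∣ v - 1 := by
            split_ifs at hw <;> omega
          have h7 : (2 : ℤ) ∣ s := by
            have e : (s : ℤ) = (c + s * v) - c - s * (v - 1) := by ring
            rw [e]
            exact dvd_sub (dvd_sub h3 h5) (h6.mul_left _)
          have h8 := cs.of_mul_right_left.isUnit_of_dvd' h7 h5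
          exact Int.prime_two.not_isUnit h8
        · rw [if_neg h5] at hw
          have h6 : (2 : ℤ) ∣ v := by
            split_ifs at hw <;> omega
          exact h5 ((Int.dvd_add_left (h6.mul_left _)).1 h3)
    · refine (Int.prime_three.coprime_iff_not_dvd).2 fun h2 => ?_
      by_cases h2m : 3 ∣ m
      · have h3 : (m : ℤ) * 3 ∣ M := by
          rw [hM]
          exact_mod_cast three_dvd_Mo h2m
        have h4 := h3.trans hsv
        rw [hh] at h4
        have e : (m : ℤ) * h - m = m * (h - 1) := by ring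
        rw [e] at h4
        have h5 := Int.dvd_of_mul_dvd_mul_left hm0 h4
        omega
      · have h3 : (3 : ℤ) ∣ c + s * v := by rw [hh]; exact h2.mul_left _
        have h4 : (3 : ℤ) ∣ v - w := by
          refine dvd_trans ?_ hvN
          rw [hN, if_neg h2m]
          exact Dvd.intro_left _ rfl
        by_cases h5 : (3 : ℤ) ∣ c
        · rw [if_pos h5] at hw
          have h6 : (3 : ℤ) ∣ v - 1 := by
            split_ifs at hw <;> omega
          have h7 : (3 : ℤ) ∣ s := by
            have e : (s : ℤ) = (c + s * v) - c - s * (v - 1) := by ring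
            rw [e]
            exact dvd_sub (dvd_sub h3 h5) (h6.mul_left _)
          have h8 := cs.of_mul_right_left.isUnit_of_dvd' h7 h5
          exact Int.prime_three.not_isUnit h8
        · rw [if_neg h5] at hw
          have h6 : (3 : ℤ) ∣ v := by
            split_ifs at hw <;> omega
          exact h5 ((Int.dvd_add_left (h6.mul_left _)).1 h3)

theorem QuotZ_Sim {z : ℚ} {v : ℤ} {s t : ℕ} {h k : ℤ} (hs : 0 < s) (ht : 0 < t) (eh : (z.den : ℤ) * h = z.num + s * v)
    (ek : (z.den : ℤ) * k = z.num + t * v) (hS : Sim (s, h) (t, k)) : QuotZ z ((s : ℚ) / t) := by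
  have hf : {n : ℕ | (ev (s, h) n).Prime ∧ (ev (t, k) n).Prime}.Infinite := by
    rw [Set.infinite_iff_exists_gt]
    intro N
    obtain ⟨n, hn, h1, h2⟩ := hS (N + 1)
    exact ⟨n, ⟨h1, h2⟩, by omega⟩
  have hev : ∀ (u : ℕ) (l : ℤ) (n : ℕ), (ev (u, l) n).Prime → ((ev (u, l) n : ℕ) : ℤ) = u * n + l := by
    intro u l n hp
    unfold ev at hp ⊢
    simp only at hp ⊢
    refine Int.toNat_of_nonneg ?_
    by_contra hneg
    push Not at hneg
    rw [Int.toNat_of_nonpos hneg.le] at hp
    exact Nat.not_prime_zero hp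
  have hd : (z.den : ℚ) ≠ 0 := by exact_mod_cast z.den_pos.ne'
  have hz : z * z.den = z.num := Rat.mul_den_eq_num z
  have eh' : (z.den : ℚ) * h = z.num + s * v := by exact_mod_cast congrArg (Int.cast : ℤ → ℚ) eh
  have ek' : (z.den : ℚ) * k = z.num + t * v := by exact_mod_cast congrArg (Int.cast : ℤ → ℚ) ek
  refine Set.Infinite.mono (s := (fun n => (ev (s, h) n, ev (t, k) n)) '' {n : ℕ | (ev (s, h) n).Prime ∧ (ev (t, k) n).Prime}) ?_ ?_
  · rintro _ ⟨n, ⟨h1, h2⟩, rfl⟩
    refine ⟨h1, h2, ?_⟩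
    have e1 : ((ev (s, h) n : ℕ) : ℚ) = s * n + h := by exact_mod_cast congrArg (Int.cast : ℤ → ℚ) (hev s h n h1)
    have e2 : ((ev (t, k) n : ℕ) : ℚ) = t * n + k := by exact_mod_cast congrArg (Int.cast : ℤ → ℚ) (hev t k n h2)
    simp only
    rw [e1, e2]
    have ht' : (t : ℚ) ≠ 0 := by exact_mod_cast ht.ne'
    have e3 : (z.den : ℚ) * (s * n + h - z) = s * (z.den * n + v) := by
      have : (z.den : ℚ) * (s * n + h - z) = z.den * s * n + z.den * h - z * z.den := by ring
      rw [this, hz, eh']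
      ring
    have e4 : (z.den : ℚ) * (t * n + k - z) = t * (z.den * n + v) := by
      have : (z.den : ℚ) * (t * n + k - z) = z.den * t * n + z.den * k - z * z.den := by ring
      rw [this, hz, ek']
      ring
    have e5 : (z.den : ℚ) * (s * n + h - z) = z.den * ((s : ℚ) / t * (t * n + k - z)) := by
      have : (z.den : ℚ) * ((s : ℚ) / t * (t * n + k - z)) = (s : ℚ) / t * (z.den * (t * n + k - z)) := by ring
      rw [this, e4, e3]
      field_simp
    exact mul_left_cancel₀ hd e5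
  · refine hf.image ?_
    intro n hn n' hn' hnm
    simp only [Prod.mk.injEq] at hnm
    have e1 := hev s h n hn.1
    have e2 := hev s h n' hn'.1
    rw [hnm.1] at e1
    have e3 : (s : ℤ) * n = s * n' := by linarith
    have e4 := mul_left_cancel₀ (by exact_mod_cast hs.ne' : (s : ℤ) ≠ 0) e3
    exact_mod_cast e4

end Pool.Agent.IT
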