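import Pool.Agent.helper99.IT.FAH

/-! Project EveryCentre (MP_bf63dc_nt): the family in terms of the conditions of Q1. -/

set_option autoImplicit false

namespace Pool.Agent.IT

open Finset Pool.Agent.AT

/-- the arithmetic of a case with centre `z` -/
theorem FHI_data {z : ℚ} {a b : ℕ} {c : ℤ} (hc : (c : ℚ) = z * ((a : ℚ) - (b : ℤ))) (had : Ad a b c) :
    ∃ t : ℤ, (a : ℤ) - b = z.den * t ∧ c = z.num * t ∧ IsCoprime (b : ℤ) (z.num * z.den) ∧ IsCoprime (a : ℤ) (z.num * z.den) ∧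
      ((if 2 ∣ z.den then 2 else 1 : ℕ) : ℤ) ∣ t := by
  obtain ⟨ha, hb, hc0, hab, hac, hbc, hodd⟩ := had
  have hcop : IsCoprime (a : ℤ) b := Nat.isCoprime_iff_coprime.2 hab
  have hm0 : (z.den : ℤ) ≠ 0 := by exact_mod_cast z.den_pos.ne'
  have hzc : IsCoprime (z.num : ℤ) (z.den : ℤ) := Rat.isCoprime_num_den z
  have e1 : (z.den : ℤ) * c = z.num * (a - b) := by
    have h1 : (z.den : ℚ) * c = z.num * (a - b) := by
      rw [hc, ← Rat.mul_den_eq_num z]
      push_cast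
      ring
    exact_mod_cast h1
  obtain ⟨t, ht⟩ : (z.den : ℤ) ∣ (a : ℤ) - b := by
    have h1 : (z.den : ℤ) ∣ z.num * (a - b) := Dvd.intro _ e1
    exact hzc.symm.dvd_of_dvd_mul_left h1
  have hct : c = z.num * t := by
    have h1 : (z.den : ℤ) * c = z.den * (z.num * t) := by
      rw [e1, ht]
      ring
    exact mul_left_cancel₀ hm0 h1
  have hbm : IsCoprime (b : ℤ) (z.den : ℤ) := by
    have h1 : IsCoprime (b : ℤ) (a - b) := by
      have e : (a : ℤ) - b = a + b * (-1) := by ring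
      rw [e]
      exact (IsCoprime.add_mul_left_right_iff).2 hcop.symm
    exact h1.of_isCoprime_of_dvd_right (Dvd.intro _ ht.symm)
  have ham : IsCoprime (a : ℤ) (z.den : ℤ) := by
    have h1 : IsCoprime (a : ℤ) (a - b) := by
      have e : (a : ℤ) - b = -b + a * 1 := by ring
      rw [e]
      exact (IsCoprime.add_mul_left_right_iff).2 hcop.neg_right
    exact h1.of_isCoprime_of_dvd_right (Dvd.intro _ ht.symm)
  have hcd : z.num ∣ c := Dvd.intro _ hct.symm
  refine ⟨t, ht, hct, (hbc.of_isCoprime_of_dvd_right hcd).mul_right hbm, (hac.of_isCoprime_of_dvd_right hcd).mul_right ham, ?_⟩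
  split_ifs with h2m
  · -- `a`, `b` odd
    have h2m' : (2 : ℤ) ∣ (z.den : ℤ) := by exact_mod_cast h2m
    have na : ¬ (2 : ℤ) ∣ a := fun h => Int.prime_two.not_isUnit (ham.isUnit_of_dvd' h h2m')
    have nb : ¬ (2 : ℤ) ∣ b := fun h => Int.prime_two.not_isUnit (hbm.isUnit_of_dvd' h h2m')
    have nc : ¬ (2 : ℤ) ∣ z.num := fun h => Int.prime_two.not_isUnit (hzc.isUnit_of_dvd' h h2m')
    have oa : Odd a := by
      rw [← Nat.not_even_iff_odd, even_iff_two_dvd]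
      exact fun h => na (by exact_mod_cast h)
    have ob : Odd b := by
      rw [← Nat.not_even_iff_odd, even_iff_two_dvd]
      exact fun h => nb (by exact_mod_cast h)
    have ec : (2 : ℤ) ∣ c := by
      by_contra h
      rw [← even_iff_two_dvd, Int.not_even_iff_odd] at h
      exact hodd ⟨oa, ob, h⟩
    rw [hct] at ec
    exact_mod_cast (Int.prime_two.dvd_or_dvd ec).resolve_left nc
  · simp

theorem FHI_rat {r : ℚ} (hr0 : 0 < r) : ((r.num.natAbs : ℕ) : ℤ) = r.num ∧ 0 < r.num.natAbs ∧ r = (r.num.natAbs : ℚ) / (r.den : ℚ) := by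
  have hnum : 0 < r.num := Rat.num_pos.2 hr0
  have hbn : ((r.num.natAbs : ℕ) : ℤ) = r.num := Int.natAbs_of_nonneg hnum.le
  refine ⟨hbn, by omega, ?_⟩
  have h1 := Rat.num_div_den r
  have h2 := congrArg (Int.cast : ℤ → ℚ) hbn
  rw [Int.cast_natCast] at h2
  rw [← h2] at h1
  exact h1.symm

/-- with the condition at `3` -/
theorem fam_of3 {z r : ℚ} (hr0 : 0 < r) (h : r ≠ 1 → ∃ c : ℤ, (c : ℚ) = z * (r.den - r.num) ∧ Ad r.den r.num.natAbs c ∧
    ((3 : ℤ) ∣ (r.den : ℤ) - r.num → (3 : ℤ) ∣ c)) : Fam z r := by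
  by_cases hr1 : r = 1
  · rw [hr1]
    exact Fam.one
  obtain ⟨c, hc, had, h3⟩ := h hr1
  obtain ⟨hbn, hb, hrab⟩ := FHI_rat hr0
  have hzc : IsCoprime (z.num : ℤ) (z.den : ℤ) := Rat.isCoprime_num_den z
  obtain ⟨t, ht, hct, cb, ca, h2⟩ := FHI_data (z := z) (by rw [hbn]; exact hc) had
  refine ⟨r.num.natAbs, r.den, hb, r.den_pos, cb, ca, ?_, hrab⟩
  have h3' : ((if 3 ∣ z.den then 3 else 1 : ℕ) : ℤ) ∣ t := by
    split_ifs with h3m
    · have h3m' : (3 : ℤ) ∣ (z.den : ℤ) := by exact_mod_cast h3m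
      have nc : ¬ (3 : ℤ) ∣ z.num := fun h => Int.prime_three.not_isUnit (hzc.isUnit_of_dvd' h h3m')
      have h4 : (3 : ℤ) ∣ c := h3 (by rw [← hbn, ht]; exact h3m'.mul_right _)
      rw [hct] at h4
      exact_mod_cast (Int.prime_three.dvd_or_dvd h4).resolve_left nc
    · simp
  have h4 : (((if 2 ∣ z.den then 2 else 1) * (if 3 ∣ z.den then 3 else 1) : ℕ) : ℤ) ∣ t := by
    rw [Nat.cast_mul]
    refine IsCoprime.mul_dvd ?_ h2 h3'
    split_ifs
    · exact (by norm_num : IsCoprime (2 : ℤ) 3)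
    · exact isCoprime_one_right
    · exact isCoprime_one_left
    · exact isCoprime_one_left
  have e2 : ((r.num.natAbs : ℕ) : ℤ) - r.den = -(z.den * t) := by linarith
  rw [e2]
  unfold Mo
  rw [Nat.cast_mul]
  exact (mul_dvd_mul_left _ h4).neg_right

theorem famH_of {z r : ℚ} (hr0 : 0 < r) (h : r ≠ 1 → ∃ c : ℤ, (c : ℚ) = z * (r.den - r.num) ∧ Ad r.den r.num.natAbs c) : FamH z r := by
  by_cases hr1 : r = 1
  · rw [hr1]
    exact Fam.one.toH
  obtain ⟨c, hc, had⟩ := h hr1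
  obtain ⟨hbn, hb, hrab⟩ := FHI_rat hr0
  obtain ⟨t, ht, hct, cb, ca, h2⟩ := FHI_data (z := z) (by rw [hbn]; exact hc) had
  obtain ⟨t', ht'⟩ := h2
  obtain ⟨a, ha⟩ : ∃ a : ℕ, a = r.den := ⟨_, rfl⟩
  obtain ⟨b, hb'⟩ : ∃ b : ℕ, b = r.num.natAbs := ⟨_, rfl⟩
  rw [← ha, ← hb'] at ht hrab
  rw [← hb'] at cb hb
  rw [← ha] at ca
  refine ⟨-(t' * a), b, a, hb, by rw [ha]; exact r.den_pos, cb, ca, ?_, hrab⟩
  have e1 : (b : ℤ) - a = -((M2 z.den : ℕ) * t') := by
    have e2 : (b : ℤ) - a = -(z.den * t) := by linarith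
    rw [e2, ht']
    unfold M2
    push_cast
    ring
  have e2 : (b : ℤ) - a - -(t' * a) * (M2 z.den : ℕ) * a = (M2 z.den : ℕ) * (t' * ((a : ℤ) * a - 1)) := by
    rw [e1]
    ring
  rw [e2, Mo_eq, Nat.cast_mul]
  refine mul_dvd_mul_left _ ?_
  split_ifs with h3m
  · have h3m' : (3 : ℤ) ∣ (z.den : ℤ) := by exact_mod_cast h3m
    have na : ¬ (3 : ℤ) ∣ (a : ℤ) := fun h => Int.prime_three.not_isUnit (ca.of_mul_right_right.isUnit_of_dvd' h h3m')
    refine Dvd.dvd.mul_left ?_ _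
    have h4 : (a : ℤ) % 3 = 1 ∨ (a : ℤ) % 3 = 2 := by omega
    have h5 : (a : ℤ) * a - 1 = ((a : ℤ) - 1) * (a + 1) := by ring
    rw [h5]
    rcases h4 with h4 | h4
    · exact Dvd.dvd.mul_right (by push_cast; omega) _
    · exact Dvd.dvd.mul_left (by push_cast; omega) _
  · simp

theorem of_famH {z r : ℚ} (hz : z ≠ 0) (h : FamH z r) (hr1 : r ≠ 1) :
    ∃ c : ℤ, (c : ℚ) = z * (r.den - r.num) ∧ Ad r.den r.num.natAbs c := by
  have hr0 := h.pos
  obtain ⟨j, u, v, hu, hv, cu, cv, d, e⟩ := h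
  have hnum : 0 < r.num := Rat.num_pos.2 hr0
  obtain ⟨b, hb'⟩ : ∃ b : ℕ, b = r.num.natAbs := ⟨_, rfl⟩
  obtain ⟨a, ha'⟩ : ∃ a : ℕ, a = r.den := ⟨_, rfl⟩
  have hbn : (b : ℤ) = r.num := by
    rw [hb']
    exact Int.natAbs_of_nonneg hnum.le
  rw [← hb', ← ha', ← hbn]
  have ha : 0 < a := by rw [ha']; exact r.den_pos
  have hb : 0 < b := by
    have h1 : (0 : ℤ) < b := by rw [hbn]; exact hnum
    exact_mod_cast h1
  have hcop : IsCoprime (a : ℤ) b := by
    rw [hbn, ha']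
    exact (Rat.isCoprime_num_den r).symm
  have hm0 : (z.den : ℤ) ≠ 0 := by exact_mod_cast z.den_pos.ne'
  have hz0 : z.num ≠ 0 := Rat.num_ne_zero.2 hz
  have hzc : IsCoprime (z.num : ℤ) (z.den : ℤ) := Rat.isCoprime_num_den z
  have hrab : r = (b : ℚ) / a := by
    have h1 := Rat.num_div_den r
    rw [← hbn, ← ha'] at h1
    rw [← h1]
    norm_num
  have hav : (u : ℤ) * a = v * b := by
    have ha0 : (a : ℚ) ≠ 0 := by exact_mod_cast ha.ne'
    have hv0 : (v : ℚ) ≠ 0 := by exact_mod_cast hv.ne'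
    have h1 : (u : ℚ) / v = b / a := by rw [← e, hrab]
    rw [div_eq_div_iff hv0 ha0] at h1
    have h2 : (u : ℚ) * a = v * b := by linarith
    exact_mod_cast h2
  obtain ⟨k, hk⟩ : (a : ℤ) ∣ v := by
    have h1 : (a : ℤ) ∣ v * b := Dvd.intro_left _ hav
    exact hcop.dvd_of_dvd_mul_right h1
  have hku : (u : ℤ) = b * k := by
    have ha0 : (a : ℤ) ≠ 0 := by exact_mod_cast ha.ne'
    have h1 : (a : ℤ) * u = a * (b * k) := by
      rw [mul_comm, hav, hk]
      ring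
    exact mul_left_cancel₀ ha0 h1
  have cb : IsCoprime (b : ℤ) (z.num * z.den) := cu.of_isCoprime_of_dvd_left (Dvd.intro _ hku.symm)
  have ca : IsCoprime (a : ℤ) (z.num * z.den) := cv.of_isCoprime_of_dvd_left (Dvd.intro _ hk.symm)
  have ck : IsCoprime k (z.num * z.den) := cu.of_isCoprime_of_dvd_left (Dvd.intro_left _ hku.symm)
  have hMd : ((M2 z.den : ℕ) : ℤ) ∣ (z.den : ℤ) ^ 3 := (M2_dvd_Mo z.den).trans (by exact_mod_cast Pool.Agent.IT.Mo_dvd z.den)
  have ckM : IsCoprime ((M2 z.den : ℕ) : ℤ) k := ((ck.of_mul_right_right.pow_right (n := 3)).of_isCoprime_of_dvd_right hMd).symm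
  have hMab : ((M2 z.den : ℕ) : ℤ) ∣ (a : ℤ) - b := by
    have d2 := Cl_dvd d
    have e2 : (u : ℤ) - v = k * (b - a) := by rw [hku, hk]; ring
    rw [e2] at d2
    have h1 := ckM.dvd_of_dvd_mul_left d2
    have e3 : (a : ℤ) - b = -(b - a) := by ring
    rw [e3]
    exact h1.neg_right
  obtain ⟨t, ht⟩ := (dvd_M2 z.den).trans hMab
  have hne : (a : ℤ) ≠ b := by
    intro h
    apply hr1
    rw [hrab]
    have h1 : (a : ℚ) = b := by exact_mod_cast h
    rw [h1]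
    exact div_self (by exact_mod_cast hb.ne')
  have ht0 : t ≠ 0 := by
    intro h
    rw [h, mul_zero] at ht
    exact hne (by linarith)
  have hta : IsCoprime (a : ℤ) t := by
    have h1 : IsCoprime (a : ℤ) (a - b) := by
      have e : (a : ℤ) - b = -b + a * 1 := by ring
      rw [e]
      exact (IsCoprime.add_mul_left_right_iff).2 hcop.neg_right
    exact h1.of_isCoprime_of_dvd_right (Dvd.intro_left _ ht.symm)
  have htb : IsCoprime (b : ℤ) t := by
    have h1 : IsCoprime (b : ℤ) (a - b) := by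
      have e : (a : ℤ) - b = a + b * (-1) := by ring
      rw [e]
      exact (IsCoprime.add_mul_left_right_iff).2 hcop.symm
    exact h1.of_isCoprime_of_dvd_right (Dvd.intro_left _ ht.symm)
  refine ⟨z.num * t, ?_, ⟨ha, hb, mul_ne_zero hz0 ht0, Nat.isCoprime_iff_coprime.1 hcop, ca.of_mul_right_left.mul_right hta,
    cb.of_mul_right_left.mul_right htb, ?_⟩⟩
  · have h1 : ((a : ℚ) - (b : ℤ)) = z.den * t := by exact_mod_cast congrArg (Int.cast : ℤ → ℚ) ht
    rw [h1, ← mul_assoc, Rat.mul_den_eq_num]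
    push_cast
    rfl
  · rintro ⟨oa, ob, oc⟩
    rw [Int.odd_mul] at oc
    obtain ⟨-, ot⟩ := oc
    have h1 : Even ((a : ℤ) - b) := ((Int.odd_coe_nat _).2 oa).sub_odd ((Int.odd_coe_nat _).2 ob)
    rw [ht, Int.even_mul] at h1
    rcases h1 with h1 | h1
    · have h2 : 2 ∣ z.den := by
        rw [even_iff_two_dvd] at h1
        exact_mod_cast h1
      have h3 : ((z.den * 2 : ℕ) : ℤ) ∣ (a : ℤ) - b := by
        have e3 : M2 z.den = z.den * 2 := by
          unfold M2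
          rw [if_pos h2]
        rw [← e3]
        exact hMab
      rw [ht, Nat.cast_mul] at h3
      have h4 := Int.dvd_of_mul_dvd_mul_left hm0 h3
      exact (Int.not_even_iff_odd.2 ot) (even_iff_two_dvd.2 (by exact_mod_cast h4))
    · exact (Int.not_even_iff_odd.2 ot) h1

/-- solutions in primes -/
theorem sol_of {z r : ℚ} (hr0 : 0 < r) {c : ℤ} (hc : (c : ℚ) = z * (r.den - r.num)) (h : QuotZ z r) :
    {pq : ℕ × ℕ | pq.1.Prime ∧ pq.2.Prime ∧ ((r.den : ℕ) : ℤ) * pq.1 - (r.num.natAbs : ℕ) * pq.2 = c}.Infinite := by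
  refine h.mono ?_
  rintro ⟨p, q⟩ ⟨hp, hq, h2⟩
  refine ⟨hp, hq, ?_⟩
  simp only at h2 ⊢
  have hnum : 0 < r.num := Rat.num_pos.2 hr0
  have hbn : ((r.num.natAbs : ℕ) : ℤ) = r.num := Int.natAbs_of_nonneg hnum.le
  have hd : r * r.den = r.num := Rat.mul_den_eq_num r
  have h3 : ((r.den : ℕ) : ℚ) * p - r.num * q = c := by
    rw [hc]
    have h4 : (r.den : ℚ) * ((p : ℚ) - z) = r * r.den * (q - z) := by rw [h2]; ring
    rw [hd] at h4
    linarith
  rw [hbn]
  exact_mod_cast h3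

theorem fam_infinite {z : ℚ} (hz : z ≠ 0) : {r : ℚˣ | Fam z (r : ℚ)}.Infinite := by
  have hz0 : z.num ≠ 0 := Rat.num_ne_zero.2 hz
  obtain ⟨A, hA⟩ : ∃ A : ℕ, A = z.num.natAbs * Mo z.den := ⟨_, rfl⟩
  have hA0 : 0 < A := by
    rw [hA]
    refine Nat.mul_pos (Int.natAbs_pos.2 hz0) ?_
    unfold Mo
    refine Nat.mul_pos z.den_pos (Nat.mul_pos ?_ ?_) <;> split_ifs <;> norm_num
  have hex : ∀ k : ℕ, ((1 + A * k : ℕ) : ℚ) ≠ 0 := fun k => by positivity
  refine Set.infinite_of_injective_forall_mem (f := fun k : ℕ => Units.mk0 ((1 + A * k : ℕ) : ℚ) (hex k)) ?_ ?_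
  · intro i j hij
    have h1 : ((1 + A * i : ℕ) : ℚ) = ((1 + A * j : ℕ) : ℚ) := congrArg Units.val hij
    have h2 : 1 + A * i = 1 + A * j := by exact_mod_cast h1
    exact Nat.eq_of_mul_eq_mul_left hA0 (by omega)
  · intro k
    change Fam z ((1 + A * k : ℕ) : ℚ)
    refine ⟨1 + A * k, 1, by positivity, one_pos, ?_, by simpa using isCoprime_one_left, ?_, by simp⟩
    · have h1 : (z.num : ℤ) ∣ (A : ℤ) := by
        rw [hA, Nat.cast_mul]
        exact (Int.dvd_natAbs_self).mul_right _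
      have h2 : (z.den : ℤ) ∣ (A : ℤ) := by
        rw [hA, Nat.cast_mul]
        exact (by exact_mod_cast Pool.Agent.IT.dvd_Mo z.den : (z.den : ℤ) ∣ ((Mo z.den : ℕ) : ℤ)).mul_left _
      have key : ∀ w : ℤ, w ∣ (A : ℤ) → IsCoprime ((1 + A * k : ℕ) : ℤ) w := by
        rintro w ⟨y, hy⟩
        push_cast
        rw [hy]
        have e : (1 : ℤ) + w * y * k = 1 + w * (y * k) := by ring
        rw [e]
        exact (IsCoprime.add_mul_left_left_iff).2 isCoprime_one_left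
      exact (key _ h1).mul_right (key _ h2)
    · push_cast
      have e : (1 : ℤ) + A * k - 1 = A * k := by ring
      rw [e, hA, Nat.cast_mul]
      exact ((dvd_refl _).mul_left _).mul_right _

end Pool.Agent.IT
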