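import Pool.Agent.helper99.IT.SpecS

set_option autoImplicit false

namespace Pool.Agent.IT

open Finset Pool.Agent.AT

/-- powers -/
theorem GENS_large (C' C δ' δ₀ : ℝ) (hC' : 0 < C') (hC : 1 ≤ C) (hδ' : 0 < δ') (hδ₀ : 0 < δ₀) : ∃ L₀ : ℕ, 1 ≤ L₀ ∧ ∀ L : ℕ, L₀ ≤ L →
    C' * (2 * (C * L) + 1) ^ 4 * (2 * (C * L) + 1) ^ (-δ₀) < δ' * (L : ℝ) ^ 4 := by
  have ht : Filter.Tendsto (fun L : ℕ => ((L : ℝ)) ^ δ₀) Filter.atTop Filter.atTop :=
    (tendsto_rpow_atTop hδ₀).comp tendsto_natCast_atTop_atTop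
  obtain ⟨L₀, hL₀⟩ := Filter.eventually_atTop.1 (ht.eventually_gt_atTop (81 * C' * C ^ 4 / δ'))
  refine ⟨max L₀ 1, le_max_right _ _, fun L hL => ?_⟩
  have h1 := hL₀ L ((le_max_left _ _).trans hL)
  have hL1 : (1 : ℝ) ≤ L := by exact_mod_cast (le_max_right _ _).trans hL
  have hL0 : (0 : ℝ) < L := by linarith
  rw [div_lt_iff₀ hδ'] at h1
  have h2 : 2 * (C * L) + 1 ≤ 3 * (C * L) := by nlinarith
  have h3 : (0 : ℝ) < 2 * (C * L) + 1 := by positivity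
  have h4 : (2 * (C * L) + 1 : ℝ) ^ 4 ≤ (3 * (C * L)) ^ 4 := pow_le_pow_left₀ h3.le h2 4
  have h5 : (2 * (C * L) + 1 : ℝ) ^ (-δ₀) ≤ (L : ℝ) ^ (-δ₀) :=
    Real.rpow_le_rpow_of_nonpos hL0 (by nlinarith) (by linarith)
  have h6 : (L : ℝ) ^ (-δ₀) * (L : ℝ) ^ δ₀ = 1 := by
    rw [← Real.rpow_add hL0]
    simp
  have h7 : 0 < (L : ℝ) ^ (-δ₀) := Real.rpow_pos_of_pos hL0 _
  calc C' * (2 * (C * L) + 1) ^ 4 * (2 * (C * L) + 1) ^ (-δ₀)
      ≤ C' * (3 * (C * L)) ^ 4 * (L : ℝ) ^ (-δ₀) := by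
        refine mul_le_mul (mul_le_mul_of_nonneg_left h4 hC'.le) h5 (Real.rpow_nonneg h3.le _) (by positivity)
    _ = (81 * C' * C ^ 4) * (L : ℝ) ^ (-δ₀) * (L : ℝ) ^ 4 := by ring
    _ < (L : ℝ) ^ δ₀ * δ' * (L : ℝ) ^ (-δ₀) * (L : ℝ) ^ 4 := by
        have h8 : 0 < (L : ℝ) ^ (-δ₀) * (L : ℝ) ^ 4 := by positivity
        nlinarith
    _ = δ' * (L : ℝ) ^ 4 := by
        calc (L : ℝ) ^ δ₀ * δ' * (L : ℝ) ^ (-δ₀) * (L : ℝ) ^ 4 = ((L : ℝ) ^ (-δ₀) * (L : ℝ) ^ δ₀) * (δ' * (L : ℝ) ^ 4) := by ring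
          _ = _ := by rw [h6, one_mul]

/-- the relation of the perturbed pair and a pair of the family -/
theorem GENS_pair {si sj : ℕ} {αi αj βi βj P g Γ xi xj c : ℤ} (hg : g * ((sj : ℤ) * αi - si * αj) = Γ)
    (h : Sim (si, αi * c + βi + P * Γ * xi) (sj, αj * c + βj + P * Γ * xj)) :
    Sim (si, αi * (c + P * (g * ((sj : ℤ) * xi - si * xj))) + βi) (sj, αj * (c + P * (g * ((sj : ℤ) * xi - si * xj))) + βj) := by
  refine Sim_shift (m := P * g * (αi * xj - αj * xi)) ?_ ?_ h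
  · rw [← hg]
    ring
  · rw [← hg]
    ring

open Classical in
theorem GENS (hGCT : GCT_stmt) (hADF : ADF_stmt) : GENS_stmt := by
  intro hQ s α β hs hγ ε hε
  obtain ⟨C', δ₀, hC', hδ₀, hδ₀1, hq⟩ := hQ
  -- the constants
  obtain ⟨γ, hγd⟩ : ∃ γ : Fin 4 → Fin 4 → ℤ, ∀ i j, γ i j = (s j : ℤ) * α i - s i * α j := ⟨_, fun _ _ => rfl⟩
  have hγ0 : ∀ i j : Fin 4, i < j → γ i j ≠ 0 := by
    intro i j hij h0
    rw [hγd] at h0
    exact hγ i j hij.ne (by linarith)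
  obtain ⟨Γ₀, hΓ₀d⟩ : ∃ Γ₀ : ℤ, Γ₀ = ∏ p ∈ (univ : Finset (Fin 4 × Fin 4)).filter (fun p => p.1 < p.2), γ p.1 p.2 := ⟨_, rfl⟩
  have hΓ₀ : Γ₀ ≠ 0 := by
    rw [hΓ₀d, prod_ne_zero_iff]
    intro p hp
    exact hγ0 _ _ (mem_filter.1 hp).2
  have hdvd : ∀ i j : Fin 4, i < j → γ i j ∣ Γ₀ := by
    intro i j hij
    rw [hΓ₀d]
    exact dvd_prod_of_mem (fun p : Fin 4 × Fin 4 => γ p.1 p.2) (a := (i, j)) (by rw [mem_filter]; exact ⟨mem_univ _, hij⟩)
  obtain ⟨G, hGd⟩ : ∃ G : ℕ, (G : ℤ) = Γ₀ * Γ₀ := ⟨(Γ₀ * Γ₀).toNat, Int.toNat_of_nonneg (mul_self_nonneg _)⟩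
  have hG0 : (G : ℤ) ≠ 0 := by rw [hGd]; exact mul_ne_zero hΓ₀ hΓ₀
  have hGpos : 0 < G := Nat.pos_of_ne_zero (by exact_mod_cast hG0)
  have hgex : ∀ i j : Fin 4, ∃ g : ℤ, i < j → g * ((s j : ℤ) * α i - s i * α j) = G := by
    intro i j
    by_cases hij : i < j
    · obtain ⟨k, hk⟩ := hdvd i j hij
      refine ⟨k * Γ₀, fun _ => ?_⟩
      rw [← hγd, hGd]
      calc k * Γ₀ * γ i j = (γ i j * k) * Γ₀ := by ring
        _ = Γ₀ * Γ₀ := by rw [← hk]
    · exact ⟨0, fun h => absurd h hij⟩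
  choose g hg using hgex
  obtain ⟨δ', C, hδ', hC1, hgct⟩ := hGCT s α g G hs hG0 hg (ε / 2) (by linarith)
  obtain ⟨P, hPd⟩ : ∃ P : ℕ, P = 6 * ∏ i, s i := ⟨_, rfl⟩
  have hP0 : 0 < P := by
    rw [hPd]
    have : 0 < ∏ i, s i := prod_pos fun i _ => hs i
    positivity
  obtain ⟨Q, hQd⟩ : ∃ Q : ℕ, Q = P * G := ⟨_, rfl⟩
  have hQ0 : 0 < Q := by rw [hQd]; positivity
  have hQz : (Q : ℤ) = P * G := by rw [hQd]; push_cast; ring
  have hC1' : (1 : ℝ) ≤ C := by exact_mod_cast hC1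
  obtain ⟨L₀, hL₀1, hL₀⟩ := GENS_large C' C δ' δ₀ hC' hC1' hδ' hδ₀
  refine ⟨Q * (L₀ + 1), fun M hM u => ?_⟩
  by_contra hcon
  push Not at hcon
  -- a class modulo `Q`
  set S : Finset ℤ := {c ∈ Ioc u (u + M) | BadS s α β c} with hSd
  have hmaps : ∀ c ∈ S, (c % (Q : ℤ)) ∈ (Ico 0 (Q : ℤ)) := by
    intro c _
    rw [mem_Ico]
    exact ⟨Int.emod_nonneg _ (by exact_mod_cast hQ0.ne'), Int.emod_lt_of_pos _ (by exact_mod_cast hQ0)⟩
  have hQr : (0 : ℝ) < Q := by exact_mod_cast hQ0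
  obtain ⟨r, hr, hfib⟩ := exists_lt_card_fiber_of_nsmul_lt_card_of_maps_to hmaps (b := ε * M / Q) (by
    rw [nsmul_eq_mul, Int.card_Ico, sub_zero, Int.toNat_natCast]
    rw [mul_div_cancel₀ _ hQr.ne']
    exact hcon)
  -- the first element of the class
  obtain ⟨cs, hcs⟩ : ∃ cs : ℤ, cs = u + 1 + (r - u - 1) % (Q : ℤ) := ⟨_, rfl⟩
  have hcs1 : u < cs := by
    have h1 := Int.emod_nonneg (r - u - 1) (by exact_mod_cast hQ0.ne' : (Q : ℤ) ≠ 0)
    linarith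
  have hcs2 : cs ≤ u + Q := by
    have h1 := Int.add_one_le_iff.2 (Int.emod_lt_of_pos (r - u - 1) (by exact_mod_cast hQ0 : (0 : ℤ) < Q))
    linarith
  have hcsr : (Q : ℤ) ∣ cs - r := by
    have h1 := Int.emod_add_mul_ediv (r - u - 1) (Q : ℤ)
    refine ⟨-((r - u - 1) / (Q : ℤ)), ?_⟩
    rw [hcs]
    linarith
  obtain ⟨L, hLd⟩ : ∃ L : ℕ, L = M / Q + 1 := ⟨_, rfl⟩
  have hL1 : 1 ≤ L := by rw [hLd]; exact Nat.le_add_left 1 _
  have hLL₀ : L₀ ≤ L := by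
    have h1 : L₀ + 1 ≤ M / Q := by
      rw [Nat.le_div_iff_mul_le hQ0]
      calc (L₀ + 1) * Q = Q * (L₀ + 1) := by ring
        _ ≤ M := hM
    omega
  have hMQ : Q ≤ M := by nlinarith
  -- the elements of the class
  have hcl : ∀ c ∈ S, c % (Q : ℤ) = r → ∃ y ∈ range L, c = cs + Q * (y : ℤ) := by
    intro c hc hcr
    have h1 : u < c ∧ c ≤ u + M := by
      have := (mem_filter.1 hc).1
      rwa [mem_Ioc] at this
    have h2 : (Q : ℤ) ∣ c - cs := by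
      have h3 : (Q : ℤ) ∣ c - r := by
        have h4 := Int.emod_add_mul_ediv c (Q : ℤ)
        exact ⟨c / (Q : ℤ), by linarith⟩
      have h5 := dvd_sub h3 hcsr
      have h6 : c - r - (cs - r) = c - cs := by ring
      rwa [h6] at h5
    obtain ⟨y, hy⟩ := h2
    have hQz0 : (0 : ℤ) < Q := by exact_mod_cast hQ0
    have hy0 : 0 ≤ y := by
      by_contra hneg
      push Not at hneg
      have : (Q : ℤ) * y ≤ Q * (-1) := mul_le_mul_of_nonneg_left (by omega) hQz0.le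
      omega
    obtain ⟨y', rfl⟩ := Int.eq_ofNat_of_zero_le hy0
    refine ⟨y', ?_, by linarith⟩
    rw [mem_range, hLd]
    have h7 : (Q : ℤ) * (y' : ℤ) ≤ M := by linarith
    have h8 : Q * y' ≤ M := by exact_mod_cast h7
    have h9 : y' ≤ M / Q := by
      rw [Nat.le_div_iff_mul_le hQ0]
      linarith
    omega
  -- density of the parameters
  obtain ⟨B, hBd⟩ : ∃ B : ℤ → Prop, ∀ t, B t ↔ BadS s α β (cs + P * t) := ⟨_, fun _ => Iff.rfl⟩
  have hBG : ∀ y : ℕ, B ((G : ℤ) * y) ↔ BadS s α β (cs + Q * (y : ℤ)) := by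
    intro y
    rw [hBd, hQz]
    have : (cs : ℤ) + P * (G * y) = cs + P * G * (y : ℤ) := by ring
    rw [this]
  have hfibc : (#{c ∈ S | c % (Q : ℤ) = r} : ℝ) ≤ (#{y ∈ range L | B ((G : ℤ) * (y : ℤ))} : ℝ) := by
    refine Nat.cast_le.2 ?_
    have h1 : {c ∈ S | c % (Q : ℤ) = r} ⊆ ({y ∈ range L | B ((G : ℤ) * (y : ℤ))}).image (fun y : ℤ => cs + Q * y) := by
      intro c hc
      rw [mem_filter] at hc
      obtain ⟨y, hy, he⟩ := hcl c hc.1 hc.2
      rw [mem_image]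
      refine ⟨y, ?_, he.symm⟩
      rw [mem_filter, hBG, ← he]
      refine ⟨?_, (mem_filter.1 hc.1).2⟩
      simp only [Finset.bind_def, Finset.mem_sup, Finset.pure_def, Finset.mem_singleton]
      exact ⟨y, hy, rfl⟩
    exact (card_le_card h1).trans card_image_le
  have hdens : ε / 2 * (L : ℝ) ≤ (#{y ∈ range L | B ((G : ℤ) * (y : ℤ))} : ℝ) := by
    refine le_trans ?_ (hfib.le.trans hfibc)
    rw [le_div_iff₀ hQr]
    have h1 : (L : ℝ) * Q ≤ 2 * M := by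
      have h2 : (M / Q : ℕ) * Q ≤ M := Nat.div_mul_le_self M Q
      have h3 : L * Q ≤ 2 * M := by rw [hLd, add_mul]; omega
      exact_mod_cast h3
    nlinarith
  have hmain := hgct L B hL1 hdens
  -- a bad element of the class
  obtain ⟨c₁, hc₁⟩ : ∃ c₁, c₁ ∈ {c ∈ S | c % (Q : ℤ) = r} := by
    have h1 : (0 : ℝ) < #{c ∈ S | c % (Q : ℤ) = r} := lt_of_le_of_lt (by positivity) hfib
    have h2 : 0 < #{c ∈ S | c % (Q : ℤ) = r} := by exact_mod_cast h1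
    exact card_pos.1 h2
  rw [mem_filter] at hc₁
  obtain ⟨y₁, hy₁, hc₁e⟩ := hcl c₁ hc₁.1 hc₁.2
  have hAdm₁ : Adm (fun i => (s i, α i * c₁ + β i)) := (mem_filter.1 hc₁.1).2.1
  -- the sets of forms
  obtain ⟨F, hFd⟩ : ∃ F : Fin 4 → Finset (ℕ × ℤ), ∀ i, F i = (Icc (-((C * L : ℕ) : ℤ)) ((C * L : ℕ) : ℤ)).image
      (fun x : ℤ => (s i, α i * cs + β i + P * G * x)) := ⟨_, fun _ => rfl⟩
  have hPG : (P : ℤ) * G ≠ 0 := by
    rw [← hQz]
    exact_mod_cast hQ0.ne'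
  have hinj : ∀ i, Function.Injective (fun x : ℤ => ((s i, α i * cs + β i + P * G * x) : ℕ × ℤ)) := by
    intro i x y hxy
    simp only [Prod.mk.injEq, true_and, add_right_inj] at hxy
    exact mul_left_cancel₀ hPG hxy
  have hFc : ∀ i, #(F i) = 2 * (C * L) + 1 := by
    intro i
    rw [hFd, card_image_of_injective _ (hinj i), Int.card_Icc]
    omega
  have hq1 := hq F (2 * (C * L) + 1) (by omega) (fun i => (hFc i).ge) (fun i f hf => by
    rw [hFd, mem_image] at hf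
    obtain ⟨x, -, rfl⟩ := hf
    exact hs i)
  -- the injection
  have hle : (#{x ∈ Fintype.piFinset (fun _ : Fin 4 => Icc (-((C * L : ℕ) : ℤ)) ((C * L : ℕ) : ℤ)) |
      ∀ i j : Fin 4, i < j → B (g i j * ((s j : ℤ) * x i - s i * x j))} : ℝ) ≤
      #{f ∈ Fintype.piFinset F | Adm f ∧ ∀ i j, i ≠ j → ¬ Sim (f i) (f j)} := by
    refine Nat.cast_le.2 ?_
    refine card_le_card_of_injOn (fun x i => (s i, α i * cs + β i + P * G * x i)) ?_ ?_
    · intro x hx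
      rw [mem_coe, mem_filter] at hx ⊢
      obtain ⟨hx1, hx2⟩ := hx
      rw [Fintype.mem_piFinset] at hx1
      refine ⟨?_, ?_, ?_⟩
      · rw [Fintype.mem_piFinset]
        intro i
        rw [hFd, mem_image]
        exact ⟨x i, hx1 i, rfl⟩
      · refine hADF s _ (fun i => α i * c₁ + β i) Q ?_ ?_ hAdm₁
        · intro l hl hlQ
          have hlP : ¬ l ∣ P := fun h => hlQ (by rw [hQd]; exact h.mul_right G)
          have hl6 : ¬ l ∣ 6 := fun h => hlP (by rw [hPd]; exact h.mul_right _)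
          refine ⟨?_, fun i hi => hlP ?_⟩
          · by_contra h5
            push Not at h5
            have h2 := hl.two_le
            interval_cases l
            · exact hl6 (by norm_num)
            · exact hl6 (by norm_num)
            · revert hl; decide
          · rw [hPd]
            exact (hi.trans (dvd_prod_of_mem s (mem_univ i))).mul_left 6
        · intro i
          refine ⟨x i - α i * y₁, ?_⟩
          rw [hc₁e, hQz]
          ring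
      · have key : ∀ i j : Fin 4, i < j → ¬ Sim (s i, α i * cs + β i + P * G * x i) (s j, α j * cs + β j + P * G * x j) := by
          intro i j hij hsim
          have h1 := hx2 i j hij
          rw [hBd] at h1
          exact h1.2 i j hij.ne (GENS_pair (hg i j hij) hsim)
        intro i j hij hsim
        rcases lt_or_gt_of_ne hij with h | h
        · exact key i j h hsim
        · exact key j i h (Sim_symm hsim)
    · intro x _ y _ hxy
      funext i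
      have h1 := congrFun hxy i
      exact hinj i h1
  have hL2 := hL₀ L hLL₀
  have hprod : (∏ i, (#(F i) : ℝ)) = (2 * (C * L) + 1) ^ 4 := by
    have h1 : ∀ i, (#(F i) : ℝ) = 2 * (C * L) + 1 := by
      intro i
      rw [hFc i]
      push_cast
      ring
    rw [prod_congr rfl fun i _ => h1 i, prod_const, card_univ, Fintype.card_fin]
  rw [hprod] at hq1
  have hcast : (((2 * (C * L) + 1 : ℕ) : ℝ)) = 2 * ((C : ℝ) * L) + 1 := by push_cast; ring
  rw [hcast] at hq1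
  linarith

end Pool.Agent.IT
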