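import Pool.Agent.helper99.IT.Spec

set_option autoImplicit false

namespace Pool.Agent.IT

open Finset Pool.Agent.AT

open Classical in
/-- the removal lemma for any countable type of vertices -/
theorem K4T (h : K4R_stmt) : ∀ δ : ℝ, 0 < δ → ∃ δ' : ℝ, 0 < δ' ∧ ∀ (A : Type) (φ : A → ℤ) (_ : Function.Injective φ) (N : ℕ) (V : Fin 4 → Finset A)
    (E : Fin 4 → Fin 4 → A → A → Prop) (T : Finset (Fin 4 → A)), 1 ≤ N → (∀ i, #(V i) ≤ N) →
    (∀ x ∈ T, (∀ i, x i ∈ V i) ∧ ∀ i j : Fin 4, i < j → E i j (x i) (x j)) →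
    (∀ x ∈ T, ∀ y ∈ T, ∀ i j : Fin 4, i < j → x i = y i → x j = y j → x = y) → δ * (N : ℝ) ^ 2 ≤ #T →
    δ' * (N : ℝ) ^ 4 ≤ #{x ∈ Fintype.piFinset V | ∀ i j : Fin 4, i < j → E i j (x i) (x j)} := by
  intro δ hδ
  obtain ⟨δ', hδ', h1⟩ := h δ hδ
  refine ⟨δ', hδ', fun A φ hφ N V E T hN hV hT hd hc => ?_⟩
  have hinj : Function.Injective (fun (x : Fin 4 → A) (i : Fin 4) => φ (x i)) := by
    intro x y hxy
    funext i
    exact hφ (congrFun hxy i)
  have h2 := h1 N (fun i => (V i).image φ) (fun i j a b => ∃ x y, φ x = a ∧ φ y = b ∧ E i j x y)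
    (T.image (fun x i => φ (x i))) hN (fun i => card_image_le.trans (hV i)) ?_ ?_ ?_
  · refine h2.trans (Nat.cast_le.2 ?_)
    have h3 : {x ∈ Fintype.piFinset (fun i => (V i).image φ) | ∀ i j : Fin 4, i < j → ∃ y z, φ y = x i ∧ φ z = x j ∧ E i j y z} ⊆
        ({x ∈ Fintype.piFinset V | ∀ i j : Fin 4, i < j → E i j (x i) (x j)}).image (fun x i => φ (x i)) := by
      intro x hx
      rw [mem_filter, Fintype.mem_piFinset] at hx
      obtain ⟨hx1, hx2⟩ := hx
      have h4 : ∀ i, ∃ y ∈ V i, φ y = x i := fun i => mem_image.1 (hx1 i)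
      choose y hy1 hy2 using h4
      rw [mem_image]
      refine ⟨y, ?_, funext hy2⟩
      rw [mem_filter, Fintype.mem_piFinset]
      refine ⟨hy1, fun i j hij => ?_⟩
      obtain ⟨a, b, ha, hb, hab⟩ := hx2 i j hij
      have ha' : a = y i := hφ (ha.trans (hy2 i).symm)
      have hb' : b = y j := hφ (hb.trans (hy2 j).symm)
      rw [ha', hb'] at hab
      exact hab
    exact (card_le_card h3).trans card_image_le
  · intro x hx
    rw [mem_image] at hx
    obtain ⟨y, hy, rfl⟩ := hx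
    exact ⟨fun i => mem_image_of_mem φ ((hT y hy).1 i), fun i j hij => ⟨y i, y j, rfl, rfl, (hT y hy).2 i j hij⟩⟩
  · intro x hx y hy i j hij h3 h4
    rw [mem_image] at hx hy
    obtain ⟨x', hx', rfl⟩ := hx
    obtain ⟨y', hy', rfl⟩ := hy
    rw [hd x' hx' y' hy' i j hij (hφ h3) (hφ h4)]
  · rw [card_image_of_injective _ hinj]
    exact hc

open Classical in
/-- the count in the box of `ℤ^d`: `x_i = t + i y` -/
theorem K4B (h : K4R_stmt) (d : ℕ) : ∀ δ : ℝ, 0 < δ → ∃ δ' : ℝ, 0 < δ' ∧ ∀ (L : ℕ) (B : (Fin d → ℤ) → Prop) (n₀ : Fin d → ℤ), 1 ≤ L →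
    δ * ((L : ℝ) ^ d) ≤ #((Fintype.piFinset (fun _ : Fin d => Ico (0 : ℤ) L)).filter (fun y => B (fun k => n₀ k + 6 * y k))) →
    δ' * (((4 * L) ^ d : ℕ) : ℝ) ^ 4 ≤
      #{x ∈ Fintype.piFinset (fun _ : Fin 4 => Fintype.piFinset (fun _ : Fin d => Ico (0 : ℤ) (4 * L : ℕ))) |
        ∀ i j : Fin 4, i < j → B (fun k => n₀ k + (6 / ((j : ℕ) - (i : ℕ) : ℕ) : ℕ) * (x j k - x i k))} := by
  intro δ hδ
  obtain ⟨δ', hδ', h1⟩ := K4T h (δ / (4 ^ d) ^ 2) (by positivity)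
  refine ⟨δ', hδ', fun L B n₀ hL hc => ?_⟩
  set Y := (Fintype.piFinset (fun _ : Fin d => Ico (0 : ℤ) L)).filter (fun y => B (fun k => n₀ k + 6 * y k)) with hY
  set X := Fintype.piFinset (fun _ : Fin d => Ico (0 : ℤ) L) with hX
  have hXc : #X = L ^ d := by
    rw [hX, Fintype.card_piFinset_const, Int.card_Ico, sub_zero, Int.toNat_natCast]
  obtain ⟨φ⟩ : Nonempty ((Fin d → ℤ) ↪ ℤ) := by
    obtain ⟨f, hf⟩ := Countable.exists_injective_nat (Fin d → ℤ)
    exact ⟨⟨fun x => (f x : ℤ), fun x y hxy => hf (by simpa using hxy)⟩⟩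
  let ψ : (Fin d → ℤ) × (Fin d → ℤ) → (Fin 4 → Fin d → ℤ) := fun p i k => p.1 k + (i : ℕ) * p.2 k
  -- determinacy
  have hdet : ∀ p q : (Fin d → ℤ) × (Fin d → ℤ), ∀ i j : Fin 4, i < j → ψ p i = ψ q i → ψ p j = ψ q j → p = q := by
    intro p q i j hij h3 h4
    have h5 : ∀ k, p.2 k = q.2 k := by
      intro k
      have e1 := congrFun h3 k
      have e2 := congrFun h4 k
      simp only [ψ] at e1 e2
      have hij' : ((i : ℕ) : ℤ) < ((j : ℕ) : ℤ) := by exact_mod_cast hij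
      have e3 : (((j : ℕ) : ℤ) - (i : ℕ)) * (p.2 k - q.2 k) = 0 := by linarith
      rcases mul_eq_zero.1 e3 with h | h
      · omega
      · omega
    have h6 : ∀ k, p.1 k = q.1 k := by
      intro k
      have e1 := congrFun h3 k
      simp only [ψ] at e1
      rw [h5 k] at e1
      linarith
    exact Prod.ext (funext h6) (funext h5)
  have hψ : Function.Injective ψ := fun p q hpq => hdet p q 0 1 (by decide) (congrFun hpq 0) (congrFun hpq 1)
  have h2 := h1 (Fin d → ℤ) φ φ.injective ((4 * L) ^ d) (fun _ : Fin 4 => Fintype.piFinset (fun _ : Fin d => Ico (0 : ℤ) (4 * L : ℕ)))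
    (fun i j x y => B (fun k => n₀ k + (6 / ((j : ℕ) - (i : ℕ) : ℕ) : ℕ) * (y k - x k))) ((X ×ˢ Y).image ψ) ?_ ?_ ?_ ?_ ?_
  · exact h2
  · exact Nat.one_le_iff_ne_zero.2 (pow_ne_zero _ (by omega))
  · intro i
    rw [Fintype.card_piFinset_const, Int.card_Ico, sub_zero, Int.toNat_natCast]
  · intro x hx
    rw [mem_image] at hx
    obtain ⟨⟨t, y⟩, hty, rfl⟩ := hx
    rw [mem_product, hY, mem_filter, hX, Fintype.mem_piFinset, Fintype.mem_piFinset] at hty
    obtain ⟨ht, hy, hB⟩ := hty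
    refine ⟨fun i => ?_, fun i j hij => ?_⟩
    · rw [Fintype.mem_piFinset]
      intro k
      have h3 := mem_Ico.1 (ht k)
      have h4 := mem_Ico.1 (hy k)
      have h5 : ((i : ℕ) : ℤ) ≤ 3 := by
        have := i.isLt
        omega
      rw [mem_Ico]
      simp only [ψ]
      push_cast
      constructor
      · have := mul_nonneg (Int.natCast_nonneg (i : ℕ)) h4.1
        linarith
      · have h6 : ((i : ℕ) : ℤ) * y k ≤ 3 * y k := mul_le_mul_of_nonneg_right h5 h4.1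
        linarith
    · have e : (fun k => n₀ k + ((6 / ((j : ℕ) - (i : ℕ) : ℕ) : ℕ) : ℤ) * (ψ (t, y) j k - ψ (t, y) i k)) = fun k => n₀ k + 6 * y k := by
        funext k
        simp only [ψ]
        have hij' : (i : ℕ) < (j : ℕ) := hij
        have hj := j.isLt
        obtain ⟨m, hm⟩ : ∃ m : ℕ, m = (j : ℕ) - (i : ℕ) := ⟨_, rfl⟩
        have hm1 : 1 ≤ m ∧ m ≤ 3 := by omega
        have e1 : ((j : ℕ) : ℤ) = (i : ℕ) + (m : ℤ) := by omega
        rw [← hm, e1]
        have e2 : ((6 / m : ℕ) : ℤ) * m = 6 := by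
          obtain ⟨h7, h8⟩ := hm1
          interval_cases m <;> norm_num
        calc n₀ k + ((6 / m : ℕ) : ℤ) * (t k + ((i : ℕ) + (m : ℤ)) * y k - (t k + (i : ℕ) * y k))
            = n₀ k + (((6 / m : ℕ) : ℤ) * m) * y k := by ring
          _ = _ := by rw [e2]
      rw [e]
      exact hB
  · intro x hx y hy i j hij h3 h4
    rw [mem_image] at hx hy
    obtain ⟨p, -, rfl⟩ := hx
    obtain ⟨q, -, rfl⟩ := hy
    rw [hdet p q i j hij h3 h4]
  · rw [card_image_of_injective _ hψ, card_product, hXc]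
    push_cast
    have e : δ / (4 ^ d) ^ 2 * ((4 * (L : ℝ)) ^ d) ^ 2 = (L : ℝ) ^ d * (δ * (L : ℝ) ^ d) := by
      rw [mul_pow]
      field_simp
    rw [e]
    exact mul_le_mul_of_nonneg_left hc (by positivity)

end Pool.Agent.IT
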