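import Pool.Agent.helper99.IT.Spec

/-!
# Project IT: the general form with simultaneous primes
-/

set_option autoImplicit false

namespace Pool.Agent.IT

open Finset Pool.Agent.AT

/-- `f` and `g` are prime simultaneously infinitely often -/
def Sim (f g : ℕ × ℤ) : Prop := ∀ N : ℕ, ∃ n ≥ N, (ev f n).Prime ∧ (ev g n).Prime

open Classical in
/-- almost all admissible quadruples contain two forms which are prime simultaneously infinitely often -/
def QSc : Prop := ∃ C δ : ℝ, 0 < C ∧ 0 < δ ∧ δ ≤ 1 ∧ ∀ (F : Fin 4 → Finset (ℕ × ℤ)) (L : ℕ), 1 ≤ L → (∀ i, L ≤ #(F i)) →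
  (∀ i, ∀ f ∈ F i, 0 < f.1) →
  (#{f ∈ Fintype.piFinset F | Adm f ∧ ∀ i j, i ≠ j → ¬ Sim (f i) (f j)} : ℝ) ≤ C * (∏ i, (#(F i) : ℝ)) * (L : ℝ) ^ (-δ)

/-- the quadruple of forms `s_i n + α_i c + β_i` is admissible and no two of them are prime simultaneously infinitely often -/
def BadS (s : Fin 4 → ℕ) (α β : Fin 4 → ℤ) (c : ℤ) : Prop :=
  Adm (fun i => (s i, α i * c + β i)) ∧ ∀ i j : Fin 4, i ≠ j → ¬ Sim (s i, α i * c + β i) (s j, α j * c + β j)

open Classical in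
/-- GENS: as GEN, with simultaneous primes -/
def GENS_stmt : Prop := QSc → ∀ (s : Fin 4 → ℕ) (α β : Fin 4 → ℤ), (∀ i, 0 < s i) → (∀ i j : Fin 4, i ≠ j → (s j : ℤ) * α i ≠ s i * α j) → ∀ ε : ℝ, 0 < ε →
  ∃ M₀ : ℕ, ∀ M : ℕ, M₀ ≤ M → ∀ u : ℤ, (#{c ∈ Ioc u (u + M) | BadS s α β c} : ℝ) ≤ ε * M

theorem Sim_symm {f g : ℕ × ℤ} (h : Sim f g) : Sim g f := by
  intro N
  obtain ⟨n, hn, h1, h2⟩ := h N
  exact ⟨n, hn, h2, h1⟩

/-- a shift of `n` -/
theorem Sim_shift {s t : ℕ} {h k h' k' m : ℤ} (e1 : h = s * m + h') (e2 : k = t * m + k') (hs : Sim (s, h) (t, k)) :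
    Sim (s, h') (t, k') := by
  intro N
  obtain ⟨n, hn, h1, h2⟩ := hs (N + m.natAbs)
  have hm : (N : ℤ) ≤ n + m := by
    have h3 : ((N + m.natAbs : ℕ) : ℤ) ≤ n := by exact_mod_cast hn
    push_cast at h3
    have h4 : -|m| ≤ m := neg_abs_le m
    linarith
  obtain ⟨n', hn'⟩ : ∃ n' : ℕ, (n' : ℤ) = n + m := ⟨(n + m).toNat, Int.toNat_of_nonneg (by linarith [Int.natCast_nonneg N])⟩
  refine ⟨n', by exact_mod_cast (hn' ▸ hm : (N : ℤ) ≤ n'), ?_, ?_⟩
  · have e : ev (s, h') n' = ev (s, h) n := by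
      unfold ev
      simp only
      rw [hn', e1]
      congr 1
      ring
    rw [e]
    exact h1
  · have e : ev (t, k') n' = ev (t, k) n := by
      unfold ev
      simp only
      rw [hn', e2]
      congr 1
      ring
    rw [e]
    exact h2

/-- two of four forms from `Many` -/
theorem Many_Sim (f : Fin 4 → ℕ × ℤ) (h : Many f) : ∃ i j, i ≠ j ∧ Sim (f i) (f j) := by
  classical
  by_contra hc
  push Not at hc
  have hc' : ∀ p : Fin 4 × Fin 4, p.1 ≠ p.2 → ∃ N : ℕ, ∀ n ≥ N, ¬ ((ev (f p.1) n).Prime ∧ (ev (f p.2) n).Prime) := by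
    intro p hp
    by_contra h2
    push Not at h2
    refine hc p.1 p.2 hp fun N => ?_
    obtain ⟨n, hn, h3⟩ := h2 N
    exact ⟨n, hn, h3⟩
  choose! m hm using hc'
  obtain ⟨n, hn, hh⟩ := h ((Finset.univ : Finset (Fin 4 × Fin 4)).sup m)
  have h1 : 1 < hits f n := by
    have h2 : (1 : ℝ) < hits f n := by
      refine lt_trans ?_ hh
      norm_num
    exact_mod_cast h2
  unfold hits at h1
  rw [Finset.one_lt_card] at h1
  obtain ⟨i, hi, j, hj, hij⟩ := h1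
  have h3 := hm (i, j) hij n (le_trans (Finset.le_sup (f := m) (Finset.mem_univ (i, j))) hn)
  exact h3 ⟨(Finset.mem_filter.1 hi).2, (Finset.mem_filter.1 hj).2⟩

theorem QS (h : Qk 4) : QSc := by
  classical
  obtain ⟨C, δ, hC, hδ, hδ1, hq⟩ := h
  refine ⟨C, δ, hC, hδ, hδ1, fun F L hL hF hpos => ?_⟩
  refine le_trans ?_ (hq F L hL hF hpos)
  refine Nat.cast_le.2 (card_le_card fun f hf => ?_)
  rw [mem_filter] at hf ⊢
  refine ⟨hf.1, hf.2.1, fun hm => ?_⟩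
  obtain ⟨i, j, hij, hs⟩ := Many_Sim f hm
  exact hf.2.2 i j hij hs

end Pool.Agent.IT
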