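import Pool.Agent.helper99.IT.FAH
import Pool.Agent.helper99.IT.QUO
import Pool.Agent.helper29.IT.GCT

/-! Project EveryCentre (MP_bf63dc_nt): geometric progressions in the family of ALL cases with centre `z`. -/

set_option autoImplicit false

namespace Pool.Agent.IT

open Finset Pool.Agent.AT

open Classical in
/-- Let `e` be four exponents such that all differences divide `12`. For every `ε > 0` there is an `M₀` such that for all `z`, all `g ≠ 1` of class `0` and all `h` such that all `h ^ e_i` are of class `0` or `j₀` and all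
intervals of length `M ≥ M₀` for all but at most `ε M` of the `n` in the interval one of the `(h g ^ n) ^ (e_j - e_i)` is a quotient. -/
theorem QUE (hG : GCT_stmt) (hQ : QSc) (e : Fin 4 → ℕ) (he : ∀ i j : Fin 4, i < j → e i < e j ∧ (e j - e i) ∣ 12) : ∀ ε : ℝ, 0 < ε → ∃ M₀ : ℕ, ∀ M : ℕ, M₀ ≤ M →
    ∀ (z g h : ℚ) (j₀ : ℤ), Fam z g → g ≠ 1 → 0 < h → (∀ i, Cl z 0 (h ^ e i) ∨ Cl z j₀ (h ^ e i)) → ∀ u : ℤ,
      (#{n ∈ Ioc u (u + M) | ∀ i j : Fin 4, i < j → ¬ QuotZ z ((h * g ^ n) ^ (e j - e i))} : ℝ) ≤ ε * M := by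
  intro ε hε
  obtain ⟨C', δ₀, hC', hδ₀, hδ₀1, hq⟩ := hQ
  obtain ⟨s₁, hs₁⟩ : ∃ s₁ : Fin 4 → ℕ, ∀ i, s₁ i = 1 := ⟨fun _ => 1, fun _ => rfl⟩
  obtain ⟨gg, hgg⟩ : ∃ gg : Fin 4 → Fin 4 → ℤ, ∀ i j, gg i j = ((12 / (e j - e i) : ℕ) : ℤ) := ⟨_, fun _ _ => rfl⟩
  have hgg12 : ∀ i j : Fin 4, i < j → gg i j * (((e j : ℕ) : ℤ) - (e i : ℕ)) = 12 := by
    intro i j hij
    obtain ⟨h1, h2⟩ := he i j hij
    rw [hgg]
    have h3 : (((e j : ℕ) : ℤ) - (e i : ℕ)) = ((e j - e i : ℕ) : ℤ) := by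
      rw [Nat.cast_sub h1.le]
    rw [h3]
    exact_mod_cast Nat.div_mul_cancel h2
  obtain ⟨δ', C, hδ', hC1, hk⟩ := hG s₁ (fun i => -((e i : ℕ) : ℤ)) gg 12 (fun i => by rw [hs₁]; norm_num) (by norm_num) (fun i j hij => by
    rw [hs₁, hs₁, ← hgg12 i j hij]
    push_cast
    ring) (ε / 2) (by linarith)
  obtain ⟨N₀, hN₀1, hN₀⟩ := QUO_large (C' * (3 * C) ^ 4) δ' δ₀ (by positivity) hδ' hδ₀
  refine ⟨12 * (N₀ + 1), fun M hM z g h j₀ hg hg1 hh hcl u => ?_⟩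
  by_contra hcon
  rw [not_le] at hcon
  have hg0 : g ≠ 0 := hg.pos.ne'
  obtain ⟨B, hBd⟩ : ∃ B : ℤ → Prop, ∀ n, B n ↔ ∀ i j : Fin 4, i < j → ¬ QuotZ z ((h * g ^ n) ^ (e j - e i)) := ⟨_, fun _ => Iff.rfl⟩
  set S : Finset ℤ := {n ∈ Ioc u (u + M) | ∀ i j : Fin 4, i < j → ¬ QuotZ z ((h * g ^ n) ^ (e j - e i))} with hSd
  have hmaps : ∀ n ∈ S, n % 12 ∈ Ico (0 : ℤ) 12 := by
    intro n _
    rw [mem_Ico]
    constructor <;> omega
  obtain ⟨r, hr, hfib⟩ := exists_lt_card_fiber_of_nsmul_lt_card_of_maps_to hmaps (b := ε * (M / 12 : ℝ)) (by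
    rw [nsmul_eq_mul, Int.card_Ico]
    have e1 : ((((12 : ℤ) - 0).toNat : ℕ) : ℝ) = 12 := by
      have e0 : ((12 : ℤ) - 0).toNat = 12 := rfl
      rw [e0]
      norm_num
    rw [e1]
    have e2 : (12 : ℝ) * (ε * (M / 12 : ℝ)) = ε * M := by ring
    rw [e2]
    exact hcon)
  obtain ⟨n₀, hn₀⟩ : ∃ n₀ : ℤ, n₀ = u + 1 + (r - u - 1) % 12 := ⟨_, rfl⟩
  obtain ⟨L, hLd⟩ : ∃ L : ℕ, L = M / 12 + 1 := ⟨_, rfl⟩
  have hL1 : 1 ≤ L := by omega
  obtain ⟨Y, hY⟩ : ∃ Y : Finset ℕ, Y = (range L).filter (fun y : ℕ => B (n₀ + 12 * (y : ℤ))) := ⟨_, rfl⟩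
  have hfibc : #{n ∈ S | n % 12 = r} ≤ #Y := by
    have h1 : {n ∈ S | n % 12 = r} ⊆ Y.image (fun y : ℕ => n₀ + 12 * (y : ℤ)) := by
      intro n hn
      rw [mem_filter] at hn
      obtain ⟨hn, hnr⟩ := hn
      rw [hSd, mem_filter] at hn
      obtain ⟨h1, h2⟩ := hn
      have h3 := mem_Ioc.1 h1
      rw [mem_image]
      refine ⟨((n - n₀) / 12).toNat, ?_, ?_⟩
      · rw [hY, mem_filter, mem_range]
        have h5 : (L : ℤ) = (M : ℤ) / 12 + 1 := by rw [hLd]; push_cast; rfl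
        have h6 : (((n - n₀) / 12).toNat : ℤ) = (n - n₀) / 12 := Int.toNat_of_nonneg (by omega)
        refine ⟨?_, ?_⟩
        · have h7 : (((n - n₀) / 12).toNat : ℤ) < L := by
            rw [h6, h5]
            omega
          exact_mod_cast h7
        · rw [h6]
          have h7 : n₀ + 12 * ((n - n₀) / 12) = n := by omega
          rw [h7, hBd]
          exact h2
      · have h6 : (((n - n₀) / 12).toNat : ℤ) = (n - n₀) / 12 := Int.toNat_of_nonneg (by omega)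
        rw [h6]
        omega
    exact (card_le_card h1).trans card_image_le
  have hdens : ε / 2 * L ≤ #Y := by
    refine le_trans ?_ (hfib.le.trans (Nat.cast_le.2 hfibc))
    have h1 : 6 * L ≤ M := by omega
    have h2 : 6 * (L : ℝ) ≤ M := by exact_mod_cast h1
    have h3 : (L : ℝ) / 2 ≤ M / 12 := by linarith
    calc ε / 2 * L = ε * ((L : ℝ) / 2) := by ring
      _ ≤ ε * (M / 12 : ℝ) := mul_le_mul_of_nonneg_left h3 hε.le
  have hmain := hk L (fun t => B (n₀ + t)) hL1 (by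
    rw [GCT_card L (fun t => B (n₀ + t)) 12 Y fun y => by rw [hY, mem_filter, mem_range]]
    exact hdens)
  obtain ⟨V, hVd⟩ : ∃ V : Finset ℤ, V = Icc (-((C * L : ℕ) : ℤ)) ((C * L : ℕ) : ℤ) := ⟨_, rfl⟩
  rw [← hVd] at hmain
  obtain ⟨N, hN⟩ : ∃ N : ℕ, N = 2 * C * L + 1 := ⟨_, rfl⟩
  have hVc : #V = N := by
    rw [hVd, Int.card_Icc]
    have h1 : (((C * L : ℕ) : ℤ) + 1 - -((C * L : ℕ) : ℤ)) = ((2 * C * L + 1 : ℕ) : ℤ) := by push_cast; ring
    rw [h1, Int.toNat_natCast, hN]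
  have hN1 : 1 ≤ N := by omega
  have hCL : 1 ≤ C * L := Nat.one_le_iff_ne_zero.2 (Nat.mul_ne_zero (by omega) (by omega))
  have hLN : L ≤ N := by
    rw [hN]
    nlinarith
  have hNL : (N : ℝ) ≤ 3 * C * L := by
    have h2 : N ≤ 3 * C * L := by
      rw [hN]
      nlinarith
    exact_mod_cast h2
  -- the ratios
  obtain ⟨ρ, hρd⟩ : ∃ ρ : Fin 4 → ℤ → ℚ, ∀ i x, ρ i x = h ^ e i * g ^ (((e i : ℕ) : ℤ) * n₀ - 12 * x) := ⟨_, fun _ _ => rfl⟩
  obtain ⟨cl, hcld⟩ : ∃ cl : Fin 4 → ℤ, ∀ i, cl i = if Cl z 0 (h ^ e i) then 0 else j₀ := ⟨_, fun _ => rfl⟩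
  have hclh : ∀ i, Cl z (cl i) (h ^ e i) := by
    intro i
    rw [hcld]
    split_ifs with h1
    · exact h1
    · exact (hcl i).resolve_left h1
  have hρP : ∀ i x, Cl z (cl i) (ρ i x) := by
    intro i x
    rw [hρd]
    have h1 := (hclh i).mul (Cl_zero.2 (hg.zpow (((e i : ℕ) : ℤ) * n₀ - 12 * x)))
    rwa [add_zero] at h1
  have hρinj : ∀ i x y, ρ i x = ρ i y → x = y := by
    intro i x y hxy
    rw [hρd, hρd] at hxy
    have h1 := zpow_right_injective₀ hg.pos hg1 (mul_left_cancel₀ (pow_ne_zero _ hh.ne') hxy)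
    linarith
  obtain ⟨U, s₀, hU0, cU, hs₀⟩ := Cl_clear z ((Finset.univ : Finset (Fin 4)) ×ˢ V) (fun p => ρ p.1 p.2) (fun p => cl p.1) fun p _ => hρP _ _
  obtain ⟨v, hv⟩ := Cl_v z U j₀ cU
  obtain ⟨s, hsd⟩ : ∃ s : Fin 4 → ℤ → ℕ, ∀ i x, s i x = s₀ (i, x) := ⟨fun i x => s₀ (i, x), fun _ _ => rfl⟩
  have hs' : ∀ i, ∀ x ∈ V, (s i x : ℚ) = U * ρ i x ∧ 0 < s i x ∧ IsCoprime (s i x : ℤ) (z.num * z.den) ∧
      ((Mo z.den : ℕ) : ℤ) ∣ (s i x : ℤ) - U - cl i * (M2 z.den : ℕ) * U := by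
    intro i x hx
    rw [hsd]
    exact hs₀ (i, x) (mem_product.2 ⟨mem_univ _, hx⟩)
  have hs : ∀ i, ∀ x ∈ V, (s i x : ℚ) = U * ρ i x := fun i x hx => (hs' i x hx).1
  have hs0 : ∀ i, ∀ x ∈ V, 0 < s i x := fun i x hx => (hs' i x hx).2.1
  have hex : ∀ (i : Fin 4) (x : ℤ), ∃ k : ℤ, x ∈ V → (z.den : ℤ) * k = z.num + s i x * v ∧ IsCoprime (s i x : ℤ) k ∧ IsCoprime (6 : ℤ) k := by
    intro i x
    by_cases hx : x ∈ V
    · obtain ⟨-, -, h3, h4⟩ := hs' i x hx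
      obtain ⟨k, hk⟩ := hv (s i x) h3 (by
        rw [hcld] at h4
        split_ifs at h4 with h5
        · left
          rwa [zero_mul, zero_mul, sub_zero] at h4
        · right
          exact h4)
      exact ⟨k, fun _ => hk⟩
    · exact ⟨0, fun h => absurd h hx⟩
  choose κ hκ using hex
  have hsinj : ∀ i, ∀ x ∈ V, ∀ y ∈ V, s i x = s i y → x = y := by
    intro i x hx y hy hxy
    refine hρinj i x y ?_
    have h1 : (U : ℚ) * ρ i x = U * ρ i y := by rw [← hs i x hx, ← hs i y hy, hxy]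
    exact mul_left_cancel₀ (by exact_mod_cast hU0.ne' : (U : ℚ) ≠ 0) h1
  obtain ⟨F, hFd⟩ : ∃ F : Fin 4 → Finset (ℕ × ℤ), ∀ i, F i = V.image (fun x => (s i x, κ i x)) := ⟨_, fun _ => rfl⟩
  have hFc : ∀ i, #(F i) = N := by
    intro i
    rw [hFd, card_image_of_injOn, hVc]
    intro x hx y hy hxy
    simp only [Prod.mk.injEq] at hxy
    exact hsinj i x hx y hy hxy.1
  have hq1 := hq F L hL1 (fun i => by rw [hFc i]; exact hLN) (fun i f hf => by
    rw [hFd, mem_image] at hf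
    obtain ⟨x, hx, rfl⟩ := hf
    exact hs0 i x hx)
  have hle : (#{x ∈ Fintype.piFinset (fun _ : Fin 4 => V) |
        ∀ i j : Fin 4, i < j → (fun t => B (n₀ + t)) (gg i j * ((s₁ j : ℤ) * x i - s₁ i * x j))} : ℝ) ≤
      #{f ∈ Fintype.piFinset F | Adm f ∧ ∀ i j, i ≠ j → ¬ Sim (f i) (f j)} := by
    refine Nat.cast_le.2 ?_
    refine card_le_card_of_injOn (fun x i => (s i (x i), κ i (x i))) ?_ ?_
    · intro x hx
      rw [mem_coe, mem_filter] at hx ⊢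
      obtain ⟨hx1, hx2⟩ := hx
      rw [Fintype.mem_piFinset] at hx1
      refine ⟨?_, ?_, ?_⟩
      · rw [Fintype.mem_piFinset]
        intro i
        rw [hFd, mem_image]
        exact ⟨x i, hx1 i, rfl⟩
      · refine ADV _ fun i => ?_
        obtain ⟨-, h5, h6⟩ := hκ i (x i) (hx1 i)
        exact ⟨hs0 i _ (hx1 i), h5, h6⟩
      · have key : ∀ i j : Fin 4, i < j → ¬ Sim (s i (x i), κ i (x i)) (s j (x j), κ j (x j)) := by
          intro i j hij hsim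
          have h1 := hx2 i j hij
          dsimp only at h1
          rw [hs₁, hs₁, Nat.cast_one, one_mul, one_mul, hBd] at h1
          refine h1 i j hij ?_
          have hq2 := QuotZ_Sim (hs0 j _ (hx1 j)) (hs0 i _ (hx1 i)) (hκ j _ (hx1 j)).1 (hκ i _ (hx1 i)).1 (Sim_symm hsim)
          have h2 : ((s j (x j) : ℕ) : ℚ) / (s i (x i) : ℕ) = ρ j (x j) / ρ i (x i) := by
            rw [hs j _ (hx1 j), hs i _ (hx1 i)]
            exact mul_div_mul_left _ _ (by exact_mod_cast hU0.ne')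
          rw [h2] at hq2
          obtain ⟨h3, h4⟩ := he i j hij
          obtain ⟨m, hm⟩ : ∃ m : ℕ, m = e j - e i := ⟨_, rfl⟩
          have e7 : e j = m + e i := by omega
          have e9 : gg i j * (m : ℤ) = 12 := by
            rw [← hgg12 i j hij, e7]
            push_cast
            ring
          have h5 : ρ j (x j) / ρ i (x i) = (h * g ^ (n₀ + gg i j * (x i - x j))) ^ (e j - e i) := by
            rw [← hm, div_eq_iff (hρP i (x i)).pos.ne', mul_pow, hρd, hρd, e7, pow_add, ← zpow_natCast (g ^ (n₀ + gg i j * (x i - x j))) m, ← zpow_mul]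
            have e10 : ∀ (A Bq : ℚ) (X Y : ℤ), A * g ^ X * (Bq * g ^ Y) = A * Bq * g ^ (X + Y) := by
              intro A Bq X Y
              rw [zpow_add₀ hg0]
              ring
            rw [e10]
            congr 2
            push_cast
            calc ((m : ℤ) + e i) * n₀ - 12 * x j = m * n₀ + 12 * (x i - x j) + (e i * n₀ - 12 * x i) := by ring
              _ = m * n₀ + (gg i j * m) * (x i - x j) + (e i * n₀ - 12 * x i) := by rw [e9]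
              _ = _ := by ring
          rw [h5] at hq2
          exact hq2
        intro i j hij hsim
        rcases lt_or_gt_of_ne hij with h | h
        · exact key i j h hsim
        · exact key j i h (Sim_symm hsim)
    · intro x hx y hy hxy
      rw [mem_coe, mem_filter, Fintype.mem_piFinset] at hx hy
      funext i
      have h1 := congrFun hxy i
      simp only [Prod.mk.injEq] at h1
      exact hsinj i _ (hx.1 i) _ (hy.1 i) h1.1
  have hL2 := hN₀ L (by omega)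
  have hprod : (∏ i, (#(F i) : ℝ)) = (N : ℝ) ^ 4 := by
    rw [prod_congr rfl fun i _ => by rw [hFc i], prod_const, card_univ, Fintype.card_fin]
  rw [hprod] at hq1
  have h5 : C' * (N : ℝ) ^ 4 * (L : ℝ) ^ (-δ₀) ≤ C' * (3 * C) ^ 4 * (L : ℝ) ^ 4 * (L : ℝ) ^ (-δ₀) := by
    have h6 : (0 : ℝ) ≤ (L : ℝ) ^ (-δ₀) := Real.rpow_nonneg (Nat.cast_nonneg _) _
    refine mul_le_mul_of_nonneg_right ?_ h6
    have h7 : (N : ℝ) ^ 4 ≤ (3 * C * L) ^ 4 := pow_le_pow_left₀ (Nat.cast_nonneg _) hNL 4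
    calc C' * (N : ℝ) ^ 4 ≤ C' * (3 * C * L) ^ 4 := mul_le_mul_of_nonneg_left h7 hC'.le
      _ = _ := by ring
  linarith

open Classical in
/-- one of `r, r², r³`, or of `r, .., r⁴` for `r` not of class `0` -/
theorem QUH (hG : GCT_stmt) (hQ : QSc) : ∀ ε : ℝ, 0 < ε → ∃ M₀ : ℕ, ∀ M : ℕ, M₀ ≤ M → ∀ z g h : ℚ, FamH z g → g ≠ 1 → FamH z h →
      (#{n ∈ range M | ¬ (QuotZ z (h * g ^ n) ∨ QuotZ z ((h * g ^ n) ^ 2) ∨ QuotZ z ((h * g ^ n) ^ 3) ∨
        (¬ Fam z (h * g ^ n) ∧ QuotZ z ((h * g ^ n) ^ 4)))} : ℝ) ≤ ε * M := by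
  intro ε hε
  obtain ⟨e₁, he₁⟩ : ∃ e₁ : Fin 4 → ℕ, e₁ = ![0, 1, 2, 3] := ⟨_, rfl⟩
  obtain ⟨e₂, he₂⟩ : ∃ e₂ : Fin 4 → ℕ, e₂ = ![0, 1, 3, 4] := ⟨_, rfl⟩
  obtain ⟨M₁, H₁⟩ := QUE hG hQ e₁ (by rw [he₁]; decide) (ε / 2) (by linarith)
  obtain ⟨M₂, H₂⟩ := QUE hG hQ e₂ (by rw [he₂]; decide) (ε / 2) (by linarith)
  refine ⟨3 * (M₁ + M₂ + 1), fun M hM z g h hg hg1 hh => ?_⟩
  obtain ⟨M', hM'⟩ : ∃ M' : ℕ, M' = M / 3 + 1 := ⟨_, rfl⟩
  have hg0 := hg.pos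
  have hh0 := hh.pos
  have hg3 : Fam z (g ^ 3) := hg.cube
  have hg31 : g ^ 3 ≠ 1 := fun h => hg1 ((pow_eq_one_iff_of_nonneg hg0.le (by norm_num)).1 h)
  obtain ⟨B, hB⟩ : ∃ B : ℕ → Prop, ∀ n, B n ↔ ¬ (QuotZ z (h * g ^ n) ∨ QuotZ z ((h * g ^ n) ^ 2) ∨ QuotZ z ((h * g ^ n) ^ 3) ∨
        (¬ Fam z (h * g ^ n) ∧ QuotZ z ((h * g ^ n) ^ 4))) := ⟨_, fun _ => Iff.rfl⟩
  have hone : ∀ i : ℕ, (#{k ∈ range M' | B (3 * k + i)} : ℝ) ≤ ε / 2 * M' := by
    intro i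
    have hhi : FamH z (h * g ^ i) := hh.mul (hg.pow i)
    have hterm : ∀ k : ℕ, h * g ^ (3 * k + i) = h * g ^ i * (g ^ 3) ^ k := by
      intro k
      rw [pow_add, pow_mul]
      ring
    have hconv : ∀ P : ℤ → Prop, (∀ k : ℕ, B (3 * k + i) → P k) → #{k ∈ range M' | B (3 * k + i)} ≤ #{n ∈ Ioc (-1 : ℤ) (-1 + M') | P n} := by
      intro P hP
      refine card_le_card_of_injOn (fun k : ℕ => (k : ℤ)) ?_ (fun a _ b _ h => Nat.cast_injective h)
      intro k hk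
      rw [mem_coe, mem_filter, mem_range] at hk
      rw [mem_coe, mem_filter, mem_Ioc]
      dsimp only
      exact ⟨⟨by omega, by omega⟩, hP k hk.2⟩
    by_cases hF : Fam z (h * g ^ i)
    · have hH := H₁ M' (by omega) z (g ^ 3) (h * g ^ i) 0 hg3 hg31 hhi.pos (fun l => Or.inl (Cl_zero.2 (hF.pow _))) (-1)
      obtain ⟨P, hP⟩ : ∃ P : ℤ → Prop, ∀ n, P n ↔ ∀ a b : Fin 4, a < b → ¬ QuotZ z ((h * g ^ i * (g ^ 3) ^ n) ^ (e₁ b - e₁ a)) := ⟨_, fun _ => Iff.rfl⟩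
      have hH' : (#{n ∈ Ioc (-1 : ℤ) (-1 + M') | P n} : ℝ) ≤ ε / 2 * M' := by
        refine le_trans (le_of_eq ?_) hH
        congr 2
        ext n
        rw [mem_filter, mem_filter, hP]
      refine le_trans (Nat.cast_le.2 (hconv P ?_)) hH'
      intro k hk
      rw [hP]
      intro a b hab hq
      rw [hB, hterm] at hk
      apply hk
      rw [zpow_natCast] at hq
      have h3 : e₁ b - e₁ a = 1 ∨ e₁ b - e₁ a = 2 ∨ e₁ b - e₁ a = 3 := by
        have h4 : ∀ a b : Fin 4, a < b → (![0, 1, 2, 3] : Fin 4 → ℕ) b - (![0, 1, 2, 3] : Fin 4 → ℕ) a = 1 ∨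
            (![0, 1, 2, 3] : Fin 4 → ℕ) b - (![0, 1, 2, 3] : Fin 4 → ℕ) a = 2 ∨ (![0, 1, 2, 3] : Fin 4 → ℕ) b - (![0, 1, 2, 3] : Fin 4 → ℕ) a = 3 := by decide
        rw [he₁]
        exact h4 a b hab
      rcases h3 with h3 | h3 | h3
      · rw [h3, pow_one] at hq
        exact Or.inl hq
      · rw [h3] at hq
        exact Or.inr (Or.inl hq)
      · rw [h3] at hq
        exact Or.inr (Or.inr (Or.inl hq))
    · obtain ⟨j, hj⟩ := hhi
      have hcl : ∀ l, Cl z 0 ((h * g ^ i) ^ e₂ l) ∨ Cl z j ((h * g ^ i) ^ e₂ l) := by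
        intro l
        have h1 := hj.pow (e₂ l)
        have h2 : (3 : ℤ) ∣ ((e₂ l : ℕ) : ℤ) - 0 ∨ (3 : ℤ) ∣ ((e₂ l : ℕ) : ℤ) - 1 := by
          have h4 : ∀ l : Fin 4, (3 : ℤ) ∣ (((![0, 1, 3, 4] : Fin 4 → ℕ) l : ℕ) : ℤ) - 0 ∨ (3 : ℤ) ∣ (((![0, 1, 3, 4] : Fin 4 → ℕ) l : ℕ) : ℤ) - 1 := by decide
          rw [he₂]
          exact h4 l
        rcases h2 with h2 | h2
        · left
          refine h1.congr ?_
          rw [sub_zero]
          rw [sub_zero] at h2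
          exact h2.mul_right _
        · right
          refine h1.congr ?_
          have e3 : ((e₂ l : ℕ) : ℤ) * j - j = (((e₂ l : ℕ) : ℤ) - 1) * j := by ring
          rw [e3]
          exact h2.mul_right _
      have hH := H₂ M' (by omega) z (g ^ 3) (h * g ^ i) j hg3 hg31 hj.pos hcl (-1)
      obtain ⟨P, hP⟩ : ∃ P : ℤ → Prop, ∀ n, P n ↔ ∀ a b : Fin 4, a < b → ¬ QuotZ z ((h * g ^ i * (g ^ 3) ^ n) ^ (e₂ b - e₂ a)) := ⟨_, fun _ => Iff.rfl⟩
      have hH' : (#{n ∈ Ioc (-1 : ℤ) (-1 + M') | P n} : ℝ) ≤ ε / 2 * M' := by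
        refine le_trans (le_of_eq ?_) hH
        congr 2
        ext n
        rw [mem_filter, mem_filter, hP]
      refine le_trans (Nat.cast_le.2 (hconv P ?_)) hH'
      intro k hk
      rw [hP]
      intro a b hab hq
      rw [hB, hterm] at hk
      apply hk
      rw [zpow_natCast] at hq
      have hnF : ¬ Fam z (h * g ^ i * (g ^ 3) ^ k) := by
        intro hc
        apply hF
        have h4 := hc.mul (hg3.pow k).inv
        rwa [mul_assoc, mul_inv_cancel₀ (pow_ne_zero _ (pow_ne_zero _ hg0.ne')), mul_one] at h4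
      have h3 : e₂ b - e₂ a = 1 ∨ e₂ b - e₂ a = 2 ∨ e₂ b - e₂ a = 3 ∨ e₂ b - e₂ a = 4 := by
        have h4 : ∀ a b : Fin 4, a < b → (![0, 1, 3, 4] : Fin 4 → ℕ) b - (![0, 1, 3, 4] : Fin 4 → ℕ) a = 1 ∨
            (![0, 1, 3, 4] : Fin 4 → ℕ) b - (![0, 1, 3, 4] : Fin 4 → ℕ) a = 2 ∨ (![0, 1, 3, 4] : Fin 4 → ℕ) b - (![0, 1, 3, 4] : Fin 4 → ℕ) a = 3 ∨
            (![0, 1, 3, 4] : Fin 4 → ℕ) b - (![0, 1, 3, 4] : Fin 4 → ℕ) a = 4 := by decide
        rw [he₂]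
        exact h4 a b hab
      rcases h3 with h3 | h3 | h3 | h3
      · rw [h3, pow_one] at hq
        exact Or.inl hq
      · rw [h3] at hq
        exact Or.inr (Or.inl hq)
      · rw [h3] at hq
        exact Or.inr (Or.inr (Or.inl hq))
      · rw [h3] at hq
        exact Or.inr (Or.inr (Or.inr ⟨hnF, hq⟩))
  have hsub : (range M).filter B ⊆ (range 3).biUnion fun i => ((range M').filter fun k => B (3 * k + i)).image fun k => 3 * k + i := by
    intro n hn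
    rw [mem_filter, mem_range] at hn
    rw [mem_biUnion]
    refine ⟨n % 3, mem_range.2 (Nat.mod_lt _ (by norm_num)), ?_⟩
    rw [mem_image]
    refine ⟨n / 3, ?_, by omega⟩
    rw [mem_filter, mem_range]
    have h1 : 3 * (n / 3) + n % 3 = n := by omega
    rw [h1]
    exact ⟨by omega, hn.2⟩
  have h1 : #((range M).filter B) ≤ ∑ i ∈ range 3, #((range M').filter fun k => B (3 * k + i)) :=
    (card_le_card hsub).trans (card_biUnion_le.trans (sum_le_sum fun i _ => card_image_le))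
  have h2 : (#((range M).filter B) : ℝ) ≤ ∑ _i ∈ range 3, ε / 2 * M' := by
    refine le_trans (by exact_mod_cast h1 : (#((range M).filter B) : ℝ) ≤ ∑ i ∈ range 3, (#((range M').filter fun k => B (3 * k + i)) : ℝ)) ?_
    exact sum_le_sum fun i _ => hone i
  rw [sum_const, card_range, nsmul_eq_mul] at h2
  have h3 : 3 * M' ≤ 2 * M := by omega
  have h4 : 3 * (M' : ℝ) ≤ 2 * M := by exact_mod_cast h3
  have h5 : ((3 : ℕ) : ℝ) * (ε / 2 * M') ≤ ε * M := by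
    push_cast
    nlinarith
  refine le_trans (le_of_eq ?_) (h2.trans h5)
  congr 2
  ext n
  rw [mem_filter, mem_filter, hB]

end Pool.Agent.IT
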