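import Pool.Agent.helper99.IT.K4T
import Pool.Agent.helper99.IT.QUO
import Pool.Agent.helper99.IT.FAM

/-! Project EveryCentre (MP_bf63dc_nt): geometric progressions in the family of all cases with centre `z`. -/

set_option autoImplicit false

namespace Pool.Agent.IT

open Finset Pool.Agent.AT

open Classical in
/-- For every `d ≥ 1` and `ε > 0` there is an `M₀` such that for all `z ≠ 0`, all independent `g_1, ..., g_d` and all `h` in the family `Fam z` and all boxes of side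
`M ≥ M₀` at most `ε M^d` of the `r = h g^n`, `n` in the box, are such that none of `r, r², r³` is a quotient `(p - z) / (q - z)` for infinitely many pairs of primes. -/
theorem QUZ (hK : K4R_stmt) (hQ : QSc) : ∀ (d : ℕ), 0 < d → ∀ ε : ℝ, 0 < ε → ∃ M₀ : ℕ, ∀ M : ℕ, M₀ ≤ M → ∀ z : ℚ, z ≠ 0 → ∀ g : Fin d → ℚ, (∀ k, Fam z (g k)) →
    (∀ n : Fin d → ℤ, ∏ k, g k ^ n k = 1 → n = 0) → ∀ h : ℚ, Fam z h → ∀ u : Fin d → ℤ,
      (#{n ∈ Fintype.piFinset (fun k => Ioc (u k) (u k + M)) | ¬ (QuotZ z (h * ∏ k, g k ^ n k) ∨ QuotZ z ((h * ∏ k, g k ^ n k) ^ 2) ∨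
        QuotZ z ((h * ∏ k, g k ^ n k) ^ 3))} : ℝ) ≤ ε * (M : ℝ) ^ d := by
  intro d hd ε hε
  obtain ⟨C', δ₀, hC', hδ₀, hδ₀1, hq⟩ := hQ
  obtain ⟨δ', hδ', hk⟩ := K4B hK d (ε / 2 ^ d) (by positivity)
  obtain ⟨N₀, hN₀1, hN₀⟩ := QUO_large C' δ' δ₀ hC' hδ' hδ₀
  refine ⟨6 * (N₀ + 1), fun M hM z hz g hg hind h hh u => ?_⟩
  by_contra hcon
  rw [not_le] at hcon
  obtain ⟨e, hed⟩ : ∃ e : (Fin d → ℤ) → ℚ, ∀ n, e n = ∏ k, g k ^ n k := ⟨_, fun _ => rfl⟩
  have hg0 : ∀ k, g k ≠ 0 := fun k => (hg k).pos.ne'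
  have eadd : ∀ m n : Fin d → ℤ, e (fun k => m k + n k) = e m * e n := by
    intro m n
    rw [hed, hed, hed, ← prod_mul_distrib]
    exact prod_congr rfl fun k _ => zpow_add₀ (hg0 k) _ _
  have epow : ∀ (m : ℕ) (n : Fin d → ℤ), e n ^ m = e (fun k => (m : ℤ) * n k) := by
    intro m n
    rw [hed, hed, ← prod_pow]
    refine prod_congr rfl fun k _ => ?_
    rw [← zpow_natCast, ← zpow_mul, mul_comm]
  have ePr : ∀ n, Fam z (e n) := by
    intro n
    rw [hed]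
    exact Fam.prod _ _ fun k _ => (hg k).zpow _
  have einj : ∀ m n : Fin d → ℤ, e m = e n → m = n := by
    intro m n hmn
    have h1 : e (fun k => m k + (-1 * n k)) = 1 := by
      rw [eadd m (fun k => -1 * n k)]
      have h2 : e n * e (fun k => -1 * n k) = 1 := by
        rw [← eadd, hed]
        refine prod_eq_one fun k _ => ?_
        simp
      rw [hmn, h2]
    rw [hed] at h1
    have h3 := hind _ h1
    funext k
    have := congrFun h3 k
    simp only [Pi.zero_apply] at this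
    linarith
  obtain ⟨B, hBd⟩ : ∃ B : (Fin d → ℤ) → Prop, ∀ n, B n ↔ ¬ (QuotZ z (h * e n) ∨ QuotZ z ((h * e n) ^ 2) ∨ QuotZ z ((h * e n) ^ 3)) := ⟨_, fun _ => Iff.rfl⟩
  set S : Finset (Fin d → ℤ) := {n ∈ Fintype.piFinset (fun k => Ioc (u k) (u k + M)) | ¬ (QuotZ z (h * ∏ k, g k ^ n k) ∨ QuotZ z ((h * ∏ k, g k ^ n k) ^ 2) ∨
        QuotZ z ((h * ∏ k, g k ^ n k) ^ 3))} with hSd
  have hmaps : ∀ n ∈ S, (fun k => n k % 6) ∈ Fintype.piFinset (fun _ : Fin d => Ico (0 : ℤ) 6) := by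
    intro n _
    rw [Fintype.mem_piFinset]
    intro k
    rw [mem_Ico]
    constructor <;> omega
  have hM6 : 6 ≤ M := by omega
  obtain ⟨r, hr, hfib⟩ := exists_lt_card_fiber_of_nsmul_lt_card_of_maps_to hmaps (b := ε * (M / 6 : ℝ) ^ d) (by
    rw [nsmul_eq_mul, Fintype.card_piFinset_const, Int.card_Ico]
    have e1 : ((((6 : ℤ) - 0).toNat ^ d : ℕ) : ℝ) = 6 ^ d := by
      have e0 : ((6 : ℤ) - 0).toNat = 6 := rfl
      rw [e0]
      push_cast
      rfl
    rw [e1]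
    have e2 : (6 : ℝ) ^ d * (ε * (M / 6 : ℝ) ^ d) = ε * (M : ℝ) ^ d := by
      rw [div_pow]
      field_simp
    rw [e2]
    exact hcon)
  obtain ⟨n₀, hn₀⟩ : ∃ n₀ : Fin d → ℤ, ∀ k, n₀ k = u k + 1 + (r k - u k - 1) % 6 := ⟨_, fun _ => rfl⟩
  obtain ⟨L, hLd⟩ : ∃ L : ℕ, L = M / 6 + 1 := ⟨_, rfl⟩
  have hL1 : 1 ≤ L := by omega
  have hcl : ∀ n ∈ S, (fun k => n k % 6) = r → ∃ y ∈ Fintype.piFinset (fun _ : Fin d => Ico (0 : ℤ) L), n = fun k => n₀ k + 6 * y k := by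
    intro n hn hnr
    have h1 := (mem_filter.1 hn).1
    rw [Fintype.mem_piFinset] at h1
    refine ⟨fun k => (n k - n₀ k) / 6, ?_, ?_⟩
    · rw [Fintype.mem_piFinset]
      intro k
      have h2 := mem_Ioc.1 (h1 k)
      have h3 := congrFun hnr k
      have h4 := hn₀ k
      rw [mem_Ico]
      have h5 : (L : ℤ) = (M : ℤ) / 6 + 1 := by rw [hLd]; push_cast; rfl
      constructor
      · omega
      · rw [h5]
        omega
    · funext k
      have h2 := mem_Ioc.1 (h1 k)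
      have h3 : n k % 6 = r k := congrFun hnr k
      have h4 := hn₀ k
      change n k = n₀ k + 6 * ((n k - n₀ k) / 6)
      omega
  have hfibc : (#{n ∈ S | (fun k => n k % 6) = r} : ℝ) ≤ #((Fintype.piFinset (fun _ : Fin d => Ico (0 : ℤ) L)).filter (fun y => B (fun k => n₀ k + 6 * y k))) := by
    refine Nat.cast_le.2 ?_
    have h1 : {n ∈ S | (fun k => n k % 6) = r} ⊆ ((Fintype.piFinset (fun _ : Fin d => Ico (0 : ℤ) L)).filter (fun y => B (fun k => n₀ k + 6 * y k))).image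
        (fun y k => n₀ k + 6 * y k) := by
      intro n hn
      rw [mem_filter] at hn
      obtain ⟨y, hy, he⟩ := hcl n hn.1 hn.2
      rw [mem_image]
      refine ⟨y, ?_, he.symm⟩
      rw [mem_filter, ← he, hBd, hed]
      exact ⟨hy, (mem_filter.1 hn.1).2⟩
    exact (card_le_card h1).trans card_image_le
  have hdens : ε / 2 ^ d * ((L : ℝ) ^ d) ≤ #((Fintype.piFinset (fun _ : Fin d => Ico (0 : ℤ) L)).filter (fun y => B (fun k => n₀ k + 6 * y k))) := by
    refine le_trans ?_ (hfib.le.trans hfibc)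
    have h1 : (L : ℝ) / 2 ≤ M / 6 := by
      have h2 : 3 * L ≤ M := by omega
      have h3 : 3 * (L : ℝ) ≤ M := by exact_mod_cast h2
      linarith
    calc ε / 2 ^ d * ((L : ℝ) ^ d) = ε * ((L : ℝ) / 2) ^ d := by
          rw [div_pow]
          field_simp
      _ ≤ ε * (M / 6 : ℝ) ^ d := mul_le_mul_of_nonneg_left (pow_le_pow_left₀ (by positivity) h1 d) hε.le
  have hmain := hk L B n₀ hL1 hdens
  obtain ⟨N, hN⟩ : ∃ N : ℕ, N = (4 * L) ^ d := ⟨_, rfl⟩
  rw [← hN] at hmain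
  obtain ⟨V, hVd⟩ : ∃ V : Finset (Fin d → ℤ), V = Fintype.piFinset (fun _ : Fin d => Ico (0 : ℤ) (4 * L : ℕ)) := ⟨_, rfl⟩
  have hVc : #V = N := by
    rw [hVd, Fintype.card_piFinset_const, Int.card_Ico, sub_zero, Int.toNat_natCast, hN]
  have hNN₀ : N₀ ≤ N := by
    have h1 : 4 * L ≤ (4 * L) ^ d := Nat.le_self_pow hd.ne' _
    omega
  have hN1 : 1 ≤ N := hN₀1.trans hNN₀
  -- the ratios
  obtain ⟨ρ, hρd⟩ : ∃ ρ : Fin 4 → (Fin d → ℤ) → ℚ, ∀ i x, ρ i x = h ^ (i : ℕ) * e (fun k => ((i : ℕ) : ℤ) * n₀ k + 6 * x k) := ⟨_, fun _ _ => rfl⟩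
  have hρP : ∀ i x, Fam z (ρ i x) := fun i x => by rw [hρd]; exact (hh.pow _).mul (ePr _)
  have hρinj : ∀ i x y, ρ i x = ρ i y → x = y := by
    intro i x y hxy
    rw [hρd, hρd] at hxy
    have h1 := einj _ _ (mul_left_cancel₀ (pow_ne_zero _ hh.pos.ne') hxy)
    funext k
    have h2 : ((i : ℕ) : ℤ) * n₀ k + 6 * x k = ((i : ℕ) : ℤ) * n₀ k + 6 * y k := congrFun h1 k
    linarith
  obtain ⟨U, s₀, hU0, cU, hs₀⟩ := Fam_clear z ((Finset.univ : Finset (Fin 4)) ×ˢ V) (fun p => ρ p.1 p.2) fun p _ => hρP _ _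
  obtain ⟨v, hv⟩ := Fam_v z U cU
  obtain ⟨s, hsd⟩ : ∃ s : Fin 4 → (Fin d → ℤ) → ℕ, ∀ i x, s i x = s₀ (i, x) := ⟨fun i x => s₀ (i, x), fun _ _ => rfl⟩
  have hs' : ∀ i, ∀ x ∈ V, (s i x : ℚ) = U * ρ i x ∧ 0 < s i x ∧ IsCoprime (s i x : ℤ) (z.num * z.den) ∧ ((Mo z.den : ℕ) : ℤ) ∣ (s i x : ℤ) - U := by
    intro i x hx
    rw [hsd]
    exact hs₀ (i, x) (mem_product.2 ⟨mem_univ _, hx⟩)
  have hs : ∀ i, ∀ x ∈ V, (s i x : ℚ) = U * ρ i x := fun i x hx => (hs' i x hx).1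
  have hs0 : ∀ i, ∀ x ∈ V, 0 < s i x := fun i x hx => (hs' i x hx).2.1
  have hex : ∀ (i : Fin 4) (x : Fin d → ℤ), ∃ k : ℤ, x ∈ V → (z.den : ℤ) * k = z.num + s i x * v ∧ IsCoprime (s i x : ℤ) k ∧ IsCoprime (6 : ℤ) k := by
    intro i x
    by_cases hx : x ∈ V
    · obtain ⟨k, hk⟩ := hv (s i x) (hs' i x hx).2.2.1 (hs' i x hx).2.2.2
      exact ⟨k, fun _ => hk⟩
    · exact ⟨0, fun h => absurd h hx⟩
  choose κ hκ using hex
  have hsinj : ∀ i, ∀ x ∈ V, ∀ y ∈ V, s i x = s i y → x = y := by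
    intro i x hx y hy hxy
    refine hρinj i x y ?_
    have h1 : (U : ℚ) * ρ i x = U * ρ i y := by rw [← hs i x hx, ← hs i y hy, hxy]
    exact mul_left_cancel₀ (by exact_mod_cast hU0.ne' : (U : ℚ) ≠ 0) h1
  obtain ⟨F, hFd⟩ : ∃ F : Fin 4 → Finset (ℕ × ℤ), ∀ i, F i = V.image (fun x => (s i x, κ i x)) := ⟨_, fun _ => rfl⟩
  have hFc : ∀ i, #(F i) = N := by
    intro i
    rw [hFd, card_image_of_injOn, hVc]
    intro x hx y hy hxy
    simp only [Prod.mk.injEq] at hxy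
    exact hsinj i x hx y hy hxy.1
  have hq1 := hq F N hN1 (fun i => (hFc i).ge) (fun i f hf => by
    rw [hFd, mem_image] at hf
    obtain ⟨x, hx, rfl⟩ := hf
    exact hs0 i x hx)
  have hle : (#{x ∈ Fintype.piFinset (fun _ : Fin 4 => Fintype.piFinset (fun _ : Fin d => Ico (0 : ℤ) (4 * L : ℕ))) |
        ∀ i j : Fin 4, i < j → B (fun k => n₀ k + (6 / ((j : ℕ) - (i : ℕ) : ℕ) : ℕ) * (x j k - x i k))} : ℝ) ≤
      #{f ∈ Fintype.piFinset F | Adm f ∧ ∀ i j, i ≠ j → ¬ Sim (f i) (f j)} := by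
    refine Nat.cast_le.2 ?_
    rw [← hVd]
    refine card_le_card_of_injOn (fun x i => (s i (x i), κ i (x i))) ?_ ?_
    · intro x hx
      rw [mem_coe, mem_filter] at hx ⊢
      obtain ⟨hx1, hx2⟩ := hx
      rw [Fintype.mem_piFinset] at hx1
      refine ⟨?_, ?_, ?_⟩
      · rw [Fintype.mem_piFinset]
        intro i
        rw [hFd, mem_image]
        exact ⟨x i, hx1 i, rfl⟩
      · refine ADV _ fun i => ?_
        obtain ⟨-, h5, h6⟩ := hκ i (x i) (hx1 i)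
        exact ⟨hs0 i _ (hx1 i), h5, h6⟩
      · have key : ∀ i j : Fin 4, i < j → ¬ Sim (s i (x i), κ i (x i)) (s j (x j), κ j (x j)) := by
          intro i j hij hsim
          have h1 := hx2 i j hij
          rw [hBd] at h1
          apply h1
          have hq2 := QuotZ_Sim (hs0 j _ (hx1 j)) (hs0 i _ (hx1 i)) (hκ j _ (hx1 j)).1 (hκ i _ (hx1 i)).1 (Sim_symm hsim)
          have h2 : ((s j (x j) : ℕ) : ℚ) / (s i (x i) : ℕ) = ρ j (x j) / ρ i (x i) := by
            rw [hs j _ (hx1 j), hs i _ (hx1 i)]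
            exact mul_div_mul_left _ _ (by exact_mod_cast hU0.ne')
          rw [h2] at hq2
          obtain ⟨m, hm⟩ : ∃ m : ℕ, m = (j : ℕ) - (i : ℕ) := ⟨_, rfl⟩
          have hij' : (i : ℕ) < (j : ℕ) := hij
          have hj := j.isLt
          have hm1 : 1 ≤ m ∧ m ≤ 3 := by omega
          have h3 : ρ j (x j) / ρ i (x i) = (h * e (fun k => n₀ k + (6 / ((j : ℕ) - (i : ℕ) : ℕ) : ℕ) * (x j k - x i k))) ^ m := by
            have e7 : (j : ℕ) = m + (i : ℕ) := by omega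
            rw [div_eq_iff (hρP i (x i)).pos.ne', mul_pow, epow, hρd, hρd]
            have e8 : ∀ (A : ℚ) (X Y : Fin d → ℤ), h ^ m * e X * (h ^ (i : ℕ) * e Y) = h ^ (j : ℕ) * e (fun k => X k + Y k) := by
              intro A X Y
              rw [eadd, e7, pow_add]
              ring
            rw [e8 0]
            congr 2
            funext k
            rw [← hm]
            have e1 : ((j : ℕ) : ℤ) = (i : ℕ) + (m : ℤ) := by omega
            have e2 : (m : ℤ) * ((6 / m : ℕ) : ℤ) = 6 := by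
              obtain ⟨h7, h8⟩ := hm1
              interval_cases m <;> norm_num
            rw [e1]
            calc ((i : ℕ) + (m : ℤ)) * n₀ k + 6 * x j k = m * n₀ k + 6 * (x j k - x i k) + ((i : ℕ) * n₀ k + 6 * x i k) := by ring
              _ = m * n₀ k + (m * ((6 / m : ℕ) : ℤ)) * (x j k - x i k) + ((i : ℕ) * n₀ k + 6 * x i k) := by rw [e2]
              _ = _ := by ring
          rw [h3] at hq2
          obtain ⟨h7, h8⟩ := hm1
          have h9 : m = 1 ∨ m = 2 ∨ m = 3 := by omega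
          rcases h9 with h9 | h9 | h9
          · rw [h9, pow_one] at hq2
            exact Or.inl hq2
          · rw [h9] at hq2
            exact Or.inr (Or.inl hq2)
          · rw [h9] at hq2
            exact Or.inr (Or.inr hq2)
        intro i j hij hsim
        rcases lt_or_gt_of_ne hij with h | h
        · exact key i j h hsim
        · exact key j i h (Sim_symm hsim)
    · intro x hx y hy hxy
      rw [mem_coe, mem_filter, Fintype.mem_piFinset] at hx hy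
      funext i
      have h1 := congrFun hxy i
      simp only [Prod.mk.injEq] at h1
      exact hsinj i _ (hx.1 i) _ (hy.1 i) h1.1
  have hL2 := hN₀ N hNN₀
  have hprod : (∏ i, (#(F i) : ℝ)) = (N : ℝ) ^ 4 := by
    rw [prod_congr rfl fun i _ => by rw [hFc i], prod_const, card_univ, Fintype.card_fin]
  rw [hprod] at hq1
  linarith

end Pool.Agent.IT
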